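import Pool.Agent.TH250.Z3.Stm
import Pool.Agent.H336R2.HD.A1
import Pool.Agent.H336R2.HD.A3

set_option autoImplicit false

/-!
# The total archimedean bound
-/

open Polynomial Pool.Agent.H337R2 Filter Topology
open Pool.Agent.TH817.Z3 (RK NL DET)

namespace Pool.Agent.TH250.Z3.AMx

noncomputable section

/-! ### the entries -/

lemma al_mono {C C' : ℝ} {K K' n : ℕ} (hC : 0 < C) (hCC : C ≤ C') (hK : K ≤ K') (b m : ℕ) :
    al C K n b m ≤ al C' K' n b m := by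
  have h1 : Real.log C ≤ Real.log C' := Real.log_le_log hC hCC
  have hl : 0 ≤ Real.log (n : ℝ) := Real.log_natCast_nonneg n
  have h2 : (K : ℝ) * Real.log n ≤ (K' : ℝ) * Real.log n :=
    mul_le_mul_of_nonneg_right (by exact_mod_cast hK) hl
  have e : al C' K' n b m - al C K n b m =
      (Real.log C' - Real.log C) + ((K' : ℝ) * Real.log n - (K : ℝ) * Real.log n) := by
    unfold al la
    ring
  linarith

/-- from bounds of the squares to the bound of the product -/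
lemma prod_le_of_sq {T a b A B : ℝ} (ha : 0 ≤ a) (hb : 0 ≤ b) (h1 : T * a ^ 2 ≤ A) (h2 : T * b ^ 2 ≤ B)
    {D : ℝ} (hD : 0 ≤ D) (hAB : A * B ≤ D ^ 2) : T * (a * b) ≤ D := by
  rcases lt_or_ge T 0 with hT | hT
  · have : T * (a * b) ≤ 0 := mul_nonpos_of_nonpos_of_nonneg hT.le (mul_nonneg ha hb)
    linarith
  · apply le_of_sq_le_sq _ hD
    calc (T * (a * b)) ^ 2 = (T * a ^ 2) * (T * b ^ 2) := by ring
      _ ≤ A * B := mul_le_mul h1 h2 (by positivity) (le_trans (by positivity) h1)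
      _ ≤ D ^ 2 := hAB

/-- the exponential of the poles -/
lemma pole_exp (h6 : StG6) (n : ℕ) :
    Real.exp (-(n * PhiG)) * 2 ^ (UU * (n / 120)) ≤ Real.exp (31078 / 1000 * n) := by
  have e : (2 : ℝ) ^ (UU * (n / 120)) = Real.exp ((UU * (n / 120) : ℕ) * Real.log 2) := by
    rw [Real.exp_nat_mul, Real.exp_log (by norm_num)]
  rw [e, ← Real.exp_add]
  apply Real.exp_le_exp.2
  have h1 : ((UU * (n / 120) : ℕ) : ℝ) ≤ (UU : ℝ) * ((n : ℝ) / 120) := by
    push_cast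
    apply mul_le_mul_of_nonneg_left _ (by positivity)
    exact Nat.cast_div_le
  have hl2 : 0 ≤ Real.log 2 := Real.log_nonneg (by norm_num)
  have h2 : ((UU * (n / 120) : ℕ) : ℝ) * Real.log 2 ≤ (UU : ℝ) * ((n : ℝ) / 120) * Real.log 2 :=
    mul_le_mul_of_nonneg_right h1 hl2
  have h3 : ((UU : ℝ) / 120 * Real.log 2 - PhiG) * n ≤ 31078 / 1000 * n :=
    mul_le_mul_of_nonneg_right h6 (by positivity)
  have e2 : (UU : ℝ) * ((n : ℝ) / 120) * Real.log 2 = (UU : ℝ) / 120 * Real.log 2 * n := by ring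
  rw [e2] at h2
  have e3 : ((UU : ℝ) / 120 * Real.log 2 - PhiG) * n = (UU : ℝ) / 120 * Real.log 2 * n - n * PhiG := by ring
  rw [e3] at h3
  linarith

/-- the polynomials -/
def PP (n i : ℕ) : ℚ[X] := PA n (loc n i).1 (loc n i).2.1 (loc n i).2.2

lemma entry_le (hG6 : StG6) (ha : StG4a) (hd : StG4d) {C3 : ℝ} (hC3 : 0 < C3)
    (h3 : ∀ n : ℕ, 1 ≤ n → ∀ x : ℚ, ∀ Q : ℚ[X], Q.natDegree ≤ 4 * n - 2 →
      ∀ B : ℝ, (∀ y : ℝ, NG n y * ‖aeval (zn n y) Q‖ * Real.exp (-(2 * Real.pi * |y|)) ≤ B * (1 + y ^ 2)⁻¹) →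
      |((NL n x Q : ℚ) : ℝ)| ≤ C3 * B + 2 * |(x : ℝ) - zr 3| *
        ∑ k ∈ Finset.Icc (4 * n + 1) (8 * n), ((RK n k : ℚ) : ℝ) * |((Q.eval (-(k : ℚ)) : ℚ) : ℝ)|)
    {C : ℝ} {K : ℕ}
    (h4 : ∀ n : ℕ, 120000 ≤ n → ∀ {b m j : ℕ}, Pos n b m j → ∀ y : ℝ,
      NG n y * Real.exp (-(2 * Real.pi * |y|)) * (1 + y ^ 2) * ‖aeval (zn n y) (PA n b m j)‖ ^ 2 ≤
        Real.exp (al C K n b m))
    (h5 : ∀ n : ℕ, 300000 ≤ n → ∀ {b m j : ℕ}, Pos n b m j →
      ∀ k ∈ Finset.Icc (4 * n + 1) (8 * n),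
      ((RK n k : ℚ) : ℝ) * |(((PA n b m j).eval (-(k : ℚ)) : ℚ) : ℝ)| ^ 2 ≤
        Real.exp (al C K n b m) * (Real.exp (-(n * PhiG)) * 2 ^ (UU * (n / 120))))
    {n : ℕ} (hn : 300000 ≤ n) (x : ℚ)
    (hx : |(x : ℝ) - zr 3| ≤ Real.exp (-(31078 / 1000 * n))) {i j : ℕ} (hi : i < 2 * n) (hj : j < 2 * n) :
    |((NL n x (PP n i * PP n j) : ℚ) : ℝ)| ^ 2 ≤
      (((C3 + 8) * n) * Real.exp (al C K n (loc n i).1 (loc n i).2.1)) *
      (((C3 + 8) * n) * Real.exp (al C K n (loc n j).1 (loc n j).2.1)) := by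
  obtain ⟨pi, di⟩ := hd (by omega) hi
  obtain ⟨pj, dj⟩ := hd (by omega) hj
  set ai := al C K n (loc n i).1 (loc n i).2.1 with hai
  set aj := al C K n (loc n j).1 (loc n j).2.1 with haj
  set B := Real.exp ((ai + aj) / 2) with hB
  have hB0 : 0 < B := Real.exp_pos _
  have e2 : B ^ 2 = Real.exp ai * Real.exp aj := by
    rw [hB, ← Real.exp_nat_mul, ← Real.exp_add]
    congr 1
    push_cast
    ring
  have hdeg : (PP n i * PP n j).natDegree ≤ 4 * n - 2 := by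
    unfold PP
    rw [(ha pi).1.natDegree_mul (ha pj).1, (ha pi).2, (ha pj).2, di, dj]
    omega
  have hline : ∀ y : ℝ, NG n y * ‖aeval (zn n y) (PP n i * PP n j)‖ * Real.exp (-(2 * Real.pi * |y|)) ≤
      B * (1 + y ^ 2)⁻¹ := by
    intro y
    have hy : (0 : ℝ) < 1 + y ^ 2 := by positivity
    rw [← div_eq_mul_inv, le_div_iff₀ hy, map_mul, norm_mul]
    have p1 := h4 n (by omega) pi y
    have p2 := h4 n (by omega) pj y
    have := prod_le_of_sq (norm_nonneg _) (norm_nonneg _) p1 p2 hB0.le (by rw [e2])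
    unfold PP
    calc NG n y * (‖aeval (zn n y) (PA n (loc n i).1 (loc n i).2.1 (loc n i).2.2)‖ *
          ‖aeval (zn n y) (PA n (loc n j).1 (loc n j).2.1 (loc n j).2.2)‖) *
          Real.exp (-(2 * Real.pi * |y|)) * (1 + y ^ 2)
        = NG n y * Real.exp (-(2 * Real.pi * |y|)) * (1 + y ^ 2) *
          (‖aeval (zn n y) (PA n (loc n i).1 (loc n i).2.1 (loc n i).2.2)‖ *
          ‖aeval (zn n y) (PA n (loc n j).1 (loc n j).2.1 (loc n j).2.2)‖) := by ring
      _ ≤ B := this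
  set E := Real.exp (-(n * PhiG)) * 2 ^ (UU * (n / 120)) with hE
  have hE0 : 0 < E := by rw [hE]; exact mul_pos (Real.exp_pos _) (pow_pos (by norm_num) _)
  have hpole : ∑ k ∈ Finset.Icc (4 * n + 1) (8 * n), ((RK n k : ℚ) : ℝ) *
      |(((PP n i * PP n j).eval (-(k : ℚ)) : ℚ) : ℝ)| ≤ 4 * n * (B * E) := by
    have h1 : ∀ k ∈ Finset.Icc (4 * n + 1) (8 * n), ((RK n k : ℚ) : ℝ) *
      |(((PP n i * PP n j).eval (-(k : ℚ)) : ℚ) : ℝ)| ≤ B * E := by
      intro k hk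
      have p1 := h5 n hn pi k hk
      have p2 := h5 n hn pj k hk
      have := prod_le_of_sq (abs_nonneg _) (abs_nonneg _) p1 p2 (D := B * E) (by positivity) (by
        rw [mul_pow, e2]
        apply le_of_eq
        ring)
      rw [eval_mul]
      push_cast
      rw [abs_mul]
      exact this
    have h2 := Finset.sum_le_sum h1
    rw [Finset.sum_const, Nat.card_Icc, nsmul_eq_mul] at h2
    have e3 : 8 * n + 1 - (4 * n + 1) = 4 * n := by omega
    rw [e3] at h2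
    push_cast at h2
    exact h2
  have hn1 : (1 : ℝ) ≤ n := by exact_mod_cast (by omega : 1 ≤ n)
  have key : |((NL n x (PP n i * PP n j) : ℚ) : ℝ)| ≤ ((C3 + 8) * n) * B := by
    have h6 := h3 n (by omega) x (PP n i * PP n j) hdeg B hline
    have h7 : 2 * |(x : ℝ) - zr 3| * ∑ k ∈ Finset.Icc (4 * n + 1) (8 * n), ((RK n k : ℚ) : ℝ) *
        |(((PP n i * PP n j).eval (-(k : ℚ)) : ℚ) : ℝ)| ≤ 8 * n * B := by
      have hE1 : E ≤ Real.exp (31078 / 1000 * n) := pole_exp hG6 n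
      calc 2 * |(x : ℝ) - zr 3| * ∑ k ∈ Finset.Icc (4 * n + 1) (8 * n), ((RK n k : ℚ) : ℝ) *
            |(((PP n i * PP n j).eval (-(k : ℚ)) : ℚ) : ℝ)|
          ≤ 2 * |(x : ℝ) - zr 3| * (4 * n * (B * E)) :=
            mul_le_mul_of_nonneg_left hpole (by positivity)
        _ ≤ 2 * Real.exp (-(31078 / 1000 * n)) * (4 * n * (B * Real.exp (31078 / 1000 * n))) := by
            apply mul_le_mul _ _ (by positivity) (by positivity)
            · exact mul_le_mul_of_nonneg_left hx (by norm_num)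
            · apply mul_le_mul_of_nonneg_left _ (by positivity)
              exact mul_le_mul_of_nonneg_left hE1 hB0.le
        _ = 8 * n * B * (Real.exp (-(31078 / 1000 * n)) * Real.exp (31078 / 1000 * n)) := by ring
        _ = 8 * n * B := by
            rw [← Real.exp_add, neg_add_cancel, Real.exp_zero, mul_one]
    have h8 : C3 * B ≤ C3 * n * B := by
      have := mul_le_mul_of_nonneg_left hn1 (mul_nonneg hC3.le hB0.le)
      linarith
    have e9 : ((C3 + 8) * n) * B = C3 * n * B + 8 * n * B := by ring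
    linarith
  calc |((NL n x (PP n i * PP n j) : ℚ) : ℝ)| ^ 2 ≤ (((C3 + 8) * n) * B) ^ 2 :=
        pow_le_pow_left₀ (abs_nonneg _) key 2
    _ = ((C3 + 8) * n) * ((C3 + 8) * n) * B ^ 2 := by ring
    _ = _ := by rw [e2]; ring

/-! ### the determinant -/

lemma log_det_le {n : ℕ} (hn : 1 ≤ n) (x : ℚ) (P : ℕ → ℚ[X])
    (hP : ∀ i < 2 * n, (P i).Monic ∧ (P i).natDegree = i) {D : ℝ} (hD : 0 < D) (a : ℕ → ℝ)
    (h : ∀ i j : ℕ, i < 2 * n → j < 2 * n → |((NL n x (P i * P j) : ℚ) : ℝ)| ^ 2 ≤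
      (D * Real.exp (a i)) * (D * Real.exp (a j)))
    (hdet : DET n x (2 * n) ≠ 0) :
    Real.log |((DET n x (2 * n) : ℚ) : ℝ)| ≤
      (2 * n : ℕ) * Real.log (2 * n : ℕ) + (2 * n : ℕ) * Real.log D + ∑ i ∈ Finset.range (2 * n), a i := by
  have hA1 := Pool.Agent.H336R2.HD.A1_det_monic (NL n x) (2 * n) P hP
  have hdet' : ((DET n x (2 * n) : ℚ) : ℝ) =
      (Matrix.of fun i j : Fin (2 * n) => ((NL n x (P i * P j) : ℚ) : ℝ)).det := by
    unfold DET
    rw [← hA1]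
    have := RingHom.map_det (Rat.castHom ℝ) (Matrix.of fun i j : Fin (2 * n) => NL n x (P i * P j))
    simp only [Rat.coe_castHom] at this
    rw [this]
    congr 1
  have hA4 := Pool.Agent.H336R2.HD.A4_abs_det (2 * n)
    (Matrix.of fun i j : Fin (2 * n) => ((NL n x (P i * P j) : ℚ) : ℝ))
    (fun i => D * Real.exp (a i)) (fun i => by positivity) (by
      intro i j
      simp only [Matrix.of_apply]
      exact h i j i.2 j.2)
  rw [← hdet'] at hA4
  have hpos : 0 < |((DET n x (2 * n) : ℚ) : ℝ)| := abs_pos.2 (by exact_mod_cast hdet)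
  have hlog := Real.log_le_log hpos hA4
  have hf : (0 : ℝ) < ((2 * n).factorial : ℝ) := by exact_mod_cast Nat.factorial_pos _
  rw [Finset.prod_mul_distrib, Finset.prod_const, Finset.card_range, ← Real.exp_sum,
    Real.log_mul hf.ne' (by positivity), Real.log_mul (by positivity) (by positivity), Real.log_pow,
    Real.log_exp] at hlog
  have hfac : Real.log ((2 * n).factorial : ℝ) ≤ (2 * n : ℕ) * Real.log (2 * n : ℕ) := by
    rw [← Real.log_pow]
    apply Real.log_le_log hf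
    exact_mod_cast Nat.factorial_le_pow (2 * n)
  linarith

lemma final_ev (c ε : ℝ) (hε : 0 < ε) :
    ∀ᶠ n : ℕ in atTop, 2 * (n : ℝ) * (c + Real.log n) ≤ ε * (n : ℝ) ^ 2 := by
  have h1 : Tendsto (fun n : ℕ => Real.log (n : ℝ) / n) atTop (𝓝 0) := by
    have := Real.isLittleO_log_id_atTop.tendsto_div_nhds_zero
    exact this.comp tendsto_natCast_atTop_atTop
  have h2 : Tendsto (fun n : ℕ => c / (n : ℝ)) atTop (𝓝 0) := tendsto_const_div_atTop_nhds_zero_nat c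
  have h3 : Tendsto (fun n : ℕ => 2 * (c / (n : ℝ) + (Real.log (n : ℝ) / n))) atTop (𝓝 0) := by
    have := (h2.add h1).const_mul 2
    simpa using this
  have h4 := h3.eventually (gt_mem_nhds hε)
  filter_upwards [h4, eventually_gt_atTop 0] with n hn hn0
  have hn' : (0 : ℝ) < n := by exact_mod_cast hn0
  have e : 2 * (n : ℝ) * (c + Real.log n) = 2 * (c / (n : ℝ) + (Real.log (n : ℝ) / n)) * (n : ℝ) ^ 2 := by
    field_simp
  rw [e]
  exact mul_le_mul_of_nonneg_right hn.le (by positivity)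

/-- **the archimedean part** -/
theorem AM_of (hG5 : StG5) (hG6 : StG6) (hB : StB3) (ha : StG4a) (hb : StG4b) (hc : StG4c) (hd : StG4d) (he : StG4e) : StAM := by
  obtain ⟨C3, hC3, h3⟩ := hB
  obtain ⟨C1, K1, hC1, h4⟩ := hb
  obtain ⟨C2, K2, hC2, h5⟩ := hc
  set C := max C1 C2 with hCdef
  set K := max K1 K2 with hKdef
  have hC : 0 < C := lt_max_of_lt_left hC1
  have h4' : ∀ n : ℕ, 120000 ≤ n → ∀ {b m j : ℕ}, Pos n b m j → ∀ y : ℝ,
      NG n y * Real.exp (-(2 * Real.pi * |y|)) * (1 + y ^ 2) * ‖aeval (zn n y) (PA n b m j)‖ ^ 2 ≤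
        Real.exp (al C K n b m) := by
    intro n hn b m j hp y
    exact (h4 n hn hp y).trans (Real.exp_le_exp.2 (al_mono hC1 (le_max_left _ _) (le_max_left _ _) b m))
  have h5' : ∀ n : ℕ, 300000 ≤ n → ∀ {b m j : ℕ}, Pos n b m j →
      ∀ k ∈ Finset.Icc (4 * n + 1) (8 * n),
      ((RK n k : ℚ) : ℝ) * |(((PA n b m j).eval (-(k : ℚ)) : ℚ) : ℝ)| ^ 2 ≤
        Real.exp (al C K n b m) * (Real.exp (-(n * PhiG)) * 2 ^ (UU * (n / 120))) := by
    intro n hn b m j hp k hk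
    refine (h5 n hn hp k hk).trans (mul_le_mul_of_nonneg_right ?_ (mul_nonneg (Real.exp_pos _).le (pow_nonneg (by norm_num) _)))
    exact Real.exp_le_exp.2 (al_mono hC2 (le_max_right _ _) (le_max_right _ _) b m)
  unfold StAM
  filter_upwards [he C K hC (1 / 2000) (by norm_num),
    final_ev (Real.log 2 + Real.log (C3 + 8)) (1 / 4000) (by norm_num),
    final_ev 0 (1 / 4000) (by norm_num), eventually_ge_atTop 300000]
    with n hsum hfin hfin2 hn x hx hD
  have hn0 : (0 : ℝ) < n := by exact_mod_cast (by omega : 0 < n)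
  have h6 := log_det_le (n := n) (by omega) x (PP n)
    (fun i hi => by
      obtain ⟨p1, d1⟩ := hd (by omega : 120 ≤ n) hi
      exact ⟨(ha p1).1, by rw [show PP n i = PA n (loc n i).1 (loc n i).2.1 (loc n i).2.2 from rfl, (ha p1).2, d1]⟩)
    (D := (C3 + 8) * n) (by positivity) (fun i => al C K n (loc n i).1 (loc n i).2.1)
    (fun i j hi hj => entry_le hG6 ha hd hC3 h3 h4' h5' hn x hx hi hj) hD
  have e1 : Real.log ((2 * n : ℕ) : ℝ) = Real.log 2 + Real.log n := by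
    push_cast
    exact Real.log_mul (by norm_num) hn0.ne'
  have e1' : Real.log ((C3 + 8) * n) = Real.log (C3 + 8) + Real.log n :=
    Real.log_mul (by linarith) hn0.ne'
  rw [e1, e1'] at h6
  have h7 := hG5
  unfold StG5 at h7
  have h8 : (2 * PhiG - 74428 / 14400 * Real.log 2 + 1 / 2000) * (n : ℝ) ^ 2 ≤
      (-(26597 / 1000) + 1 / 2000) * (n : ℝ) ^ 2 :=
    mul_le_mul_of_nonneg_right (by linarith) (by positivity)
  push_cast at h6
  have e2 : 2 * (n : ℝ) * (Real.log 2 + Real.log n) + 2 * n * (Real.log (C3 + 8) + Real.log n) =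
      2 * (n : ℝ) * (Real.log 2 + Real.log (C3 + 8) + Real.log n) + 2 * (n : ℝ) * (0 + Real.log n) := by ring
  have h9 : (1 / 4000 : ℝ) * (n : ℝ) ^ 2 + (1 / 4000 : ℝ) * (n : ℝ) ^ 2 +
      (-(26597 / 1000) + 1 / 2000) * (n : ℝ) ^ 2 = -(26596 / 1000) * (n : ℝ) ^ 2 := by ring
  linarith

end

end Pool.Agent.TH250.Z3.AMx
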