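import Pool.Agent.TH250.Z3.LineR

set_option autoImplicit false

/-!
# The size of `R` at the real point of the line
-/

open Polynomial Pool.Agent.H337R2 Filter Topology

namespace Pool.Agent.TH250.Z3

noncomputable section

lemma xl_ge (y : ℝ) (hy : 0 ≤ y) : -1 ≤ xl y := by
  rcases hy.eq_or_lt with h | h
  · rw [← h, xl_zero]; norm_num
  · have h1 := Real.one_sub_inv_le_log_of_pos h
    unfold xl
    have h2 : y * (1 - y⁻¹) ≤ y * Real.log y := mul_le_mul_of_nonneg_left h1 hy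
    have h3 : y * (1 - y⁻¹) = y - 1 := by field_simp
    linarith

lemma xl_nonpos {x : ℝ} (h0 : 0 ≤ x) (h1 : x ≤ 1) : xl x ≤ 0 :=
  mul_nonpos_of_nonneg_of_nonpos h0 (Real.log_nonpos h0 h1)

lemma xl_near {x y s R : ℝ} (hx : 0 ≤ x) (hy : 0 ≤ y) (hs : |x - y| ≤ s) (hxR : x ≤ R)
    (hR : 1 ≤ R) : xl x ≤ xl y + s * (Real.log R + 1) + 1 := by
  have hs0 : 0 ≤ s := (abs_nonneg _).trans hs
  have hlR : 0 ≤ Real.log R := Real.log_nonneg hR
  have hp : 0 ≤ s * (Real.log R + 1) := by positivity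
  have hy1 := xl_ge y hy
  rcases le_or_gt x 1 with h1 | h1
  · have := xl_nonpos hx h1
    linarith
  · have hlx : 0 ≤ Real.log x := Real.log_nonneg h1.le
    rcases le_or_gt x y with h2 | h2
    · have : xl x ≤ xl y := by
        unfold xl
        exact mul_le_mul h2 (Real.log_le_log (by linarith) h2) hlx hy
      linarith
    · have hxy : x - y ≤ s := (le_abs_self _).trans hs
      have hlxR : Real.log x ≤ Real.log R := Real.log_le_log (by linarith) hxR
      rcases hy.eq_or_lt with h3 | h3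
      · have : xl x ≤ s * Real.log R := by
          unfold xl
          exact mul_le_mul (by linarith) hlxR hlx hs0
        rw [← h3, xl_zero]
        nlinarith
      · have h4 : Real.log x - Real.log y ≤ x / y - 1 := by
          rw [← Real.log_div (by linarith) h3.ne']
          exact Real.log_le_sub_one_of_pos (by positivity)
        have h5 : y * (Real.log x - Real.log y) ≤ x - y := by
          calc y * (Real.log x - Real.log y) ≤ y * (x / y - 1) := mul_le_mul_of_nonneg_left h4 hy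
            _ = x - y := by field_simp
        have h6 : (x - y) * Real.log x ≤ s * Real.log R :=
          mul_le_mul hxy hlxR hlx hs0
        have h7 : xl x = xl y + (x - y) * Real.log x + y * (Real.log x - Real.log y) := by
          unfold xl; ring
        rw [h7]
        nlinarith

lemma fac_upper (N : ℕ) : (N.factorial : ℝ) ≤
    Real.exp 1 * (N + 1) * Real.exp (xl N) * Real.exp (-(N : ℝ)) := by
  have h := fac_up N
  rw [Real.exp_neg, ← div_eq_mul_inv, le_div_iff₀ (Real.exp_pos _)]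
  exact h

lemma fac_lower (N : ℕ) : Real.exp (xl N) * Real.exp (-(N : ℝ)) ≤ (N.factorial : ℝ) := by
  have h := fac_low 0 N
  simp only [Nat.factorial_zero, Nat.cast_one, one_mul, Nat.cast_zero, zero_add, xl_zero,
    Real.exp_zero, mul_one] at h
  rw [Real.exp_neg, ← div_eq_mul_inv, div_le_iff₀ (Real.exp_pos _)]
  exact h

/-- `f n ≤ C n^K exp (φ n)` -/
def UB (f φ : ℕ → ℝ) : Prop := ∃ (C : ℝ) (K : ℕ), 0 < C ∧ ∀ n : ℕ, 120 ≤ n → 0 ≤ f n ∧
  f n ≤ C * (n : ℝ) ^ K * Real.exp (φ n)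

lemma UB.mul {f g φ ψ : ℕ → ℝ} (hf : UB f φ) (hg : UB g ψ) :
    UB (fun n => f n * g n) (fun n => φ n + ψ n) := by
  obtain ⟨C, K, hC, h⟩ := hf
  obtain ⟨C', K', hC', h'⟩ := hg
  refine ⟨C * C', K + K', by positivity, fun n hn => ?_⟩
  obtain ⟨a1, a2⟩ := h n hn
  obtain ⟨b1, b2⟩ := h' n hn
  refine ⟨mul_nonneg a1 b1, ?_⟩
  calc f n * g n ≤ (C * (n : ℝ) ^ K * Real.exp (φ n)) * (C' * (n : ℝ) ^ K' * Real.exp (ψ n)) :=
        mul_le_mul a2 b2 b1 (a1.trans a2)
    _ = _ := by rw [Real.exp_add, pow_add]; ring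

/-- the exponent of a factorial -/
def fe (α : ℝ) (n : ℕ) : ℝ := n * xl α + n * α * Real.log n - n * α

lemma fe_eq {α : ℝ} (hα : 0 ≤ α) {n : ℕ} (hn : 1 ≤ n) : fe α n = xl (α * n) - α * n := by
  have hn0 : (0 : ℝ) < n := by exact_mod_cast hn
  unfold fe
  rw [mul_comm α, xl_scale hn0 hα]

lemma UB_fac {α : ℝ} (hα : 0 < α) (L : ℕ → ℕ) (hL : ∀ n : ℕ, 120 ≤ n → |(L n : ℝ) - α * n| ≤ 100) :
    UB (fun n => ((L n).factorial : ℝ)) (fe α) := by
  refine ⟨Real.exp 202 * (α + 101) ^ 101, 101, by positivity, fun n hn => ⟨by positivity, ?_⟩⟩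
  have hn1 : (1 : ℝ) ≤ n := by exact_mod_cast (by omega : 1 ≤ n)
  have h := hL n hn
  have h' := abs_le.1 h
  set R : ℝ := (α + 101) * n with hR
  have hR1 : 1 ≤ R := by rw [hR]; nlinarith
  have hLR : (L n : ℝ) + 1 ≤ R := by rw [hR]; nlinarith
  have hx := xl_near (Nat.cast_nonneg (L n)) (by positivity) h (by linarith) hR1
  have hf := fac_upper (L n)
  have hfe := fe_eq hα.le (by omega : 1 ≤ n)
  refine hf.trans ?_
  have hR0 : 0 < R := by linarith
  have e1 : Real.exp (xl (L n)) ≤ Real.exp (xl (α * n)) * R ^ 100 * Real.exp 101 := by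
    have e2 : R ^ 100 = Real.exp (100 * Real.log R) := by
      have : (100 : ℝ) * Real.log R = ((100 : ℕ) : ℝ) * Real.log R := by norm_num
      rw [this, Real.exp_nat_mul, Real.exp_log hR0]
    rw [e2, ← Real.exp_add, ← Real.exp_add]
    apply Real.exp_le_exp.2
    linarith
  have e3 : Real.exp (-(L n : ℝ)) ≤ Real.exp (-(α * n)) * Real.exp 100 := by
    rw [← Real.exp_add]
    apply Real.exp_le_exp.2
    linarith
  calc Real.exp 1 * ((L n : ℝ) + 1) * Real.exp (xl (L n)) * Real.exp (-(L n : ℝ))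
      ≤ Real.exp 1 * R * (Real.exp (xl (α * n)) * R ^ 100 * Real.exp 101) *
        (Real.exp (-(α * n)) * Real.exp 100) := by gcongr
    _ = (Real.exp 1 * Real.exp 101 * Real.exp 100) * R ^ 101 *
        (Real.exp (xl (α * n)) * Real.exp (-(α * n))) := by ring
    _ = Real.exp 202 * (α + 101) ^ 101 * (n : ℝ) ^ 101 * Real.exp (fe α n) := by
        rw [← Real.exp_add, ← Real.exp_add, ← Real.exp_add, hfe, hR, mul_pow,
          show (1 : ℝ) + 101 + 100 = 202 by norm_num, show xl (α * n) + -(α * n) = xl (α * n) - α * n by ring]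
        ring

lemma UB_inv_fac {α : ℝ} (hα : 0 < α) (L : ℕ → ℕ) (hL : ∀ n : ℕ, 120 ≤ n → |(L n : ℝ) - α * n| ≤ 100) :
    UB (fun n => ((L n).factorial : ℝ)⁻¹) (fun n => -fe α n) := by
  refine ⟨Real.exp 201 * (α + 101) ^ 100, 100, by positivity, fun n hn => ⟨by positivity, ?_⟩⟩
  have hn1 : (1 : ℝ) ≤ n := by exact_mod_cast (by omega : 1 ≤ n)
  have h := hL n hn
  have h' := abs_le.1 h
  set R : ℝ := (α + 101) * n with hR
  have hR1 : 1 ≤ R := by rw [hR]; nlinarith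
  have hR0 : 0 < R := by linarith
  have hx := xl_near (x := α * n) (y := (L n : ℝ)) (s := 100) (R := R) (by positivity) (Nat.cast_nonneg (L n))
    (by rw [abs_sub_comm]; exact h) (by rw [hR]; nlinarith) hR1
  have hf := fac_lower (L n)
  have hfe := fe_eq hα.le (by omega : 1 ≤ n)
  have hfac : (0 : ℝ) < ((L n).factorial : ℝ) := by exact_mod_cast Nat.factorial_pos _
  rw [inv_le_iff_one_le_mul₀ hfac]
  have e1 : Real.exp (fe α n) ≤ Real.exp 201 * R ^ 100 * (Real.exp (xl (L n)) * Real.exp (-(L n : ℝ))) := by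
    have e2 : R ^ 100 = Real.exp (100 * Real.log R) := by
      have : (100 : ℝ) * Real.log R = ((100 : ℕ) : ℝ) * Real.log R := by norm_num
      rw [this, Real.exp_nat_mul, Real.exp_log hR0]
    rw [e2, ← Real.exp_add, ← Real.exp_add, ← Real.exp_add]
    apply Real.exp_le_exp.2
    rw [hfe]
    linarith
  have e3 : (1 : ℝ) = Real.exp (fe α n) * Real.exp (-fe α n) := by
    rw [← Real.exp_add, add_neg_cancel, Real.exp_zero]
  calc (1 : ℝ) = Real.exp (fe α n) * Real.exp (-fe α n) := e3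
    _ ≤ (Real.exp 201 * R ^ 100 * ((L n).factorial : ℝ)) * Real.exp (-fe α n) := by
        apply mul_le_mul_of_nonneg_right _ (Real.exp_pos _).le
        exact e1.trans (mul_le_mul_of_nonneg_left hf (by positivity))
    _ = _ := by rw [hR, mul_pow]; ring

lemma norm_zl_zero {m : ℕ} (hm : 1 ≤ m) : ‖zl 0 + (m : ℂ)‖ = (m : ℝ) - 1 / 2 := by
  have hm' : (1 : ℝ) ≤ m := by exact_mod_cast hm
  have h1 : zl 0 + (m : ℂ) = (((m : ℝ) - 1 / 2 : ℝ) : ℂ) := by
    unfold zl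
    push_cast
    ring
  rw [h1, Complex.norm_real, Real.norm_eq_abs, abs_of_nonneg (by linarith)]

lemma GG0_le (L : ℕ) : GG 0 0 L ≤ (L.factorial : ℝ) := by
  induction L with
  | zero => simp [GG]
  | succ L ih =>
    have h0 : GG 0 0 (L + 1) = GG 0 0 L * ((L : ℝ) + 1 - 1 / 2) := by
      unfold GG
      rw [Finset.prod_Ioc_succ_top (by omega), norm_zl_zero (by omega)]
      push_cast; ring
    rw [h0, Nat.factorial_succ]
    push_cast
    have h1 := GG_pos 0 0 L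
    have h2 : (0 : ℝ) ≤ (L : ℝ) := by positivity
    have h3 : (0 : ℝ) ≤ (L.factorial : ℝ) := by positivity
    nlinarith

lemma GG0_ge {a : ℕ} (ha : 1 ≤ a) (L : ℕ) :
    ((a + L - 1).factorial : ℝ) ≤ GG 0 a (a + L) * ((a - 1).factorial : ℝ) := by
  induction L with
  | zero => simp [GG]
  | succ L ih =>
    have h0 : GG 0 a (a + (L + 1)) = GG 0 a (a + L) * (((a + L + 1 : ℕ) : ℝ) - 1 / 2) := by
      unfold GG
      rw [← add_assoc, Finset.prod_Ioc_succ_top (by omega), norm_zl_zero (by omega)]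
    have h1 : a + (L + 1) - 1 = (a + L - 1) + 1 := by omega
    rw [h0, h1, Nat.factorial_succ]
    have h2 : ((a + L - 1 + 1 : ℕ) : ℝ) ≤ ((a + L + 1 : ℕ) : ℝ) - 1 / 2 := by
      have : a + L - 1 + 1 = a + L := by omega
      rw [this]; push_cast; linarith
    have h3 : (0 : ℝ) ≤ ((a + L - 1).factorial : ℝ) := by positivity
    have h4 := (GG_pos 0 a (a + L)).le
    have h5 : (0 : ℝ) ≤ ((a + L - 1 + 1 : ℕ) : ℝ) := by positivity
    calc (((a + L - 1 + 1) * (a + L - 1).factorial : ℕ) : ℝ)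
        = ((a + L - 1 + 1 : ℕ) : ℝ) * ((a + L - 1).factorial : ℝ) := by push_cast; ring
      _ ≤ (((a + L + 1 : ℕ) : ℝ) - 1 / 2) * (GG 0 a (a + L) * ((a - 1).factorial : ℝ)) :=
          mul_le_mul h2 ih h3 (h5.trans h2)
      _ = _ := by ring

lemma GG0_inv {a b : ℕ} (ha : 1 ≤ a) (hab : a ≤ b) :
    (GG 0 a b)⁻¹ ≤ ((a - 1).factorial : ℝ) * ((b - 1).factorial : ℝ)⁻¹ := by
  obtain ⟨L, rfl⟩ := Nat.exists_eq_add_of_le hab
  have h := GG0_ge ha L
  have h1 := GG_pos 0 a (a + L)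
  have h2 : (0 : ℝ) < ((a + L - 1).factorial : ℝ) := by exact_mod_cast Nat.factorial_pos _
  rw [← div_eq_mul_inv, inv_le_iff_one_le_mul₀ h1, div_mul_eq_mul_div, le_div_iff₀ h2, one_mul]
  linarith

lemma near_of {L n : ℕ} {α : ℝ} (h1 : (L : ℝ) ≤ α * n + 100) (h2 : α * n ≤ L + 100) :
    |(L : ℝ) - α * n| ≤ 100 := by
  rw [abs_le]; constructor <;> linarith

/-- the size of `R` at the real point of the line -/
theorem G1z : ∃ (C : ℝ) (K : ℕ), 0 < C ∧ ∀ n : ℕ, 120 ≤ n →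
    NG n 0 ≤ C * (n : ℝ) ^ K * Real.exp (n * PhiG) := by
  have key : ∀ n : ℕ, 120 ≤ n → ∃ q r : ℕ, n = 120 * q + r ∧ r < 120 ∧ LL n = 160 * q + r ∧ 1 ≤ q := by
    intro n hn
    refine ⟨n / 120, n % 120, by omega, by omega, ?_, by omega⟩
    unfold LL; omega
  have u9 := UB_fac (α := 9 / 2) (by norm_num) (fun n => 9 * n / 2) (by
    intro n hn
    have h1 : 2 * (9 * n / 2) ≤ 9 * n := by omega
    have h2 : 9 * n ≤ 2 * (9 * n / 2) + 1 := by omega
    have h1' : (2 : ℝ) * ((9 * n / 2 : ℕ) : ℝ) ≤ 9 * n := by exact_mod_cast h1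
    have h2' : (9 : ℝ) * n ≤ 2 * ((9 * n / 2 : ℕ) : ℝ) + 1 := by exact_mod_cast h2
    apply near_of <;> linarith)
  have u5 := UB_inv_fac (α := 5 / 2) (by norm_num) (fun n => 5 * n / 2) (by
    intro n hn
    have h1 : 2 * (5 * n / 2) ≤ 5 * n := by omega
    have h2 : 5 * n ≤ 2 * (5 * n / 2) + 1 := by omega
    have h1' : (2 : ℝ) * ((5 * n / 2 : ℕ) : ℝ) ≤ 5 * n := by exact_mod_cast h1
    have h2' : (5 : ℝ) * n ≤ 2 * ((5 * n / 2 : ℕ) : ℝ) + 1 := by exact_mod_cast h2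
    apply near_of <;> linarith)
  have v1 := UB_fac (α := 1 / 3) (by norm_num) (fun n => LL n - n) (by
    intro n hn
    obtain ⟨q, r, h1, h2, h3, h4⟩ := key n hn
    have a1 : 3 * (LL n - n) ≤ n := by omega
    have a2 : n ≤ 3 * (LL n - n) + 200 := by omega
    have a1' : (3 : ℝ) * ((LL n - n : ℕ) : ℝ) ≤ n := by exact_mod_cast a1
    have a2' : (n : ℝ) ≤ 3 * ((LL n - n : ℕ) : ℝ) + 200 := by exact_mod_cast a2
    apply near_of <;> linarith)
  have v2 := UB_fac (α := 5 / 6) (by norm_num) (fun n => LL n - n / 2) (by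
    intro n hn
    obtain ⟨q, r, h1, h2, h3, h4⟩ := key n hn
    have a1 : 6 * (LL n - n / 2) ≤ 5 * n + 500 := by omega
    have a2 : 5 * n ≤ 6 * (LL n - n / 2) + 500 := by omega
    have a1' : (6 : ℝ) * ((LL n - n / 2 : ℕ) : ℝ) ≤ 5 * n + 500 := by exact_mod_cast a1
    have a2' : (5 : ℝ) * n ≤ 6 * ((LL n - n / 2 : ℕ) : ℝ) + 500 := by exact_mod_cast a2
    apply near_of <;> linarith)
  have v3 := UB_fac (α := 5 / 3) (by norm_num) (fun n => 3 * n - LL n) (by
    intro n hn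
    obtain ⟨q, r, h1, h2, h3, h4⟩ := key n hn
    have a1 : 3 * (3 * n - LL n) ≤ 5 * n + 250 := by omega
    have a2 : 5 * n ≤ 3 * (3 * n - LL n) + 250 := by omega
    have a1' : (3 : ℝ) * ((3 * n - LL n : ℕ) : ℝ) ≤ 5 * n + 250 := by exact_mod_cast a1
    have a2' : (5 : ℝ) * n ≤ 3 * ((3 * n - LL n : ℕ) : ℝ) + 250 := by exact_mod_cast a2
    apply near_of <;> linarith)
  have v4 := UB_fac (α := 13 / 6) (by norm_num) (fun n => 7 * n / 2 - LL n) (by
    intro n hn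
    obtain ⟨q, r, h1, h2, h3, h4⟩ := key n hn
    have a1 : 6 * (7 * n / 2 - LL n) ≤ 13 * n + 500 := by omega
    have a2 : 13 * n ≤ 6 * (7 * n / 2 - LL n) + 500 := by omega
    have a1' : (6 : ℝ) * ((7 * n / 2 - LL n : ℕ) : ℝ) ≤ 13 * n + 500 := by exact_mod_cast a1
    have a2' : (13 : ℝ) * n ≤ 6 * ((7 * n / 2 - LL n : ℕ) : ℝ) + 500 := by exact_mod_cast a2
    apply near_of <;> linarith)
  have v4' := UB_fac (α := 13 / 6) (by norm_num) (fun n => 7 * n / 2 - LL n - 1) (by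
    intro n hn
    obtain ⟨q, r, h1, h2, h3, h4⟩ := key n hn
    have a1 : 6 * (7 * n / 2 - LL n - 1) ≤ 13 * n + 500 := by omega
    have a2 : 13 * n ≤ 6 * (7 * n / 2 - LL n - 1) + 500 := by omega
    have a1' : (6 : ℝ) * ((7 * n / 2 - LL n - 1 : ℕ) : ℝ) ≤ 13 * n + 500 := by exact_mod_cast a1
    have a2' : (13 : ℝ) * n ≤ 6 * ((7 * n / 2 - LL n - 1 : ℕ) : ℝ) + 500 := by exact_mod_cast a2
    apply near_of <;> linarith)
  have v5' := UB_fac (α := 8 / 3) (by norm_num) (fun n => 4 * n - LL n - 1) (by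
    intro n hn
    obtain ⟨q, r, h1, h2, h3, h4⟩ := key n hn
    have a1 : 3 * (4 * n - LL n - 1) ≤ 8 * n + 250 := by omega
    have a2 : 8 * n ≤ 3 * (4 * n - LL n - 1) + 250 := by omega
    have a1' : (3 : ℝ) * ((4 * n - LL n - 1 : ℕ) : ℝ) ≤ 8 * n + 250 := by exact_mod_cast a1
    have a2' : (8 : ℝ) * n ≤ 3 * ((4 * n - LL n - 1 : ℕ) : ℝ) + 250 := by exact_mod_cast a2
    apply near_of <;> linarith)
  have v6' := UB_inv_fac (α := 20 / 3) (by norm_num) (fun n => 8 * n - LL n - 1) (by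
    intro n hn
    obtain ⟨q, r, h1, h2, h3, h4⟩ := key n hn
    have a1 : 3 * (8 * n - LL n - 1) ≤ 20 * n + 250 := by omega
    have a2 : 20 * n ≤ 3 * (8 * n - LL n - 1) + 250 := by omega
    have a1' : (3 : ℝ) * ((8 * n - LL n - 1 : ℕ) : ℝ) ≤ 20 * n + 250 := by exact_mod_cast a1
    have a2' : (20 : ℝ) * n ≤ 3 * ((8 * n - LL n - 1 : ℕ) : ℝ) + 250 := by exact_mod_cast a2
    apply near_of <;> linarith)
  have v7' := UB_inv_fac (α := 43 / 6) (by norm_num) (fun n => 17 * n / 2 - LL n - 1) (by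
    intro n hn
    obtain ⟨q, r, h1, h2, h3, h4⟩ := key n hn
    have a1 : 6 * (17 * n / 2 - LL n - 1) ≤ 43 * n + 500 := by omega
    have a2 : 43 * n ≤ 6 * (17 * n / 2 - LL n - 1) + 500 := by omega
    have a1' : (6 : ℝ) * ((17 * n / 2 - LL n - 1 : ℕ) : ℝ) ≤ 43 * n + 500 := by exact_mod_cast a1
    have a2' : (43 : ℝ) * n ≤ 6 * ((17 * n / 2 - LL n - 1 : ℕ) : ℝ) + 500 := by exact_mod_cast a2
    apply near_of <;> linarith)
  obtain ⟨C, K, hC, h⟩ := (((((((((((u9.mul u9).mul u5).mul u5).mul v1).mul v2).mul v3).mul v4).mul v4').mul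
    v5').mul v6').mul v7')
  refine ⟨C, K, hC, fun n hn => ?_⟩
  obtain ⟨_, h2⟩ := h n hn
  beta_reduce at h2
  have he : fe (9 / 2) n + fe (9 / 2) n + -fe (5 / 2) n + -fe (5 / 2) n + fe (1 / 3) n + fe (5 / 6) n +
      fe (5 / 3) n + fe (13 / 6) n + fe (13 / 6) n + fe (8 / 3) n + -fe (20 / 3) n + -fe (43 / 6) n =
      n * PhiG := by
    unfold fe PhiG
    ring
  rw [he] at h2
  refine le_trans ?_ h2
  obtain ⟨q, r, k1, k2, k3, k4⟩ := key n hn
  have i1 := GG0_inv (a := 7 * n / 2 - LL n) (b := 8 * n - LL n) (by omega) (by omega)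
  have i2 := GG0_inv (a := 4 * n - LL n) (b := 17 * n / 2 - LL n) (by omega) (by omega)
  have g1 := GG0_le (LL n - n)
  have g2 := GG0_le (LL n - n / 2)
  have g3 := GG0_le (3 * n - LL n)
  have g4 := GG0_le (7 * n / 2 - LL n)
  have p1 := (GG_pos 0 0 (LL n - n)).le
  have p2 := (GG_pos 0 0 (LL n - n / 2)).le
  have p3 := (GG_pos 0 0 (3 * n - LL n)).le
  have p4 := (GG_pos 0 0 (7 * n / 2 - LL n)).le
  have p5 := inv_nonneg.2 (GG_pos 0 (7 * n / 2 - LL n) (8 * n - LL n)).le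
  have p6 := inv_nonneg.2 (GG_pos 0 (4 * n - LL n) (17 * n / 2 - LL n)).le
  unfold NG
  rw [div_eq_mul_inv _ (GG 0 (7 * n / 2 - LL n) (8 * n - LL n) * GG 0 (4 * n - LL n) (17 * n / 2 - LL n)),
    mul_inv, div_eq_mul_inv _ ((((5 * n / 2).factorial : ℕ) : ℝ) ^ 2)]
  generalize GG 0 0 (LL n - n) = x1 at *
  generalize GG 0 0 (LL n - n / 2) = x2 at *
  generalize GG 0 0 (3 * n - LL n) = x3 at *
  generalize GG 0 0 (7 * n / 2 - LL n) = x4 at *
  generalize (GG 0 (7 * n / 2 - LL n) (8 * n - LL n))⁻¹ = x5 at *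
  generalize (GG 0 (4 * n - LL n) (17 * n / 2 - LL n))⁻¹ = x6 at *
  have f1 : (0 : ℝ) ≤ ((LL n - n).factorial : ℝ) := by positivity
  have f2 : (0 : ℝ) ≤ ((LL n - n / 2).factorial : ℝ) := by positivity
  have f3 : (0 : ℝ) ≤ ((3 * n - LL n).factorial : ℝ) := by positivity
  have f4 : (0 : ℝ) ≤ ((7 * n / 2 - LL n).factorial : ℝ) := by positivity
  calc (((9 * n / 2).factorial : ℕ) : ℝ) ^ 2 * ((((5 * n / 2).factorial : ℕ) : ℝ) ^ 2)⁻¹ *
        (x2 * x3 * (x1 * x4)) * (x5 * x6)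
      ≤ (((9 * n / 2).factorial : ℕ) : ℝ) ^ 2 * ((((5 * n / 2).factorial : ℕ) : ℝ) ^ 2)⁻¹ *
        (((LL n - n / 2).factorial : ℝ) * ((3 * n - LL n).factorial : ℝ) *
          (((LL n - n).factorial : ℝ) * ((7 * n / 2 - LL n).factorial : ℝ))) *
        ((((7 * n / 2 - LL n - 1).factorial : ℝ) * ((8 * n - LL n - 1).factorial : ℝ)⁻¹) *
          (((4 * n - LL n - 1).factorial : ℝ) * ((17 * n / 2 - LL n - 1).factorial : ℝ)⁻¹)) := by
        gcongr
    _ = _ := by rw [← inv_pow]; ring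

end

end Pool.Agent.TH250.Z3
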