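import Pool.Agent.TH250.Z3.LineC
import Pool.Agent.TH250.Z3.LineZ

set_option autoImplicit false

/-!
# The bound of `R` on the line by the comparison product
-/

open Polynomial Pool.Agent.H337R2 Filter Topology

namespace Pool.Agent.TH250.Z3

noncomputable section

lemma FXp_nonneg (v : ℝ) (hv : 0 ≤ v) : 0 ≤ FXp v := by
  unfold FXp
  apply List.prod_nonneg
  intro z hz
  obtain ⟨w, _, rfl⟩ := List.mem_map.mp hz
  positivity

lemma pow1000_nonneg (s : ℝ) : 0 ≤ s ^ 1000 := Even.pow_nonneg ⟨500, by norm_num⟩ s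

lemma pow1000_eq (s : ℝ) : (s ^ 500) ^ 2 = s ^ 1000 := by
  rw [← pow_mul]

lemma abs_aux (E F g Y s r c : ℝ) (hE : 0 ≤ E) (hF : 0 ≤ F) (hY : 1 ≤ Y)
    (hA : E * (F * g ^ 500) ≤ c * r ^ 2) (hB : Y ≤ s ^ 2 * g) :
    E * F * Y ^ 500 ≤ c * r ^ 2 * s ^ 1000 := by
  have hY0 : 0 < Y := by linarith
  have hB' : Y ^ 500 ≤ (s ^ 2 * g) ^ 500 := pow_le_pow_left₀ hY0.le hB _
  have hT : 0 ≤ E * F := mul_nonneg hE hF
  have hs : 0 ≤ s ^ 1000 := pow1000_nonneg s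
  calc E * F * Y ^ 500 ≤ E * F * (s ^ 2 * g) ^ 500 := mul_le_mul_of_nonneg_left hB' hT
    _ = s ^ 1000 * (E * (F * g ^ 500)) := by
        have e1 : (s ^ 2 * g) ^ 500 = s ^ 1000 * g ^ 500 := by rw [mul_pow, ← pow_mul]
        rw [e1]
        generalize s ^ 1000 = S
        generalize g ^ 500 = G
        ring
    _ ≤ s ^ 1000 * (c * r ^ 2) := mul_le_mul_of_nonneg_left hA hs
    _ = _ := mul_comm _ _

lemma seven {x1 x2 x3 x4 x5 x6 x7 E W1 W2 W3 W4 W5 W6 W7 : ℝ}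
    (n1 : 0 ≤ x1) (n2 : 0 ≤ x2) (n3 : 0 ≤ x3) (n4 : 0 ≤ x4) (n5 : 0 ≤ x5) (n6 : 0 ≤ x6) (n7 : 0 ≤ x7)
    (k1 : x1 ≤ E ^ 6 * W1) (k2 : x2 ≤ E ^ 5 * W2) (k3 : x3 ≤ E ^ 3 * W3) (k4 : x4 ≤ E ^ 3 * W4)
    (k5 : x5 ≤ E ^ 10 * W5) (k6 : x6 ≤ E ^ 1 * W6) (k7 : x7 ≤ E ^ 22 * W7) :
    x1 * x2 ^ 2 * x3 ^ 3 * x4 ^ 5 * x5 ^ 6 * x6 ^ 5 * x7 ^ 4 ≤
      E ^ 193 * (W1 * W2 ^ 2 * W3 ^ 3 * W4 ^ 5 * W5 ^ 6 * W6 ^ 5 * W7 ^ 4) := by
  have p1 := n1.trans k1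
  have p2 := n2.trans k2
  have p3 := n3.trans k3
  have p4 := n4.trans k4
  have p5 := n5.trans k5
  have p6 := n6.trans k6
  have p7 := n7.trans k7
  calc x1 * x2 ^ 2 * x3 ^ 3 * x4 ^ 5 * x5 ^ 6 * x6 ^ 5 * x7 ^ 4
      ≤ (E ^ 6 * W1) * (E ^ 5 * W2) ^ 2 * (E ^ 3 * W3) ^ 3 * (E ^ 3 * W4) ^ 5 * (E ^ 10 * W5) ^ 6 *
        (E ^ 1 * W6) ^ 5 * (E ^ 22 * W7) ^ 4 := by gcongr
    _ = _ := by ring

/-- the bound of `R` on the line -/
theorem G1m : ∃ (C : ℝ) (K : ℕ), 0 < C ∧ ∀ n : ℕ, 120000 ≤ n → ∀ y : ℝ,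
    NG n y * Real.exp (-(2 * Real.pi * |y|)) * (1 + y ^ 2) ^ 250 *
      FXp ((y / (120 * (n / 120 : ℕ))) ^ 2) ^ (n / 120) ≤ C * (n : ℝ) ^ K * Real.exp (n * PhiG) := by
  obtain ⟨C, K, hC, h0⟩ := G1z
  refine ⟨2500 ^ 500 * Real.exp 8000 ^ 97 * C, K + 500, by positivity, ?_⟩
  intro n hn y
  obtain ⟨N, hNdef⟩ : ∃ N : ℕ, n / 120 = N := ⟨_, rfl⟩
  have hLL : LL n = n + 40 * N := by unfold LL; rw [hNdef]
  rw [hNdef]
  have hN : 1000 ≤ N := by omega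
  have hnN : 120 * N ≤ n := by omega
  have hnN' : n < 120 * N + 120 := by omega
  have hn' : (1 : ℝ) ≤ n := by exact_mod_cast (by omega : 1 ≤ n)
  have hN' : (0 : ℝ) < N := by exact_mod_cast (by omega : 0 < N)
  obtain ⟨g, hg⟩ : ∃ g : ℚ → ℝ, ∀ q : ℚ, g q = 1 + (y / (120 * N)) ^ 2 / (q : ℝ) ^ 2 := ⟨_, fun _ => rfl⟩
  have hg0 : ∀ q, 0 ≤ g q := fun q => by rw [hg]; positivity
  have hR := G1r (n := n) (by omega) y (17 * n / 2 - LL n + 298280 * N + 125) (by omega)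
  have k1 := chain N (by omega) y g hg _ _ _ (good1 (c := LL n - n) (d := LL n - n / 2) hN (by omega) (by omega))
  have k2 := chain N (by omega) y g hg _ _ _ (good2 (c := LL n - n / 2) (d := 3 * n - LL n) hN (by omega) (by omega))
  have k3 := chain N (by omega) y g hg _ _ _ (good3 (c := 3 * n - LL n) (d := 7 * n / 2 - LL n) hN (by omega) (by omega))
  have k4 := chain N (by omega) y g hg _ _ _ (good4 (c := 7 * n / 2 - LL n) (d := 4 * n - LL n) hN (by omega) (by omega))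
  have k5 := chain N (by omega) y g hg _ _ _ (good5 (c := 4 * n - LL n) (d := 8 * n - LL n) hN (by omega) (by omega))
  have k6 := chain N (by omega) y g hg _ _ _ (good6 (c := 8 * n - LL n) (d := 17 * n / 2 - LL n) hN (by omega) (by omega))
  have k7 := chain N (by omega) y g hg _ _ _ (good7 (c := 17 * n / 2 - LL n) hN (by omega))
  have hkey := key_prod g (LL n - n) (LL n - n / 2) (3 * n - LL n) (7 * n / 2 - LL n) (4 * n - LL n)
    (8 * n - LL n) (17 * n / 2 - LL n) N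
  have n1 := cpr_nonneg g hg0 (ch1 (LL n - n) N)
  have n2 := cpr_nonneg g hg0 (ch2 (LL n - n / 2) N)
  have n3 := cpr_nonneg g hg0 (ch3 (3 * n - LL n) N)
  have n4 := cpr_nonneg g hg0 (ch4 (7 * n / 2 - LL n) N)
  have n5 := cpr_nonneg g hg0 (ch5 (4 * n - LL n) N)
  have n6 := cpr_nonneg g hg0 (ch6 (8 * n - LL n) N)
  have n7 := cpr_nonneg g hg0 (ch7 (17 * n / 2 - LL n) N)
  have l1 : (ch1 (LL n - n) N).length = 6 := rfl
  have l2 : (ch2 (LL n - n / 2) N).length = 5 := rfl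
  have l3 : (ch3 (3 * n - LL n) N).length = 3 := rfl
  have l4 : (ch4 (7 * n / 2 - LL n) N).length = 3 := rfl
  have l5 : (ch5 (4 * n - LL n) N).length = 10 := rfl
  have l6 : (ch6 (8 * n - LL n) N).length = 1 := rfl
  have l7 : (ch7 (17 * n / 2 - LL n) N).length = 22 := rfl
  rw [l1] at k1
  rw [l2] at k2
  rw [l3] at k3
  rw [l4] at k4
  rw [l5] at k5
  rw [l6] at k6
  rw [l7] at k7
  have hS := seven n1 n2 n3 n4 n5 n6 n7 k1 k2 k3 k4 k5 k6 k7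
  rw [hkey] at hS
  have hF : FXp ((y / (120 * N)) ^ 2) = (FXG.map fun x => g x.1 ^ x.2).prod := by
    simp only [FXp, hg]
  rw [← hF] at hS
  have hF0 : 0 ≤ FXp ((y / (120 * N)) ^ 2) := FXp_nonneg _ (sq_nonneg _)
  have hg1 : 1 + y ^ 2 ≤ (2500 * (n : ℝ)) ^ 2 * g 2500 := by
    rw [hg]
    have e1 : (2500 * (n : ℝ)) ^ 2 * (1 + (y / (120 * N)) ^ 2 / ((2500 : ℚ) : ℝ) ^ 2) =
        (2500 * (n : ℝ)) ^ 2 + y ^ 2 * ((n : ℝ) / (120 * N)) ^ 2 := by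
      push_cast
      field_simp
    rw [e1]
    have h1 : (1 : ℝ) ≤ (n : ℝ) / (120 * N) := by
      rw [le_div_iff₀ (by positivity), one_mul]
      exact_mod_cast hnN
    have h2 : (1 : ℝ) ≤ ((n : ℝ) / (120 * N)) ^ 2 := one_le_pow₀ h1
    have h3 : (1 : ℝ) ≤ (2500 * (n : ℝ)) ^ 2 := one_le_pow₀ (by linarith)
    nlinarith [mul_le_mul_of_nonneg_left h2 (sq_nonneg y)]
  have hR0 : 0 ≤ NG n 0 := NG_nonneg n 0
  have hNy : 0 ≤ NG n y := NG_nonneg n y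
  have h1' := h0 n (by omega)
  have hY1 : 1 ≤ 1 + y ^ 2 := le_add_of_nonneg_right (sq_nonneg y)
  have hA : (NG n y * Real.exp (-(2 * Real.pi * |y|))) ^ 2 *
      ((FXp ((y / (120 * N)) ^ 2) ^ N) ^ 2 * g 2500 ^ 500) ≤ Real.exp 8000 ^ 193 * NG n 0 ^ 2 := by
    refine (mul_le_mul_of_nonneg_left hS (sq_nonneg _)).trans ?_
    calc (NG n y * Real.exp (-(2 * Real.pi * |y|))) ^ 2 * (Real.exp 8000 ^ 193 * _)
        = Real.exp 8000 ^ 193 * ((NG n y * Real.exp (-(2 * Real.pi * |y|))) ^ 2 * _) := by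
          rw [mul_left_comm]
      _ ≤ _ := mul_le_mul_of_nonneg_left hR (by positivity)
  have hmain := abs_aux _ _ _ _ _ _ _ (sq_nonneg _) (sq_nonneg _) hY1 hA hg1
  have hE1 : (1 : ℝ) ≤ Real.exp 8000 := Real.one_le_exp (by norm_num)
  have hsq : (NG n y * Real.exp (-(2 * Real.pi * |y|)) * (1 + y ^ 2) ^ 250 *
      FXp ((y / (120 * N)) ^ 2) ^ N) ^ 2 ≤ (Real.exp 8000 ^ 97 * (2500 * (n : ℝ)) ^ 500 * NG n 0) ^ 2 := by
    have hEE : Real.exp 8000 ^ 193 ≤ Real.exp 8000 ^ 194 := pow_le_pow_right₀ hE1 (by norm_num)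
    generalize FXp ((y / (120 * N)) ^ 2) ^ N = F at hmain ⊢
    generalize Real.exp (-(2 * Real.pi * |y|)) = e at hmain ⊢
    generalize 1 + y ^ 2 = Y at hmain hY1 ⊢
    generalize NG n y = r at hmain ⊢
    generalize NG n 0 = r0 at hmain ⊢
    generalize 2500 * (n : ℝ) = s at hmain ⊢
    generalize Real.exp 8000 = E at hmain hEE ⊢
    have e0 : (Y ^ 250) ^ 2 = Y ^ 500 := by rw [← pow_mul]
    have e1 : (r * e * Y ^ 250 * F) ^ 2 = (r * e) ^ 2 * F ^ 2 * Y ^ 500 := by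
      rw [← e0]
      generalize Y ^ 250 = u
      ring
    have e2 : (E ^ 97 * s ^ 500 * r0) ^ 2 = E ^ 194 * r0 ^ 2 * s ^ 1000 := by
      rw [← pow1000_eq]
      generalize s ^ 500 = u
      ring
    rw [e1, e2]
    refine hmain.trans ?_
    have hs : 0 ≤ s ^ 1000 := pow1000_nonneg s
    apply mul_le_mul_of_nonneg_right _ hs
    exact mul_le_mul_of_nonneg_right hEE (sq_nonneg _)
  have hc0 : 0 ≤ Real.exp 8000 ^ 97 * (2500 * (n : ℝ)) ^ 500 :=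
    mul_nonneg (pow_nonneg (Real.exp_pos _).le _) (pow_nonneg (by positivity) _)
  have hfin := (le_abs_self _).trans (abs_le_of_sq_le_sq hsq (mul_nonneg hc0 hR0))
  calc NG n y * Real.exp (-(2 * Real.pi * |y|)) * (1 + y ^ 2) ^ 250 * FXp ((y / (120 * N)) ^ 2) ^ N
      ≤ Real.exp 8000 ^ 97 * (2500 * (n : ℝ)) ^ 500 * NG n 0 := hfin
    _ ≤ Real.exp 8000 ^ 97 * (2500 * (n : ℝ)) ^ 500 * (C * (n : ℝ) ^ K * Real.exp (n * PhiG)) :=
        mul_le_mul_of_nonneg_left h1' hc0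
    _ = 2500 ^ 500 * Real.exp 8000 ^ 97 * C * (n : ℝ) ^ (K + 500) * Real.exp (n * PhiG) := by
        rw [mul_pow, pow_add]
        generalize (2500 : ℝ) ^ 500 = a
        generalize (n : ℝ) ^ 500 = b
        generalize Real.exp 8000 ^ 97 = c
        ring

end

end Pool.Agent.TH250.Z3
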