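import Pool.Agent.TH250.Z3.Pole
import Pool.Agent.TH250.Z3.LineM

set_option autoImplicit false

/-!
# Bounds of the basis on the line and at the poles
-/

open Polynomial Pool.Agent.H337R2 Filter Topology
open Pool.Agent.TH817.Z3 (RK)

namespace Pool.Agent.TH250.Z3

/-! ### Interpolation -/

theorem interp {T X Y a0 b0 : ℝ} (hT : 0 ≤ T) (hX : 0 ≤ X) (hY : 0 ≤ Y) {N m : ℕ} (hN : 0 < N)
    (hm : m ≤ N) (h1 : T * X ^ N ≤ Real.exp a0) (h2 : T * Y ^ N ≤ Real.exp b0) :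
    T * (X ^ (N - m) * Y ^ m) ≤ Real.exp ((1 - (m : ℝ) / N) * a0 + (m : ℝ) / N * b0) := by
  have hN' : (N : ℝ) ≠ 0 := by exact_mod_cast hN.ne'
  apply le_of_pow_le_pow_left₀ hN.ne' (Real.exp_pos _).le
  have e1 : Real.exp ((1 - (m : ℝ) / N) * a0 + (m : ℝ) / N * b0) ^ N =
      Real.exp a0 ^ (N - m) * Real.exp b0 ^ m := by
    rw [← Real.exp_nat_mul, ← Real.exp_nat_mul, ← Real.exp_nat_mul, ← Real.exp_add]
    congr 1
    rw [Nat.cast_sub hm]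
    field_simp
  have e3 : T ^ N = T ^ (N - m) * T ^ m := by rw [← pow_add, Nat.sub_add_cancel hm]
  have e2 : (T * (X ^ (N - m) * Y ^ m)) ^ N = (T * X ^ N) ^ (N - m) * (T * Y ^ N) ^ m := by
    rw [mul_pow, mul_pow, mul_pow, mul_pow, e3, ← pow_mul, ← pow_mul, ← pow_mul, ← pow_mul,
      mul_comm N (N - m), mul_comm N m]
    ring
  rw [e1, e2]
  have h3 : (T * X ^ N) ^ (N - m) ≤ Real.exp a0 ^ (N - m) := pow_le_pow_left₀ (by positivity) h1 _
  have h4 : (T * Y ^ N) ^ m ≤ Real.exp b0 ^ m := pow_le_pow_left₀ (by positivity) h2 _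
  exact mul_le_mul h3 h4 (by positivity) (by positivity)

theorem exp_la {C : ℝ} (hC : 0 < C) (K n b : ℕ) (hn : 1 ≤ n) :
    Real.exp (la C K n b) * 2 ^ (tG b * (n / 120)) =
      (C * (n : ℝ) ^ K * Real.exp (n * PhiG)) * (n : ℝ) ^ (4 * ho b * (n / 120)) := by
  have h0 : (0 : ℝ) < n := by exact_mod_cast hn
  unfold la
  rw [Real.exp_sub, Real.exp_add, Real.exp_add, Real.exp_add, Real.exp_log hC]
  have e1 : Real.exp (K * Real.log n) = (n : ℝ) ^ K := by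
    rw [Real.exp_nat_mul, Real.exp_log h0]
  have e2 : Real.exp (4 * ho b * (n / 120 : ℕ) * Real.log n) = (n : ℝ) ^ (4 * ho b * (n / 120)) := by
    have : (4 * ho b * (n / 120 : ℕ) * Real.log n : ℝ) =
        ((4 * ho b * (n / 120) : ℕ) : ℝ) * Real.log n := by
      push_cast; ring
    rw [this, Real.exp_nat_mul, Real.exp_log h0]
  have e3 : Real.exp (tG b * (n / 120 : ℕ) * Real.log 2) = (2 : ℝ) ^ (tG b * (n / 120)) := by
    have : (tG b * (n / 120 : ℕ) * Real.log 2 : ℝ) =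
        ((tG b * (n / 120) : ℕ) : ℝ) * Real.log 2 := by
      push_cast; ring
    rw [this, Real.exp_nat_mul, Real.exp_log (by norm_num)]
  rw [e1, e2, e3]
  have e4 : (2 : ℝ) ^ (tG b * (n / 120)) ≠ 0 := by positivity
  rw [div_mul_cancel₀ _ e4]

theorem Pos_j {n b m j : ℕ} (hp : Pos n b m j) : j ≤ 240 := by
  rcases hp with ⟨hb, _, hj⟩ | ⟨_, _, hj⟩
  · have : 2 * (ho (b + 1) - ho b) ≤ 64 := by
      have hb' : b = 0 ∨ b = 1 ∨ b = 2 ∨ b = 3 ∨ b = 4 ∨ b = 5 ∨ b = 6 ∨ b = 7 ∨ b = 8 := by omega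
      rcases hb' with rfl | rfl | rfl | rfl | rfl | rfl | rfl | rfl | rfl <;> decide
    omega
  · omega

/-! ### The line -/

theorem Lin_eval (n : ℕ) (y : ℝ) : aeval (zn n y) (Lin n) = (y : ℂ) * Complex.I := by
  unfold Lin zn zl
  simp only [map_add, aeval_X, aeval_C, eq_ratCast]
  push_cast
  ring

theorem QL_norm {n N : ℕ} (hn : n / 120 = N) (hN : 1 ≤ N) (y : ℝ) (a : ℕ) :
    ‖aeval (zn n y) (QL n a)‖ ^ 2 =
      (120 * (N : ℝ)) ^ 4 * |(a : ℝ) / 100000 - (y / (120 * (N : ℝ))) ^ 2| ^ 2 := by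
  have hN' : (N : ℝ) ≠ 0 := by exact_mod_cast (by omega : N ≠ 0)
  have e : aeval (zn n y) (QL n a) =
      (((120 * (N : ℝ)) ^ 2 * ((a : ℝ) / 100000 - (y / (120 * (N : ℝ))) ^ 2) : ℝ) : ℂ) := by
    have e1 : QL n a = Lin n ^ 2 + C ((a : ℚ) / 100000 * (120 * (n / 120 : ℕ)) ^ 2) := rfl
    rw [e1, map_add, map_pow, Lin_eval, aeval_C, mul_pow, Complex.I_sq, hn]
    have e2 : (120 * (N : ℝ)) ^ 2 * ((a : ℝ) / 100000 - (y / (120 * (N : ℝ))) ^ 2) =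
        (a : ℝ) / 100000 * (120 * (N : ℝ)) ^ 2 - y ^ 2 := by
      field_simp
    rw [e2, eq_ratCast]
    push_cast
    ring
  rw [e, Complex.norm_real, Real.norm_eq_abs, abs_mul, mul_pow]
  congr 1
  rw [abs_of_nonneg (by positivity)]
  ring

theorem QP_norm {n N : ℕ} (hn : n / 120 = N) (hN : 120 ≤ N) (y : ℝ) {a : ℕ} (ha : 410 ≤ a) :
    ‖aeval (zn n y) (QP n a)‖ ^ 2 ≤
      (120 * (N : ℝ)) ^ 2 * (((a : ℝ) / 1200 - 1 / 3) ^ 2 + (y / (120 * (N : ℝ))) ^ 2) := by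
  obtain ⟨r, hr, hnr⟩ : ∃ r, r < 120 ∧ n = 120 * N + r := ⟨n % 120, Nat.mod_lt _ (by norm_num), by omega⟩
  have hN' : (N : ℝ) ≠ 0 := by exact_mod_cast (by omega : N ≠ 0)
  have hLL : (LL n : ℝ) = 160 * N + r := by
    have : LL n = 160 * N + r := by unfold LL; rw [hn]; omega
    rw [this]; push_cast; ring
  set u : ℝ := ((a : ℝ) / 10 - 40) * N - (r + 1 / 2) with hu
  have e : aeval (zn n y) (QP n a) = (u : ℂ) + (y : ℂ) * Complex.I := by
    unfold QP zn zl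
    simp only [map_add, aeval_X, aeval_C, eq_ratCast]
    rw [hn]
    have hLL' : ((LL n : ℕ) : ℂ) = 160 * (N : ℂ) + r := by exact_mod_cast hLL
    rw [hLL', hu]
    push_cast
    ring
  rw [e, Complex.sq_norm, Complex.normSq_add_mul_I]
  have h1 : (410 : ℝ) ≤ a := by exact_mod_cast ha
  have h2 : (120 : ℝ) ≤ N := by exact_mod_cast hN
  have h3 : (r : ℝ) ≤ 119 := by exact_mod_cast (by omega : r ≤ 119)
  have h4 : (0 : ℝ) ≤ r := Nat.cast_nonneg _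
  have h5 : 120 ≤ ((a : ℝ) / 10 - 40) * N := by nlinarith
  have h6 : u ^ 2 ≤ (((a : ℝ) / 10 - 40) * N) ^ 2 := by
    apply pow_le_pow_left₀
    · rw [hu]; linarith
    · rw [hu]; linarith
  have e3 : (120 * (N : ℝ)) ^ 2 * (((a : ℝ) / 1200 - 1 / 3) ^ 2 + (y / (120 * (N : ℝ))) ^ 2) =
      (((a : ℝ) / 10 - 40) * N) ^ 2 + y ^ 2 := by
    field_simp
    ring
  rw [e3]
  linarith

theorem prodLl {n N : ℕ} (hn : n / 120 = N) (hN : 1 ≤ N) (y : ℝ) (l : List ℕ) :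
    ‖aeval (zn n y) (l.map (QL n)).prod‖ ^ 2 =
      ((120 * (N : ℝ)) ^ 4) ^ l.length *
        (l.map fun a : ℕ => |(a : ℝ) / 100000 - (y / (120 * (N : ℝ))) ^ 2|).prod ^ 2 := by
  induction l with
  | nil => simp
  | cons a l ih =>
    rw [List.map_cons, List.prod_cons, map_mul, norm_mul, mul_pow, ih, QL_norm hn hN, List.map_cons,
      List.prod_cons, List.length_cons, pow_succ]
    ring

theorem prodPl {n N : ℕ} (hn : n / 120 = N) (hN : 120 ≤ N) (y : ℝ) (l : List ℕ) (hl : ∀ a ∈ l, 410 ≤ a) :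
    ‖aeval (zn n y) (l.map (QP n)).prod‖ ^ 2 ≤
      ((120 * (N : ℝ)) ^ 2) ^ l.length *
        (l.map fun a : ℕ => ((a : ℝ) / 1200 - 1 / 3) ^ 2 + (y / (120 * (N : ℝ))) ^ 2).prod := by
  induction l with
  | nil => simp
  | cons a l ih =>
    have h1 := QP_norm hn hN y (hl a (by simp))
    have h2 := ih (fun b hb => hl b (by simp [hb]))
    rw [List.map_cons, List.prod_cons, map_mul, norm_mul, mul_pow, List.map_cons,
      List.prod_cons, List.length_cons, pow_succ]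
    refine (mul_le_mul h1 h2 (by positivity) (by positivity)).trans (le_of_eq ?_)
    ring

theorem PT_ge {b : ℕ} (hb : b ≤ 9) : ∀ a ∈ PT b, 410 ≤ a := by
  have hb' : b = 0 ∨ b = 1 ∨ b = 2 ∨ b = 3 ∨ b = 4 ∨ b = 5 ∨ b = 6 ∨ b = 7 ∨ b = 8 ∨ b = 9 := by omega
  rcases hb' with rfl | rfl | rfl | rfl | rfl | rfl | rfl | rfl | rfl | rfl <;> decide

theorem FL_nonneg (b : ℕ) {v : ℝ} (hv : 0 ≤ v) : 0 ≤ FL b v := by
  unfold FL
  apply mul_nonneg (sq_nonneg _)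
  apply List.prod_nonneg
  intro z hz
  obtain ⟨w, _, rfl⟩ := List.mem_map.mp hz
  positivity

theorem SB_line {n N b : ℕ} (hn : n / 120 = N) (hN : 120 ≤ N) (hb : b ≤ 9) (y : ℝ) :
    ‖aeval (zn n y) (SB n b)‖ ^ 2 ≤ (120 * (N : ℝ)) ^ (4 * ho b) * FL b ((y / (120 * (N : ℝ))) ^ 2) := by
  unfold SB FL
  rw [map_mul, norm_mul, mul_pow, prodLl hn (by omega)]
  have h2 := prodPl hn hN y (PT b) (PT_ge hb)
  have e : (120 * (N : ℝ)) ^ (4 * ho b) =
      ((120 * (N : ℝ)) ^ 4) ^ (LT b).length * ((120 * (N : ℝ)) ^ 2) ^ (PT b).length := by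
    rw [← pow_mul, ← pow_mul, ← pow_add]
    congr 1
    have := ho_len hb
    omega
  rw [e]
  refine (mul_le_mul_of_nonneg_left h2 (by positivity)).trans (le_of_eq ?_)
  ring

theorem ypow {y : ℝ} {k : ℕ} (hk : k ≤ 240) : (1 + y ^ 2) * (y ^ 2) ^ k ≤ (1 + y ^ 2) ^ 250 := by
  have h9 : (1 : ℝ) ≤ 1 + y ^ 2 := by nlinarith [sq_nonneg y]
  have h10 : (y ^ 2) ^ k ≤ (1 + y ^ 2) ^ k := pow_le_pow_left₀ (sq_nonneg y) (by linarith) k
  calc (1 + y ^ 2) * (y ^ 2) ^ k ≤ (1 + y ^ 2) * (1 + y ^ 2) ^ k :=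
        mul_le_mul_of_nonneg_left h10 (by positivity)
    _ = (1 + y ^ 2) ^ (k + 1) := by rw [pow_succ]; ring
    _ ≤ (1 + y ^ 2) ^ 250 := pow_le_pow_right₀ h9 (by omega)

/-- the weight on the line -/
noncomputable def TW (n : ℕ) (y : ℝ) : ℝ :=
  NG n y * Real.exp (-(2 * Real.pi * |y|)) * (1 + y ^ 2) ^ 250

theorem TW_nonneg (n : ℕ) (y : ℝ) : 0 ≤ TW n y := by
  unfold TW
  exact mul_nonneg (mul_nonneg (NG_nonneg n y) (Real.exp_pos _).le) (pow_nonneg (by positivity) _)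

theorem line_corner {C : ℝ} {K : ℕ} (hC : 0 < C) {n N b : ℕ} (hn : n / 120 = N) (hN : 1000 ≤ N)
    (hb : b ≤ 9) (h3 : StG3) (y : ℝ)
    (h : NG n y * Real.exp (-(2 * Real.pi * |y|)) * (1 + y ^ 2) ^ 250 *
      FXp ((y / (120 * (N : ℝ))) ^ 2) ^ N ≤ C * (n : ℝ) ^ K * Real.exp (n * PhiG)) :
    TW n y * (‖aeval (zn n y) (SB n b)‖ ^ 2) ^ N ≤ Real.exp (la C K n b) := by
  have h0 : 1 ≤ n := by omega
  have hn120 : 120 * (N : ℝ) ≤ n := by exact_mod_cast (by omega : 120 * N ≤ n)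
  have hS := SB_line hn (by omega) hb y
  have hv : 0 ≤ (y / (120 * (N : ℝ))) ^ 2 := sq_nonneg _
  have h3' := h3 b hb _ hv
  have hla := exp_la hC K n b h0
  rw [hn] at hla
  have hT := TW_nonneg n y
  have hT' : TW n y * FXp ((y / (120 * (N : ℝ))) ^ 2) ^ N ≤ C * (n : ℝ) ^ K * Real.exp (n * PhiG) := h
  have hF := FL_nonneg b hv
  generalize (y / (120 * (N : ℝ))) ^ 2 = v at *
  have hpos : (0 : ℝ) < 2 ^ (tG b * N) := pow_pos (by norm_num) _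
  refine le_of_mul_le_mul_right ?_ hpos
  rw [hla]
  have h4 := pow_le_pow_left₀ (mul_nonneg (pow_nonneg (by norm_num) _) hF) h3' N
  rw [mul_pow, ← pow_mul] at h4
  have h5 : (‖aeval (zn n y) (SB n b)‖ ^ 2) ^ N ≤ (n : ℝ) ^ (4 * ho b * N) * FL b v ^ N := by
    calc (‖aeval (zn n y) (SB n b)‖ ^ 2) ^ N ≤ ((120 * (N : ℝ)) ^ (4 * ho b) * FL b v) ^ N :=
          pow_le_pow_left₀ (by positivity) hS N
      _ = (120 * (N : ℝ)) ^ (4 * ho b * N) * FL b v ^ N := by rw [mul_pow, ← pow_mul]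
      _ ≤ _ := mul_le_mul_of_nonneg_right (pow_le_pow_left₀ (by positivity) hn120 _) (pow_nonneg hF _)
  calc TW n y * (‖aeval (zn n y) (SB n b)‖ ^ 2) ^ N * 2 ^ (tG b * N)
      ≤ TW n y * ((n : ℝ) ^ (4 * ho b * N) * FL b v ^ N) * 2 ^ (tG b * N) :=
        mul_le_mul_of_nonneg_right (mul_le_mul_of_nonneg_left h5 hT) hpos.le
    _ = TW n y * (2 ^ (tG b * N) * FL b v ^ N) * (n : ℝ) ^ (4 * ho b * N) := by ring
    _ ≤ TW n y * FXp v ^ N * (n : ℝ) ^ (4 * ho b * N) := by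
        refine mul_le_mul_of_nonneg_right (mul_le_mul_of_nonneg_left h4 hT) (by positivity)
    _ ≤ _ := mul_le_mul_of_nonneg_right hT' (by positivity)

theorem G4b_of (h3 : StG3) : StG4b := by
  obtain ⟨C, K, hC, h⟩ := G1m
  refine ⟨C, K, hC, ?_⟩
  intro n hn b m j hp y
  obtain ⟨N, hNdef⟩ : ∃ N : ℕ, n / 120 = N := ⟨_, rfl⟩
  have hN : 1000 ≤ N := by omega
  have h1 := h n hn y
  rw [hNdef] at h1
  have hj := Pos_j hp
  have hT := TW_nonneg n y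
  have hN0 := mul_nonneg (NG_nonneg n y) (Real.exp_pos (-(2 * Real.pi * |y|))).le
  have e : ‖aeval (zn n y) (PA n b m j)‖ ^ 2 =
      ((‖aeval (zn n y) (SB n b)‖ ^ 2) ^ (N - m) * (‖aeval (zn n y) (SB n (b + 1))‖ ^ 2) ^ m) *
        (y ^ 2) ^ j := by
    unfold PA
    rw [map_mul, map_mul, norm_mul, norm_mul, mul_pow, mul_pow, map_pow, norm_pow, map_pow, norm_pow,
      map_pow, norm_pow, Lin_eval, norm_mul, Complex.norm_I, mul_one, Complex.norm_real,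
      Real.norm_eq_abs, hNdef, ← sq_abs y]
    ring
  rw [e]
  have h2 : NG n y * Real.exp (-(2 * Real.pi * |y|)) * (1 + y ^ 2) *
      (((‖aeval (zn n y) (SB n b)‖ ^ 2) ^ (N - m) * (‖aeval (zn n y) (SB n (b + 1))‖ ^ 2) ^ m) *
        (y ^ 2) ^ j) ≤ TW n y *
      ((‖aeval (zn n y) (SB n b)‖ ^ 2) ^ (N - m) * (‖aeval (zn n y) (SB n (b + 1))‖ ^ 2) ^ m) := by
    have h5 : 0 ≤ (‖aeval (zn n y) (SB n b)‖ ^ 2) ^ (N - m) *
      (‖aeval (zn n y) (SB n (b + 1))‖ ^ 2) ^ m := by positivity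
    generalize (‖aeval (zn n y) (SB n b)‖ ^ 2) ^ (N - m) *
      (‖aeval (zn n y) (SB n (b + 1))‖ ^ 2) ^ m = Z at *
    calc NG n y * Real.exp (-(2 * Real.pi * |y|)) * (1 + y ^ 2) * (Z * (y ^ 2) ^ j)
        = NG n y * Real.exp (-(2 * Real.pi * |y|)) * ((1 + y ^ 2) * (y ^ 2) ^ j) * Z := by ring
      _ ≤ NG n y * Real.exp (-(2 * Real.pi * |y|)) * (1 + y ^ 2) ^ 250 * Z :=
          mul_le_mul_of_nonneg_right (mul_le_mul_of_nonneg_left (ypow hj) hN0) h5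
      _ = _ := rfl
  refine h2.trans ?_
  rcases hp with ⟨hb, hm, _⟩ | ⟨rfl, rfl, _⟩
  · have c1 := line_corner hC hNdef hN (b := b) (by omega) h3 y h1
    have c2 := line_corner hC hNdef hN (b := b + 1) (by omega) h3 y h1
    have := interp hT (sq_nonneg _) (sq_nonneg _) (by omega : 0 < N) (by omega : m ≤ N) c1 c2
    unfold al
    rw [hNdef]
    exact this
  · have c1 := line_corner hC hNdef hN (b := 9) le_rfl h3 y h1
    rw [pow_zero, mul_one, Nat.sub_zero]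
    have e : al C K n 9 0 = la C K n 9 := by
      unfold al
      rw [Nat.cast_zero, zero_div, sub_zero, one_mul, zero_mul, add_zero]
    rw [e]
    exact c1

/-! ### The poles -/

/-- the constant factor -/
noncomputable def ccp (n : ℕ) : ℝ := (8 * (n : ℝ)) ^ 480 * (Real.exp (n * PhiG) / 2 ^ (UU * (n / 120)))

theorem ccp_pos {n : ℕ} (hn : 1 ≤ n) : 0 < ccp n := by
  have hn' : (0 : ℝ) < n := by exact_mod_cast hn
  unfold ccp
  exact mul_pos (pow_pos (by positivity) _) (div_pos (Real.exp_pos _) (pow_pos (by norm_num) _))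

theorem pole_corner' (hR2 : StR2) {n N k b : ℕ} (hNdef : n / 120 = N) (hn : 300000 ≤ n) (hb : b ≤ 9)
    (hk : k ∈ Finset.Icc (4 * n + 1) (8 * n)) :
    ccp n * ((RK n k : ℚ) : ℝ) * (|((((SB n b).eval (-(k : ℚ)) : ℚ)) : ℝ)| ^ 2) ^ N ≤
      Real.exp (la (75 * cmx * 8 ^ 480) 483 n b) := by
  have h0 : (0 : ℝ) < n := by exact_mod_cast (by omega : 0 < n)
  have hC : 0 < 75 * cmx * 8 ^ 480 := by
    have := cmx_one
    exact mul_pos (by linarith) (pow_pos (by norm_num) _)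
  have h1 := pole_corner hR2 hn hb hk
  have hla := exp_la hC 483 n b (by omega)
  rw [hNdef] at h1 hla
  have hpos : (0 : ℝ) < 2 ^ (tG b * N) := pow_pos (by norm_num) _
  refine le_of_mul_le_mul_right ?_ hpos
  rw [hla]
  have hcc := ccp_pos (n := n) (by omega)
  calc ccp n * ((RK n k : ℚ) : ℝ) * (|((((SB n b).eval (-(k : ℚ)) : ℚ)) : ℝ)| ^ 2) ^ N * 2 ^ (tG b * N)
      = ccp n * (((RK n k : ℚ) : ℝ) * (|((((SB n b).eval (-(k : ℚ)) : ℚ)) : ℝ)| ^ 2) ^ N *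
          2 ^ (tG b * N)) := by ring
    _ ≤ ccp n * (75 * cmx * (n : ℝ) ^ 3 * (n : ℝ) ^ (4 * ho b * N) * 2 ^ (UU * N)) :=
        mul_le_mul_of_nonneg_left h1 hcc.le
    _ = _ := by
        unfold ccp
        rw [hNdef, mul_pow, show (483 : ℕ) = 480 + 3 from rfl, pow_add (n : ℝ) 480 3]
        have e2 : (2 : ℝ) ^ (UU * N) ≠ 0 := (pow_pos (by norm_num) _).ne'
        generalize (2 : ℝ) ^ (UU * N) = u at *
        generalize (8 : ℝ) ^ 480 = w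
        generalize (n : ℝ) ^ 480 = w'
        field_simp

theorem G4c_of (hR2 : StR2) : StG4c := by
  refine ⟨75 * cmx * 8 ^ 480, 483, ?_, ?_⟩
  · have := cmx_one
    exact mul_pos (by linarith) (pow_pos (by norm_num) _)
  intro n hn b m j hp k hk
  obtain ⟨N, hNdef⟩ : ∃ N : ℕ, n / 120 = N := ⟨_, rfl⟩
  have hN : 1000 ≤ N := by omega
  have hj := Pos_j hp
  have h0 : (0 : ℝ) < n := by exact_mod_cast (by omega : 0 < n)
  have hkk := Finset.mem_Icc.1 hk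
  have hR : (0 : ℝ) ≤ ((RK n k : ℚ) : ℝ) := by exact_mod_cast (hR2 (by omega) hk).1
  have hcc := ccp_pos (n := n) (by omega)
  have hLin : |((((Lin n).eval (-(k : ℚ)) : ℚ)) : ℝ)| ≤ 8 * (n : ℝ) := by
    have e : ((((Lin n).eval (-(k : ℚ)) : ℚ)) : ℝ) = -(k : ℝ) + ((LL n : ℝ) + 1 / 2) := by
      unfold Lin
      simp only [eval_add, eval_X, eval_C]
      push_cast
      ring
    have hLL : LL n ≤ 2 * n := by unfold LL; omega
    have h1 : (LL n : ℝ) ≤ 2 * n := by exact_mod_cast hLL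
    have h2 : (k : ℝ) ≤ 8 * n := by exact_mod_cast hkk.2
    have h3 : 4 * (n : ℝ) + 1 ≤ k := by exact_mod_cast hkk.1
    have h4 : (0 : ℝ) ≤ LL n := Nat.cast_nonneg _
    rw [e, abs_le]
    constructor <;> linarith
  have hL : (|((((Lin n).eval (-(k : ℚ)) : ℚ)) : ℝ)| ^ 2) ^ j ≤ (8 * (n : ℝ)) ^ 480 := by
    have h1n : (1 : ℝ) ≤ 8 * (n : ℝ) := by
      have : (300000 : ℝ) ≤ n := by exact_mod_cast hn
      linarith
    rw [← pow_mul]
    exact (pow_le_pow_left₀ (abs_nonneg _) hLin _).trans (pow_le_pow_right₀ h1n (by omega))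
  have e : |((((PA n b m j).eval (-(k : ℚ)) : ℚ)) : ℝ)| ^ 2 =
      ((|((((SB n b).eval (-(k : ℚ)) : ℚ)) : ℝ)| ^ 2) ^ (N - m) *
        (|((((SB n (b + 1)).eval (-(k : ℚ)) : ℚ)) : ℝ)| ^ 2) ^ m) *
        (|((((Lin n).eval (-(k : ℚ)) : ℚ)) : ℝ)| ^ 2) ^ j := by
    unfold PA
    rw [eval_mul, eval_mul, eval_pow, eval_pow, eval_pow, Rat.cast_mul, Rat.cast_mul, Rat.cast_pow,
      Rat.cast_pow, Rat.cast_pow, abs_mul, abs_mul, abs_pow, abs_pow, abs_pow, hNdef]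
    ring
  rw [e]
  have hkey : ccp n * ((RK n k : ℚ) : ℝ) * ((|((((SB n b).eval (-(k : ℚ)) : ℚ)) : ℝ)| ^ 2) ^ (N - m) *
        (|((((SB n (b + 1)).eval (-(k : ℚ)) : ℚ)) : ℝ)| ^ 2) ^ m) ≤
      Real.exp (al (75 * cmx * 8 ^ 480) 483 n b m) := by
    have hT : 0 ≤ ccp n * ((RK n k : ℚ) : ℝ) := mul_nonneg hcc.le hR
    rcases hp with ⟨hb, hm, _⟩ | ⟨rfl, rfl, _⟩
    · have c1 := pole_corner' hR2 hNdef hn (b := b) (by omega) hk
      have c2 := pole_corner' hR2 hNdef hn (b := b + 1) (by omega) hk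
      have := interp hT (sq_nonneg _) (sq_nonneg _) (by omega : 0 < N) (by omega : m ≤ N) c1 c2
      unfold al
      rw [hNdef]
      exact this
    · have c1 := pole_corner' hR2 hNdef hn (b := 9) le_rfl hk
      rw [pow_zero, mul_one, Nat.sub_zero]
      have e : al (75 * cmx * 8 ^ 480) 483 n 9 0 = la (75 * cmx * 8 ^ 480) 483 n 9 := by
        unfold al
        rw [Nat.cast_zero, zero_div, sub_zero, one_mul, zero_mul, add_zero]
      rw [e]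
      exact c1
  have hZ : 0 ≤ (|((((SB n b).eval (-(k : ℚ)) : ℚ)) : ℝ)| ^ 2) ^ (N - m) *
        (|((((SB n (b + 1)).eval (-(k : ℚ)) : ℚ)) : ℝ)| ^ 2) ^ m := by positivity
  generalize (|((((SB n b).eval (-(k : ℚ)) : ℚ)) : ℝ)| ^ 2) ^ (N - m) *
        (|((((SB n (b + 1)).eval (-(k : ℚ)) : ℚ)) : ℝ)| ^ 2) ^ m = Z at *
  have hpU : (0 : ℝ) < 2 ^ (UU * (n / 120)) := pow_pos (by norm_num) _
  calc ((RK n k : ℚ) : ℝ) * (Z * (|((((Lin n).eval (-(k : ℚ)) : ℚ)) : ℝ)| ^ 2) ^ j)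
      ≤ ((RK n k : ℚ) : ℝ) * (Z * (8 * (n : ℝ)) ^ 480) :=
        mul_le_mul_of_nonneg_left (mul_le_mul_of_nonneg_left hL hZ) hR
    _ = (ccp n * ((RK n k : ℚ) : ℝ) * Z) * (Real.exp (-(n * PhiG)) * 2 ^ (UU * (n / 120))) := by
        unfold ccp
        rw [Real.exp_neg]
        have e3 : Real.exp (n * PhiG) ≠ 0 := (Real.exp_pos _).ne'
        generalize (8 * (n : ℝ)) ^ 480 = w
        generalize (2 : ℝ) ^ (UU * (n / 120)) = u at *
        have e4 : u ≠ 0 := hpU.ne'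
        field_simp
    _ ≤ _ := mul_le_mul_of_nonneg_right hkey (mul_nonneg (Real.exp_pos _).le hpU.le)

end Pool.Agent.TH250.Z3
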