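import Pool.Agent.TH250.Z3.Stm

set_option autoImplicit false

/-!
# The double residues and binomial coefficients
-/

open Polynomial Pool.Agent.H337R2
open Pool.Agent.TH817.Z3 (RK sF mF cF)

namespace Pool.Agent.TH250.Z3.R2x

theorem desc {k a : ℕ} (d : ℕ) (h : a + d < k) :
    (∏ j ∈ Finset.Icc (a + 1) (a + d), ((k : ℚ) - j)) * (((k - (a + d) - 1).factorial : ℕ) : ℚ) =
      (((k - a - 1).factorial : ℕ) : ℚ) := by
  induction d with
  | zero => simp
  | succ d ih =>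
    have ih' := ih (by omega)
    rw [← Nat.add_assoc, Finset.prod_Icc_succ_top (by omega)]
    have e : k - (a + d) - 1 = (k - (a + d + 1) - 1) + 1 := by omega
    rw [e, Nat.factorial_succ] at ih'
    have e2 : ((k : ℚ) - ((a + d + 1 : ℕ) : ℚ)) = (((k - (a + d + 1) - 1) + 1 : ℕ) : ℚ) := by
      rw [show (k - (a + d + 1) - 1) + 1 = k - (a + d + 1) by omega, Nat.cast_sub (by omega)]
    rw [e2, ← ih']
    push_cast
    ring

theorem desc' {k a b : ℕ} (hab : a ≤ b) (h : b < k) :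
    (∏ j ∈ Finset.Icc (a + 1) b, ((k : ℚ) - j)) * (((k - b - 1).factorial : ℕ) : ℚ) =
      (((k - a - 1).factorial : ℕ) : ℚ) := by
  obtain ⟨d, rfl⟩ := Nat.exists_eq_add_of_le hab
  exact desc d h

theorem asc {k : ℕ} (d : ℕ) :
    (∏ m ∈ Finset.Icc (k + 1) (k + d), |((m : ℚ) - k)|) = ((d.factorial : ℕ) : ℚ) := by
  induction d with
  | zero => simp
  | succ d ih =>
    rw [← Nat.add_assoc, Finset.prod_Icc_succ_top (by omega), ih, Nat.factorial_succ]
    have e : |(((k + d + 1 : ℕ) : ℚ) - k)| = ((d + 1 : ℕ) : ℚ) := by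
      have : (((k + d + 1 : ℕ) : ℚ) - k) = ((d + 1 : ℕ) : ℚ) := by push_cast; ring
      rw [this, Nat.abs_cast]
    rw [e]
    push_cast
    ring

theorem den {a b k : ℕ} (ha : a < k) (hb : k ≤ b) :
    (∏ m ∈ (Finset.Icc (a + 1) b).erase k, |((m : ℚ) - k)|) =
      (((k - a - 1).factorial : ℕ) : ℚ) * (((b - k).factorial : ℕ) : ℚ) := by
  have e : (Finset.Icc (a + 1) b).erase k = Finset.Icc (a + 1) (k - 1) ∪ Finset.Icc (k + 1) b := by
    ext m
    simp only [Finset.mem_erase, Finset.mem_Icc, Finset.mem_union]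
    omega
  have hd : Disjoint (Finset.Icc (a + 1) (k - 1)) (Finset.Icc (k + 1) b) := by
    rw [Finset.disjoint_left]
    intro m hm hm'
    rw [Finset.mem_Icc] at hm hm'
    omega
  rw [e, Finset.prod_union hd]
  congr 1
  · have h1 := desc' (k := k) (a := a) (b := k - 1) (by omega) (by omega)
    rw [show k - (k - 1) - 1 = 0 by omega, Nat.factorial_zero, Nat.cast_one, mul_one] at h1
    rw [← h1]
    apply Finset.prod_congr rfl
    intro m hm
    rw [Finset.mem_Icc] at hm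
    rw [abs_sub_comm, abs_of_nonneg]
    rw [sub_nonneg]
    exact_mod_cast (by omega : m ≤ k)
  · obtain ⟨d, rfl⟩ := Nat.exists_eq_add_of_le hb
    rw [asc, Nat.add_sub_cancel_left]

theorem split {n k : ℕ} :
    (∏ m ∈ (sF n).erase k, |(m : ℚ) - k| ^ mF n m) =
      (∏ m ∈ (Finset.Icc (7 * n / 2 + 1) (8 * n)).erase k, |((m : ℚ) - k)|) *
        ∏ m ∈ (Finset.Icc (4 * n + 1) (17 * n / 2)).erase k, |((m : ℚ) - k)| := by
  have h1 : ∀ m ∈ (sF n).erase k, |(m : ℚ) - k| ^ mF n m =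
      (if m ≤ 8 * n then |(m : ℚ) - k| else 1) * (if 4 * n < m then |(m : ℚ) - k| else 1) := by
    intro m _
    unfold mF
    rw [pow_add]
    congr 1
    · split_ifs <;> simp
    · split_ifs <;> simp
  rw [Finset.prod_congr rfl h1, Finset.prod_mul_distrib, ← Finset.prod_filter, ← Finset.prod_filter]
  congr 1
  · apply Finset.prod_congr _ (fun _ _ => rfl)
    ext m
    simp only [Finset.mem_filter, Finset.mem_erase, Finset.mem_Icc]
    omega
  · apply Finset.prod_congr _ (fun _ _ => rfl)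
    ext m
    simp only [Finset.mem_filter, Finset.mem_erase, Finset.mem_Icc]
    omega

theorem alg {A D B E A' X1 X2 X3 X4 C1 C2 C3 C4 P1 P2 w n3 f1 f2 f3 f4 : ℚ}
    (hB : 0 < B) (hE : 0 < E) (hA' : 0 < A') (h1 : 0 < f1) (h2 : 0 < f2) (h3 : 0 < f3) (_ : 0 < f4)
    (h5 : 0 < X4) (hA : A = w * A') (hC : 0 ≤ C1 * C2 * (C3 * C4))
    (e1 : C1 * D * f1 = X1) (e2 : C2 * B * f2 = X2) (e3 : C3 * (f2 * f3) = E) (e4 : C4 * (X3 * X4) = A')
    (p1 : P1 * f1 = X1) (p2 : P2 * f2 = X2) (hX3 : 0 < X3)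
    (hb : w * (A * D) ≤ n3 * (B * E)) (_ : f4 = f3) :
    A ^ 2 / B ^ 2 * (P1 * P2) / ((f2 * f3) * (X3 * X4)) ≤ n3 * (C1 * C2 * (C3 * C4)) := by
  have q1 : P1 = C1 * D := by
    apply mul_right_cancel₀ h1.ne'
    rw [p1, e1]
  have q2 : P2 = C2 * B := by
    apply mul_right_cancel₀ h2.ne'
    rw [p2, e2]
  have e : A ^ 2 / B ^ 2 * (P1 * P2) / ((f2 * f3) * (X3 * X4)) =
      (w * (A * D)) / (B * E) * (C1 * C2 * (C3 * C4)) := by
    have hC3 : C3 ≠ 0 := by
      rintro rfl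
      rw [zero_mul] at e3
      exact hE.ne' e3.symm
    have hC4 : C4 ≠ 0 := by
      rintro rfl
      rw [zero_mul] at e4
      exact hA'.ne' e4.symm
    have g1 : f2 * f3 = E / C3 := by rw [← e3]; field_simp
    have g2 : X3 * X4 = A' / C4 := by rw [← e4]; field_simp
    rw [g1, g2, q1, q2, hA]
    field_simp
  rw [e]
  refine mul_le_mul_of_nonneg_right ?_ hC
  rw [div_le_iff₀ (by positivity)]
  exact hb

theorem RK_nonneg {n k : ℕ} (hk : k ∈ Finset.Icc (4 * n + 1) (8 * n)) : 0 ≤ RK n k := by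
  rw [Finset.mem_Icc] at hk
  unfold RK cF
  apply div_nonneg
  · apply mul_nonneg
    · positivity
    · apply mul_nonneg
      · apply Finset.prod_nonneg
        intro j hj
        rw [Finset.mem_Icc] at hj
        rw [sub_nonneg]
        exact_mod_cast (by omega : j ≤ k)
      · apply Finset.prod_nonneg
        intro j hj
        rw [Finset.mem_Icc] at hj
        rw [sub_nonneg]
        exact_mod_cast (by omega : j ≤ k)
  · apply Finset.prod_nonneg
    intro m _
    positivity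

theorem ratio {n : ℕ} (hn : 1 ≤ n) :
    (9 * n / 2) * ((9 * n / 2).factorial * (3 * n - n / 2).factorial) ≤
      75 * n ^ 3 * ((5 * n / 2).factorial * (8 * n - 7 * n / 2 - 1).factorial) := by
  obtain ⟨h, hh⟩ : ∃ h, n / 2 = h := ⟨_, rfl⟩
  rcases (by omega : n = 2 * h ∨ n = 2 * h + 1) with rfl | rfl
  · have e1 : 9 * (2 * h) / 2 = 9 * h := by omega
    have e2 : 3 * (2 * h) - 2 * h / 2 = 5 * h := by omega
    have e3 : 5 * (2 * h) / 2 = 5 * h := by omega
    have e4 : 8 * (2 * h) - 7 * (2 * h) / 2 - 1 = 9 * h - 1 := by omega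
    rw [e1, e2, e3, e4, ← Nat.mul_factorial_pred (by omega : 9 * h ≠ 0)]
    have : 9 * h * (9 * h * (9 * h - 1).factorial * (5 * h).factorial) =
        81 * h ^ 2 * ((5 * h).factorial * (9 * h - 1).factorial) := by ring
    rw [this]
    apply Nat.mul_le_mul_right
    have : h ^ 2 ≤ h ^ 3 := Nat.pow_le_pow_right (by omega) (by norm_num)
    have e5 : 75 * (2 * h) ^ 3 = 600 * h ^ 3 := by ring
    omega
  · have e1 : 9 * (2 * h + 1) / 2 = 9 * h + 4 := by omega
    have e2 : 3 * (2 * h + 1) - (2 * h + 1) / 2 = (5 * h + 2) + 1 := by omega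
    have e3 : 5 * (2 * h + 1) / 2 = 5 * h + 2 := by omega
    have e4 : 8 * (2 * h + 1) - 7 * (2 * h + 1) / 2 - 1 = 9 * h + 4 := by omega
    rw [e1, e2, e3, e4, Nat.factorial_succ (5 * h + 2)]
    have : (9 * h + 4) * ((9 * h + 4).factorial * ((5 * h + 2 + 1) * (5 * h + 2).factorial)) =
        (9 * h + 4) * (5 * h + 3) * ((5 * h + 2).factorial * (9 * h + 4).factorial) := by ring
    rw [this]
    apply Nat.mul_le_mul_right
    have e6 : 75 * (2 * h + 1) ^ 3 = 600 * h ^ 3 + 900 * h ^ 2 + 450 * h + 75 := by ring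
    have e7 : (9 * h + 4) * (5 * h + 3) = 45 * h ^ 2 + 47 * h + 12 := by ring
    rw [e6, e7]
    linarith [Nat.zero_le (h ^ 3), Nat.zero_le (h ^ 2), Nat.zero_le h]

theorem R2 : StR2 := by
  intro n k hn hk
  refine ⟨RK_nonneg hk, ?_⟩
  rw [Finset.mem_Icc] at hk
  have hr := ratio hn
  have hr' : (((9 * n / 2 : ℕ)) : ℚ) * ((((9 * n / 2).factorial : ℕ) : ℚ) * (((3 * n - n / 2).factorial : ℕ) : ℚ)) ≤
      75 * (n : ℚ) ^ 3 * ((((5 * n / 2).factorial : ℕ) : ℚ) * (((8 * n - 7 * n / 2 - 1).factorial : ℕ) : ℚ)) := by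
    exact_mod_cast hr
  have hp : ∀ m : ℕ, (0 : ℚ) < ((m.factorial : ℕ) : ℚ) := fun m => by exact_mod_cast m.factorial_pos
  have c1 := Nat.choose_mul_factorial_mul_factorial (n := k - n / 2 - 1) (k := 3 * n - n / 2) (by omega)
  have c2 := Nat.choose_mul_factorial_mul_factorial (n := k - n - 1) (k := 7 * n / 2 - n) (by omega)
  have c3 := Nat.choose_mul_factorial_mul_factorial (n := 8 * n - 7 * n / 2 - 1) (k := k - 7 * n / 2 - 1) (by omega)
  have c4 := Nat.choose_mul_factorial_mul_factorial (n := 17 * n / 2 - 4 * n - 1) (k := k - 4 * n - 1) (by omega)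
  rw [show k - n / 2 - 1 - (3 * n - n / 2) = k - 3 * n - 1 by omega] at c1
  rw [show k - n - 1 - (7 * n / 2 - n) = k - 7 * n / 2 - 1 by omega,
    show 7 * n / 2 - n = 5 * n / 2 by omega] at c2
  rw [show 8 * n - 7 * n / 2 - 1 - (k - 7 * n / 2 - 1) = 8 * n - k by omega] at c3
  rw [show 17 * n / 2 - 4 * n - 1 - (k - 4 * n - 1) = 17 * n / 2 - k by omega,
    show 17 * n / 2 - 4 * n - 1 = 9 * n / 2 - 1 by omega] at c4
  rw [show 7 * n / 2 - n = 5 * n / 2 by omega, show 17 * n / 2 - 4 * n - 1 = 9 * n / 2 - 1 by omega]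
  have p1 := desc' (k := k) (a := n / 2) (b := 3 * n) (by omega) (by omega)
  have p2 := desc' (k := k) (a := n) (b := 7 * n / 2) (by omega) (by omega)
  have d1 := den (a := 7 * n / 2) (b := 8 * n) (k := k) (by omega) (by omega)
  have d2 := den (a := 4 * n) (b := 17 * n / 2) (k := k) (by omega) (by omega)
  have hA := Nat.mul_factorial_pred (by omega : 9 * n / 2 ≠ 0)
  unfold RK
  rw [split, d1, d2]
  unfold cF
  rw [Nat.cast_pow, Nat.cast_pow]
  refine alg (A' := (((9 * n / 2 - 1).factorial : ℕ) : ℚ)) (w := ((9 * n / 2 : ℕ) : ℚ))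
    (E := (((8 * n - 7 * n / 2 - 1).factorial : ℕ) : ℚ))
    (D := (((3 * n - n / 2).factorial : ℕ) : ℚ)) (hp _) (hp _) (hp _) (hp (k - 3 * n - 1)) (hp _) (hp _)
    (hp (8 * n - k)) (hp _) ?_ (by positivity) ?_ ?_ ?_ ?_ p1 p2 (hp _) hr' rfl
  · exact_mod_cast hA.symm
  · exact_mod_cast c1
  · exact_mod_cast c2
  · rw [← mul_assoc]; exact_mod_cast c3
  · rw [← mul_assoc]; exact_mod_cast c4

end Pool.Agent.TH250.Z3.R2x
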