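import Pool.Agent.TH250.Z3.G3
import Pool.Agent.TH250.Z3.G4
import Pool.Agent.TH250.Z3.AM
import Pool.Agent.TH902.Z3.B1
import Pool.Agent.TH81.Z3.R1
import Pool.Agent.TH480.Z3.B3
import Pool.Agent.TH75.Z3.G4a
import Pool.Agent.TH511.Z3.G4e
import Pool.Agent.TH999.Z3.G56
import Pool.Agent.TH250.Z3.R2

/-!
# The total archimedean bound
-/

namespace Pool.Agent.TH250.Z3

/-- the archimedean part, from the binomial form of the double residues -/
theorem AM_pre (hR2 : StR2) : StAM :=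
  AMx.AM_of Pool.Agent.TH999.Z3.G5 Pool.Agent.TH999.Z3.G6
    (Pool.Agent.TH480.Z3.B3_of Pool.Agent.TH902.Z3B1.B1 Pool.Agent.TH81.Z3.R1)
    Pool.Agent.TH75.Z3.G4a (G4b_of G3) (G4c_of hR2) Pool.Agent.TH75.Z3.G4d Pool.Agent.TH511.Z3.G4e

/-- **the archimedean part** -/
theorem AM : StAM := AM_pre R2x.R2

end Pool.Agent.TH250.Z3
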