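import Pool.Agent.TH250.Z3.Base

/-!
# Irrationality exponent of `ζ(3)`, second design: statements of the archimedean part
-/

open Polynomial Pool.Agent.H337R2 Filter Topology
open Pool.Agent.TH817.Z3

namespace Pool.Agent.TH250.Z3

/-! ### B. the linear form as an integral, and the sum of the residues -/

/-- B1: the sum over `t ≥ -LL n` (shifted to `t ≥ 0`) -/
def StB1 : Prop := ∀ {n : ℕ}, 1 ≤ n → ∀ (x : ℚ) (Q : ℚ[X]), Q.natDegree ≤ 4 * n - 2 →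
  ∃ F : ℝ, HasSum (fun t : ℕ => ((PowerSeries.coeff 1 (RS
      (Finset.Icc (7 * n / 2 + 1 - LL n) (17 * n / 2 - LL n)) (fun k => mF n (k + LL n))
      ((PF n * Q).comp (X - C (LL n : ℚ))) (t : ℚ)) : ℚ) : ℝ)) F ∧
    ((NL n x Q : ℚ) : ℝ) = -F + 2 * ((x : ℝ) - zr 3) * ((rho n (PF n * Q) : ℚ) : ℝ)

/-- R1: the sum of the double residues -/
def StR1 : Prop := ∀ {n : ℕ}, 1 ≤ n → ∀ Q : ℚ[X],
  |rho n (PF n * Q)| ≤ ∑ k ∈ Finset.Icc (4 * n + 1) (8 * n), RK n k * |Q.eval (-(k : ℚ))|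

/-- B3: archimedean bound of the linear form -/
def StB3 : Prop := ∃ C : ℝ, 0 < C ∧ ∀ n : ℕ, 1 ≤ n → ∀ x : ℚ, ∀ Q : ℚ[X], Q.natDegree ≤ 4 * n - 2 →
  ∀ B : ℝ, (∀ y : ℝ, NG n y * ‖aeval (zn n y) Q‖ * Real.exp (-(2 * Real.pi * |y|)) ≤ B * (1 + y ^ 2)⁻¹) →
  |((NL n x Q : ℚ) : ℝ)| ≤ C * B + 2 * |(x : ℝ) - zr 3| *
    ∑ k ∈ Finset.Icc (4 * n + 1) (8 * n), ((RK n k : ℚ) : ℝ) * |((Q.eval (-(k : ℚ)) : ℚ) : ℝ)|

/-- R2: the double residues and binomial coefficients -/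
def StR2 : Prop := ∀ {n k : ℕ}, 1 ≤ n → k ∈ Finset.Icc (4 * n + 1) (8 * n) → 0 ≤ RK n k ∧
  RK n k ≤ 75 * (n : ℚ) ^ 3 *
    ((((k - n / 2 - 1).choose (3 * n - n / 2) : ℕ) : ℚ) *
      (((k - n - 1).choose (7 * n / 2 - n) : ℕ) : ℚ) *
      ((((8 * n - 7 * n / 2 - 1).choose (k - 7 * n / 2 - 1) : ℕ) : ℚ) *
        (((17 * n / 2 - 4 * n - 1).choose (k - 4 * n - 1) : ℕ) : ℚ)))

/-! ### G. the basis -/

/-- degrees of the basis -/
def StG4a : Prop := ∀ {n b m j : ℕ}, Pos n b m j →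
  (PA n b m j).Monic ∧ (PA n b m j).natDegree = dg n b m j

/-- bound of the basis on the line -/
def StG4b : Prop := ∃ (C : ℝ) (K : ℕ), 0 < C ∧ ∀ n : ℕ, 120000 ≤ n → ∀ {b m j : ℕ}, Pos n b m j → ∀ y : ℝ,
  NG n y * Real.exp (-(2 * Real.pi * |y|)) * (1 + y ^ 2) * ‖aeval (zn n y) (PA n b m j)‖ ^ 2 ≤
    Real.exp (al C K n b m)

/-- bound of the basis at the poles -/
def StG4c : Prop := ∃ (C : ℝ) (K : ℕ), 0 < C ∧ ∀ n : ℕ, 300000 ≤ n → ∀ {b m j : ℕ}, Pos n b m j →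
  ∀ k ∈ Finset.Icc (4 * n + 1) (8 * n),
  ((RK n k : ℚ) : ℝ) * |(((PA n b m j).eval (-(k : ℚ)) : ℚ) : ℝ)| ^ 2 ≤
    Real.exp (al C K n b m) * (Real.exp (-(n * PhiG)) * 2 ^ (UU * (n / 120)))

/-- enumeration of the positions -/
noncomputable def loc (n i : ℕ) : ℕ × ℕ × ℕ :=
  if i < 12 * (n / 120) then (0, i / 12, i % 12) else
  if i < 32 * (n / 120) then (1, (i - 12 * (n / 120)) / 20, (i - 12 * (n / 120)) % 20) else
  if i < 54 * (n / 120) then (2, (i - 32 * (n / 120)) / 22, (i - 32 * (n / 120)) % 22) else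
  if i < 72 * (n / 120) then (3, (i - 54 * (n / 120)) / 18, (i - 54 * (n / 120)) % 18) else
  if i < 96 * (n / 120) then (4, (i - 72 * (n / 120)) / 24, (i - 72 * (n / 120)) % 24) else
  if i < 116 * (n / 120) then (5, (i - 96 * (n / 120)) / 20, (i - 96 * (n / 120)) % 20) else
  if i < 138 * (n / 120) then (6, (i - 116 * (n / 120)) / 22, (i - 116 * (n / 120)) % 22) else
  if i < 176 * (n / 120) then (7, (i - 138 * (n / 120)) / 38, (i - 138 * (n / 120)) % 38) else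
  if i < 240 * (n / 120) then (8, (i - 176 * (n / 120)) / 64, (i - 176 * (n / 120)) % 64) else
  (9, 0, i - 240 * (n / 120))

/-- the positions have the right degrees -/
def StG4d : Prop := ∀ {n i : ℕ}, 120 ≤ n → i < 2 * n →
  Pos n (loc n i).1 (loc n i).2.1 (loc n i).2.2 ∧ dg n (loc n i).1 (loc n i).2.1 (loc n i).2.2 = i

/-- the sum of the exponents -/
def StG4e : Prop := ∀ (C : ℝ) (K : ℕ), 0 < C → ∀ ε : ℝ, 0 < ε → ∀ᶠ n : ℕ in atTop,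
  ∑ i ∈ Finset.range (2 * n), al C K n (loc n i).1 (loc n i).2.1 ≤
    4 * (n : ℝ) ^ 2 * Real.log n + (2 * PhiG - 74428 / 14400 * Real.log 2 + ε) * (n : ℝ) ^ 2

/-- numerical value of the rate; `2 Φ - (74428/14400) log 2 = -26.59716` -/
def StG5 : Prop := 2 * PhiG - 74428 / 14400 * Real.log 2 ≤ -(26597 / 1000)

/-- the closeness constant; `UU / 120 · log 2 - Φ = 31.07713` -/
def StG6 : Prop := (UU : ℝ) / 120 * Real.log 2 - PhiG ≤ 31078 / 1000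

/-- total archimedean bound -/
def StAM : Prop := ∀ᶠ n : ℕ in atTop, ∀ x : ℚ,
  |(x : ℝ) - zr 3| ≤ Real.exp (-(31078 / 1000 * n)) → DET n x (2 * n) ≠ 0 →
  Real.log |((DET n x (2 * n) : ℚ) : ℝ)| ≤ 4 * (n : ℝ) ^ 2 * Real.log n - 26596 / 1000 * (n : ℝ) ^ 2

end Pool.Agent.TH250.Z3
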