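import Pool.Agent.TH817.Z3.Defs

/-!
# Irrationality exponent of `ζ(3)`, second design: archimedean part, definitions

Two-phase choice of the basis: the polynomials have zeros on the line `Re t = -(LL n + 1/2)`,
`LL n = n + 40 ⌊n/120⌋`, and real zeros near the double poles.
-/

open Polynomial Pool.Agent.H337R2

namespace Pool.Agent.TH250.Z3

noncomputable section

/-- the abscissa of the line is `-(LL n + 1/2)` -/
def LL (n : ℕ) : ℕ := n + 40 * (n / 120)

/-- the point `-(LL n + 1/2) + i y` of the line -/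
def zn (n : ℕ) (y : ℝ) : ℂ := zl y - (LL n : ℂ)

/-- the products of the distances -/
def GG (y : ℝ) (a b : ℕ) : ℝ := ∏ m ∈ Finset.Ioc a b, ‖zl y + (m : ℂ)‖

/-- `|R|` on the line -/
def NG (n : ℕ) (y : ℝ) : ℝ :=
  (((9 * n / 2).factorial : ℕ) : ℝ) ^ 2 / (((5 * n / 2).factorial : ℕ) : ℝ) ^ 2 *
    ((GG y 0 (LL n - n / 2) * GG y 0 (3 * n - LL n)) * (GG y 0 (LL n - n) * GG y 0 (7 * n / 2 - LL n))) /
    (GG y (7 * n / 2 - LL n) (8 * n - LL n) * GG y (4 * n - LL n) (17 * n / 2 - LL n))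

/-- squares of the ordinates of the nodes on the line, in units `(120 ⌊n/120⌋)² / 10^5`, at the stage `b` -/
def LT : ℕ → List ℕ
  | 0 => []
  | 1 => [30, 274, 784, 1608, 2859, 4843]
  | 2 => [12, 106, 297, 586, 978, 1478, 2094, 2838, 3722, 4764, 5991, 7438, 9160, 11245, 13869, 17489]
  | 3 => [7, 65, 181, 356, 591, 887, 1246, 1671, 2163, 2725, 3362, 4077, 4876, 5764, 6748, 7836, 9039, 10366,
     11835, 13462, 15273, 17300, 19588, 22208, 25272, 29004, 33987]
  | 4 => [6, 50, 139, 273, 452, 678, 950, 1270, 1639, 2058, 2529, 3054, 3635, 4273, 4972, 5734, 6562, 7461,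
     8433, 9484, 10619, 11843, 13164, 14590, 16129, 17795, 19599, 21559, 23697, 26040, 28626, 31508,
     34764, 38528, 43055, 49025]
  | 5 => [4, 39, 107, 210, 348, 521, 729, 973, 1253, 1571, 1926, 2320, 2754, 3228, 3743, 4302, 4904, 5552,
     6247, 6991, 7785, 8631, 9532, 10491, 11508, 12589, 13734, 14949, 16236, 17600, 19046, 20578, 22204,
     23930, 25763, 27714, 29793, 32014, 34391, 36946, 39701, 42691, 45957, 49563, 53599, 58221, 63728,
     70916]
  | 6 => [4, 33, 90, 177, 293, 439, 614, 819, 1055, 1321, 1618, 1947, 2308, 2702, 3130, 3591, 4088, 4620,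
     5189, 5796, 6441, 7126, 7852, 8620, 9432, 10289, 11192, 12143, 13144, 14196, 15303, 16466, 17687,
     18969, 20316, 21729, 23213, 24771, 26408, 28128, 29936, 31839, 33842, 35955, 38184, 40542, 43039,
     45691, 48514, 51531, 54769, 58264, 62063, 66236, 70885, 76182, 82460, 90610]
  | 7 => [3, 29, 82, 160, 265, 397, 555, 741, 953, 1193, 1461, 1757, 2082, 2436, 2820, 3233, 3678, 4154, 4661,
     5202, 5776, 6384, 7027, 7707, 8423, 9177, 9970, 10803, 11678, 12595, 13556, 14562, 15615, 16717,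
     17870, 19074, 20333, 21649, 23023, 24458, 25958, 27526, 29163, 30875, 32666, 34539, 36500, 38554,
     40708, 42969, 45344, 47844, 50479, 53262, 56208, 59337, 62671, 66240, 70082, 74249, 78813, 83885,
     89649, 96462, 105280]
  | 8 => [3, 26, 71, 140, 232, 347, 485, 646, 831, 1040, 1273, 1531, 1812, 2119, 2451, 2809, 3193, 3603, 4040,
     4504, 4996, 5517, 6066, 6645, 7254, 7894, 8565, 9268, 10004, 10774, 11579, 12418, 13294, 14207,
     15159, 16149, 17180, 18253, 19368, 20528, 21733, 22985, 24286, 25637, 27041, 28498, 30012, 31584,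
     33217, 34914, 36677, 38509, 40413, 42394, 44455, 46601, 48837, 51167, 53599, 56138, 58794, 61574,
     64489, 67551, 70775, 74177, 77777, 81602, 85683, 90063, 94798, 99969, 105698, 112187, 119832, 129690]
  | _ => [2, 21, 60, 117, 194, 289, 405, 539, 693, 867, 1061, 1274, 1508, 1762, 2037, 2333, 2649, 2987, 3347,
     3728, 4131, 4557, 5006, 5478, 5973, 6492, 7035, 7603, 8196, 8814, 9459, 10130, 10827, 11552, 12305,
     13087, 13897, 14737, 15608, 16509, 17442, 18407, 19406, 20438, 21504, 22606, 23744, 24920, 26133,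
     27386, 28679, 30013, 31389, 32809, 34274, 35785, 37344, 38952, 40611, 42322, 44088, 45910, 47790,
     49731, 51734, 53803, 55940, 58148, 60431, 62791, 65233, 67761, 70379, 73092, 75906, 78827, 81863,
     85020, 88308, 91738, 95320, 99069, 103001, 107135, 111495, 116110, 121018, 126266, 131920, 138073,
     144866, 152531, 161528, 173077]

/-- real nodes, in units `⌊n/120⌋ / 10`, at the stage `b` -/
def PT : ℕ → List ℕ
  | 0 => []
  | 1 => []
  | 2 => []
  | 3 => []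
  | 4 => []
  | 5 => []
  | 6 => []
  | 7 => [6627, 6728, 6813, 6894, 6972, 7051, 7134, 7231]
  | 8 => [6340, 6420, 6486, 6546, 6601, 6653, 6703, 6752, 6799, 6845, 6891, 6936, 6981, 7026, 7071, 7117,
     7163, 7209, 7257, 7307, 7358, 7414, 7475, 7548]
  | _ => [6044, 6113, 6170, 6220, 6266, 6310, 6351, 6391, 6429, 6466, 6502, 6537, 6572, 6605, 6639, 6672,
     6704, 6736, 6768, 6799, 6830, 6861, 6892, 6922, 6953, 6983, 7013, 7043, 7073, 7103, 7134, 7164,
     7194, 7224, 7254, 7285, 7315, 7346, 7378, 7409, 7441, 7473, 7506, 7539, 7574, 7609, 7645, 7683,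
     7723, 7766, 7814, 7872]

/-- half the degree of the stage polynomial -/
def ho : ℕ → ℕ
  | 0 => 0
  | 1 => 6
  | 2 => 16
  | 3 => 27
  | 4 => 36
  | 5 => 48
  | 6 => 58
  | 7 => 69
  | 8 => 88
  | _ => 120

/-- the binary exponents at the stages -/
def tG : ℕ → ℕ
  | 0 => 0
  | 1 => 85
  | 2 => 182
  | 3 => 264
  | 4 => 319
  | 5 => 381
  | 6 => 424
  | 7 => 411
  | 8 => 369
  | _ => 276

/-- the factors `(c, e)` of the comparison product `∏ (1 + v/c²)^e` (unit `⌊n/120⌋`) -/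
def FXG : List (ℚ × ℕ) :=
  [(17 / 6, 120), (19 / 6, 120), (7 / 2, 120), (23 / 6, 120), (3 / 8, 5), (11 / 24, 5), (13 / 24, 5),
   (5 / 8, 5), (17 / 24, 5), (19 / 24, 5), (11 / 12, 20), (13 / 12, 20), (5 / 4, 20), (17 / 12, 20),
   (19 / 12, 20), (7 / 4, 30), (23 / 12, 30), (25 / 12, 30), (9 / 4, 50), (29 / 12, 50), (31 / 12, 50),
   (25 / 6, 120), (9 / 2, 120), (59 / 12, 180), (65 / 12, 180), (71 / 12, 180), (77 / 12, 180), (83 / 12, 150),
   (91 / 12, 200), (17 / 2, 240), (19 / 2, 240), (32 / 3, 320), (73 / 6, 400), (14, 480), (65 / 4, 600),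
   (19, 720), (90 / 4, 960), (54 / 2, 1200), (66 / 2, 1600), (412 / 10, 2400), (212 / 4, 3200), (696 / 10, 4800),
   (190 / 2, 7200), (270 / 2, 12000), (2020 / 10, 20000), (1590 / 5, 36000), (5460 / 10, 72000), (9960 / 10, 144000), (9480 / 5, 288000)]

/-- comparison product -/
def FXp (v : ℝ) : ℝ := (FXG.map fun x => (1 + v / (x.1 : ℝ) ^ 2) ^ x.2).prod

/-- the exponential rate of `R` at the real point of the line -/
def PhiG : ℝ := 2 * xl (9 / 2) - 2 * xl (5 / 2) + xl (5 / 6) + xl (5 / 3) + xl (1 / 3) + 2 * xl (13 / 6) +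
  xl (8 / 3) - xl (20 / 3) - xl (43 / 6)

/-- the linear polynomial `X + LL n + 1/2` -/
def Lin (n : ℕ) : ℚ[X] := X + C ((LL n : ℚ) + 1 / 2)

/-- the node polynomials for the line -/
def QL (n a : ℕ) : ℚ[X] := Lin n ^ 2 + C ((a : ℚ) / 100000 * (120 * (n / 120 : ℕ)) ^ 2)

/-- the real node polynomials -/
def QP (n a : ℕ) : ℚ[X] := X + C ((120 + (a : ℚ) / 10) * (n / 120 : ℕ))

/-- the stage polynomials (their `⌊n/120⌋`-th powers are used) -/
def SB (n b : ℕ) : ℚ[X] := ((LT b).map (QL n)).prod * ((PT b).map (QP n)).prod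

/-- the basis: `b < 9`, `m < n / 120`, `j < 2 (ho (b+1) - ho b)`, or `b = 9`, `m = 0`,
`j < 2 n - 240 (n/120)` -/
def PA (n b m j : ℕ) : ℚ[X] := SB n b ^ (n / 120 - m) * SB n (b + 1) ^ m * Lin n ^ j

/-- valid positions -/
def Pos (n b m j : ℕ) : Prop :=
  (b < 9 ∧ m < n / 120 ∧ j < 2 * (ho (b + 1) - ho b)) ∨ (b = 9 ∧ m = 0 ∧ j < 2 * n - 240 * (n / 120))

/-- the degree at a position -/
def dg (n b m j : ℕ) : ℕ := 2 * ho b * (n / 120) + 2 * (ho (b + 1) - ho b) * m + j

/-- logarithm of the corner bound at the stage `b` -/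
def la (C : ℝ) (K n b : ℕ) : ℝ :=
  Real.log C + K * Real.log n + n * PhiG + 4 * ho b * (n / 120 : ℕ) * Real.log n -
    tG b * (n / 120 : ℕ) * Real.log 2

/-- the exponent of the bound at a position -/
def al (C : ℝ) (K n b m : ℕ) : ℝ :=
  (1 - (m : ℝ) / (n / 120 : ℕ)) * la C K n b + (m : ℝ) / (n / 120 : ℕ) * la C K n (b + 1)

/-- the binary exponent for the poles -/
def UU : ℕ := 3388

/-- `(∏ |h_i - v|)² ∏ ((λ_j - 1/3)² + v)` -/
def FL (b : ℕ) (v : ℝ) : ℝ :=
  ((LT b).map fun a : ℕ => |(a : ℝ) / 100000 - v|).prod ^ 2 *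
    ((PT b).map fun a : ℕ => ((a : ℝ) / 1200 - 1 / 3) ^ 2 + v).prod

/-- certificate on the line -/
def StG3 : Prop := ∀ b : ℕ, b ≤ 9 → ∀ v : ℝ, 0 ≤ v → 2 ^ tG b * FL b v ≤ FXp v

end

end Pool.Agent.TH250.Z3
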