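import Pool.Agent.TH250.Z3.CertLib

set_option autoImplicit false

/-!
# The comparison product of the certificate
-/

namespace Pool.Agent.TH250.Z3.CL

open Pool.Agent.H336R2.HD.G3 (vl P1 P2 Q Q_pos P2_pos Q_low Q_append)

/-- the near factors other than `K4` -/
def K5n : List (ℕ × ℕ × ℕ) :=
  [(3, 8, 5), (11, 24, 5), (13, 24, 5), (5, 8, 5), (17, 24, 5), (19, 24, 5), (11, 12, 20), (13, 12, 20),
   (5, 4, 20), (17, 12, 20), (19, 12, 20), (7, 4, 30), (23, 12, 30), (25, 12, 30), (9, 4, 50), (29, 12, 50),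
   (31, 12, 50), (25, 6, 120), (9, 2, 120), (59, 12, 180), (65, 12, 180), (71, 12, 180), (77, 12, 180), (83, 12, 150),
   (91, 12, 200), (17, 2, 240), (19, 2, 240), (32, 3, 320), (73, 6, 400), (14, 1, 480), (65, 4, 600), (19, 1, 720)]

/-- the far factors: `(a, b, s, e)` means `(1 + v / (a s / b)²)^(e s²)`, reduced to `(1 + v / (a / b)²)^e` -/
def RD : List (ℕ × ℕ × ℕ × ℕ) :=
  [(45, 4, 2, 240), (27, 2, 2, 300), (33, 2, 2, 400), (103, 10, 4, 150), (53, 4, 4, 200), (87, 10, 8, 75), (19, 2, 10, 72), (27, 2, 10, 120),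
   (101, 10, 20, 50), (53, 5, 30, 40), (91, 10, 60, 20), (83, 10, 120, 10), (79, 5, 120, 20)]

/-- the far factors -/
def K3 : List (ℕ × ℕ × ℕ) := RD.map fun y => (y.1 * y.2.2.1, y.2.1, y.2.2.2 * y.2.2.1 ^ 2)

/-- the reduced far factors -/
def K2r : List (ℕ × ℕ × ℕ) :=
  [(45, 4, 240), (27, 2, 300), (33, 2, 400), (103, 10, 150), (53, 4, 200), (87, 10, 75), (19, 2, 72), (27, 2, 120),
   (101, 10, 50), (53, 5, 40), (91, 10, 20), (83, 10, 10), (79, 5, 20)]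

/-- the factors other than `K4` -/
def K5 : List (ℕ × ℕ × ℕ) := K5n ++ K2r

/-- all the factors -/
def KK : List (ℕ × ℕ × ℕ) :=
  [(17, 6, 120), (19, 6, 120), (7, 2, 120), (23, 6, 120), (3, 8, 5), (11, 24, 5), (13, 24, 5), (5, 8, 5),
   (17, 24, 5), (19, 24, 5), (11, 12, 20), (13, 12, 20), (5, 4, 20), (17, 12, 20), (19, 12, 20), (7, 4, 30),
   (23, 12, 30), (25, 12, 30), (9, 4, 50), (29, 12, 50), (31, 12, 50), (25, 6, 120), (9, 2, 120), (59, 12, 180),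
   (65, 12, 180), (71, 12, 180), (77, 12, 180), (83, 12, 150), (91, 12, 200), (17, 2, 240), (19, 2, 240), (32, 3, 320),
   (73, 6, 400), (14, 1, 480), (65, 4, 600), (19, 1, 720), (45, 4, 240), (27, 2, 300), (33, 2, 400), (103, 10, 150),
   (53, 4, 200), (87, 10, 75), (19, 2, 72), (27, 2, 120), (101, 10, 50), (53, 5, 40), (91, 10, 20), (83, 10, 10),
   (79, 5, 20)]

theorem KK_eq : KK = K4 ++ K5 := rfl

theorem K2r_eq : K2r = RD.map fun y => (y.1, y.2.1, y.2.2.2) := rfl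

theorem bern {v c : ℝ} (hv : 0 ≤ v) (hc : 0 < c) (s e : ℕ) (hs : 0 < s) :
    (1 + v / c ^ 2) ^ e ≤ (1 + v / (c * s) ^ 2) ^ (e * s ^ 2) := by
  have hs' : (0 : ℝ) < s := by exact_mod_cast hs
  rw [mul_comm e, pow_mul]
  apply pow_le_pow_left₀ (by positivity)
  have h1 := one_add_mul_le_pow (a := v / (c * s) ^ 2) (by
    have : 0 ≤ v / (c * s) ^ 2 := by positivity
    linarith) (s ^ 2)
  refine le_trans (le_of_eq ?_) h1
  push_cast
  field_simp

theorem Q_red (R : List (ℕ × ℕ × ℕ × ℕ)) (hR : ∀ y ∈ R, 0 < y.1 ∧ 0 < y.2.1 ∧ 0 < y.2.2.1) {v : ℝ}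
    (hv : 0 ≤ v) : Q (R.map fun y => (y.1, y.2.1, y.2.2.2)) v ≤
      Q (R.map fun y => (y.1 * y.2.2.1, y.2.1, y.2.2.2 * y.2.2.1 ^ 2)) v := by
  induction R with
  | nil => simp [Q]
  | cons y R ih =>
    have hy := hR y (by simp)
    have hR' : ∀ z ∈ R, 0 < z.1 ∧ 0 < z.2.1 ∧ 0 < z.2.2.1 := fun z hz => hR z (by simp [hz])
    have ih' := ih hR'
    have e3 : ∀ (x : ℕ × ℕ × ℕ) (L : List (ℕ × ℕ × ℕ)), Q (x :: L) v =
        (1 + v / ((x.1 : ℝ) / x.2.1) ^ 2) ^ x.2.2 * Q L v := by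
      intro x L; unfold Q; rw [List.map_cons, List.prod_cons]
    rw [List.map_cons, List.map_cons, e3, e3]
    have h1 : (0 : ℝ) < y.1 := by exact_mod_cast hy.1
    have h2 : (0 : ℝ) < y.2.1 := by exact_mod_cast hy.2.1
    have hp : 0 ≤ Q (R.map fun y => (y.1, y.2.1, y.2.2.2)) v := by
      refine (Q_pos _ ?_ hv).le
      intro z hz
      obtain ⟨w, hw, rfl⟩ := List.mem_map.1 hz
      exact ⟨(hR' w hw).1, (hR' w hw).2.1⟩
    apply mul_le_mul _ ih' hp (by positivity)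
    have hb := bern hv (c := (y.1 : ℝ) / y.2.1) (by positivity) y.2.2.1 y.2.2.2 hy.2.2
    refine hb.trans (le_of_eq ?_)
    congr 4
    push_cast
    ring

theorem posK5 : PosL K5 := by unfold PosL Pool.Agent.H336R2.HD.G3.Pos; decide
theorem posKK : PosL KK := by unfold PosL Pool.Agent.H336R2.HD.G3.Pos; decide
theorem posKn : PosL (K4 ++ K5n) := by unfold PosL Pool.Agent.H336R2.HD.G3.Pos; decide
theorem posRD : ∀ y ∈ RD, 0 < y.1 ∧ 0 < y.2.1 ∧ 0 < y.2.2.1 := by decide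

theorem FXp_eq (v : ℝ) : FXp v = Q (K4 ++ K5n ++ K3) v := by
  unfold FXp Q FXG K4 K5n K3 RD
  simp

theorem FXp_ge {v : ℝ} (hv : 0 ≤ v) : Q KK v ≤ FXp v := by
  rw [FXp_eq, KK_eq, K5, ← List.append_assoc, Q_append (K4 ++ K5n) K2r, Q_append (K4 ++ K5n) K3]
  exact mul_le_mul_of_nonneg_left (Q_red RD posRD hv) (Q_pos _ posKn hv).le

/-- the sum of the exponents of `KK` -/
def EE : ℕ := 6857

theorem EE_eq : EE = SE KK := by decide +kernel

/-- the denominators of a comparison product -/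
noncomputable def AF (L : List (ℕ × ℕ × ℕ)) : ℕ := List.rec (motive := fun _ => ℕ) 1 (fun y _ ih =>
    Nat.mul (Nat.pow (Nat.mul 1 (Nat.pow y.1 2)) y.2.2) ih) L

theorem AF_cons (y : ℕ × ℕ × ℕ) (L : List (ℕ × ℕ × ℕ)) :
    AF (y :: L) = (1 * y.1 ^ 2) ^ y.2.2 * AF L := rfl

theorem AF_eq (L : List (ℕ × ℕ × ℕ)) : AF L = P2 L 1 := by
  induction L with
  | nil => rfl
  | cons y L ih =>
    have e : P2 (y :: L) 1 = (1 * y.1 ^ 2) ^ y.2.2 * P2 L 1 := by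
      unfold P2; rw [List.map_cons, List.prod_cons]
    rw [e, AF_cons, ih]

/-- the denominators of the comparison product -/
noncomputable def AA : ℕ := AF KK

theorem AA_eq : AA = P2 KK 1 := AF_eq KK

/-- both parts: chunks and the tail -/
theorem both {T a b : ℕ} {l r : List ℕ} (ha : a = 2 * l.length) (hb : b = r.length)
    (hl : ∀ x ∈ l, x ≤ 400000) (hr : ∀ x ∈ r, 400 ≤ x) (hab : a + b ≤ 240)
    (p : ℕ × ℕ) (h2 : chkT T EE AA a b KK r p = true) {v : ℝ}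
    (h1 : 0 ≤ v → v < vl p → 2 ^ T * (FA l v ^ 2 * FB r v) ≤ Q KK v) (hv : 0 ≤ v) :
    2 ^ T * (FA l v ^ 2 * FB r v) ≤ FXp v := by
  refine le_trans ?_ (FXp_ge hv)
  rcases lt_or_ge v (vl p) with h | h
  · exact h1 hv h
  · exact tailz posKK posK5 KK_eq EE_eq AA_eq ha hb hl hr hab h2 h

/-- a chunk -/
theorem chunk {T a b : ℕ} {l r : List ℕ} (ha : a = 2 * l.length) (hb : b = r.length)
    (hr : ∀ x ∈ r, 400 ≤ x) (L : List (ℕ × ℕ)) (p q : ℕ × ℕ) (hp : 0 < p.2)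
    (h : chkL T EE AA a b KK l r L p = true) (hq : (p :: L).getLast (by simp) = q) {v : ℝ} (h0 : vl p ≤ v)
    (h1 : v < vl q) : 2 ^ T * (FA l v ^ 2 * FB r v) ≤ Q KK v := by
  rw [← hq] at h1
  exact chainz posKK EE_eq AA_eq ha hb hr L p hp h v h0 h1

end Pool.Agent.TH250.Z3.CL
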