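import Pool.Agent.TH250.Z3.CertFX

set_option autoImplicit false

/-! certificate on the line, stage 1 -/

namespace Pool.Agent.TH250.Z3.CL

open Pool.Agent.H336R2.HD.G3 (vl)

/-- nodes on the line -/
def l1 : List ℕ :=
  [30, 274, 784, 1608, 2859, 4843]

/-- real nodes -/
def r1 : List ℕ :=
  []

/-- break points -/
def k1_0 : List (ℕ × ℕ) :=
  [(63, 100000), (87, 100000), (203, 200000), (563, 500000), (307, 250000), (167, 125000), (23, 15625),
   (21, 12500), (211, 100000), (87, 25000), (401, 100000), (27, 6250), (227, 50000), (59, 12500), (2441, 500000),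
   (2521, 500000), (2607, 500000), (541, 100000), (567, 100000), (19, 3125), (43, 6250), (9, 1000),
   (493, 50000), (1037, 100000), (1073, 100000), (1101, 100000), (563, 50000), (1149, 100000), (293, 25000),
   (1197, 100000), (613, 50000), (631, 50000), (657, 50000), (1401, 100000), (2, 125), (91, 5000),
   (1927, 100000), (399, 20000), (511, 25000), (2083, 100000), (2117, 100000), (537, 25000), (2179, 100000),
   (221, 10000), (561, 25000), (2283, 100000), (583, 25000), (1199, 50000), (1, 40), (1347, 50000),
   (31, 1000), (657, 20000), (1699, 50000), (3479, 100000), (1771, 50000), (719, 20000), (1821, 50000),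
   (737, 20000), (3727, 100000), (377, 10000), (763, 20000), (773, 20000), (981, 25000), (3997, 100000),
   (2047, 50000), (2119, 50000), (449, 10000), (511, 10000), (273, 5000), (567, 10000), (5829, 100000),
   (5953, 100000), (1211, 20000), (6143, 100000), (3111, 50000), (1259, 20000), (1591, 25000), (201, 3125),
   (13, 200), (6569, 100000), (3321, 50000), (42, 625), (3403, 50000), (6903, 100000), (877, 12500),
   (7153, 100000), (1831, 25000), (377, 5000), (157, 2000), (831, 10000), (227, 2500), (1061, 10000),
   (1473, 10000), (947, 2500), (728637, 10000)]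

theorem c1_0 : chkL 85 EE AA 12 0 KK l1 r1 k1_0 (0, 1) = true := by decide +kernel

theorem t1 : chkT 85 EE AA 12 0 KK r1 (728637, 10000) = true := by decide +kernel

theorem cert1 {v : ℝ} (hv : 0 ≤ v) : 2 ^ 85 * (FA l1 v ^ 2 * FB r1 v) ≤ FXp v := by
  have hr : ∀ x ∈ r1, 400 ≤ x := by decide
  refine both (a := 12) (b := 0) (by decide) (by decide) (by decide) hr (by decide) _ t1 (fun _ h => ?_) hv
  exact chunk (a := 12) (b := 0) (by decide) (by decide) hr k1_0 (0, 1) (728637, 10000) (by decide) c1_0 rfl (by unfold vl; simpa using hv) h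

end Pool.Agent.TH250.Z3.CL
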