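import Pool.Agent.TH250.Z3.Base
import Pool.Agent.H336R2.HD.G3

set_option autoImplicit false

/-!
# The numerical certificate on the line: soundness of the checker
-/

namespace Pool.Agent.TH250.Z3.CL

open Pool.Agent.H336R2.HD.G3 (vl P1 P2 Q Q_pos P2_pos Q_low Q_append)

/-- positive entries -/
abbrev PosL := Pool.Agent.H336R2.HD.G3.Pos

/-- `|a - b|` -/
def dr (a b : ℕ) : ℕ := Nat.add (Nat.sub a b) (Nat.sub b a)

/-- maximum -/
def mx (a b : ℕ) : ℕ := bif Nat.ble a b then b else a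

/-- product over the nodes on the line -/
noncomputable def LP (m0 d0 m1 d1 : ℕ) (l : List ℕ) : ℕ :=
  List.rec (motive := fun _ => ℕ) 1 (fun a _ ih =>
    Nat.mul (mx (Nat.mul (dr (Nat.mul a d0) m0) d1) (Nat.mul (dr (Nat.mul a d1) m1) d0)) ih) l

/-- product over the real nodes -/
noncomputable def PQ (m1 d1 : ℕ) (l : List ℕ) : ℕ :=
  List.rec (motive := fun _ => ℕ) 1 (fun a _ ih =>
    Nat.mul (Nat.add (Nat.mul (Nat.pow (Nat.sub a 400) 2) d1) m1) ih) l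

/-- numerator of the comparison product -/
noncomputable def F1 (n d : ℕ) (L : List (ℕ × ℕ × ℕ)) : ℕ :=
  List.rec (motive := fun _ => ℕ) 1 (fun y _ ih =>
    Nat.mul (Nat.pow (Nat.add (Nat.mul d (Nat.pow y.1 2)) (Nat.mul n (Nat.pow y.2.1 2))) y.2.2) ih) L

theorem dr_cast (a b : ℕ) : ((dr a b : ℕ) : ℝ) = |(a : ℝ) - b| := by
  have e : dr a b = (a - b) + (b - a) := rfl
  rw [e]
  rcases le_total a b with h | h
  · rw [Nat.sub_eq_zero_of_le h, zero_add, Nat.cast_sub h]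
    have h' : (a : ℝ) ≤ b := by exact_mod_cast h
    rw [abs_of_nonpos (by linarith)]; ring
  · rw [Nat.sub_eq_zero_of_le h, add_zero, Nat.cast_sub h]
    have h' : (b : ℝ) ≤ a := by exact_mod_cast h
    rw [abs_of_nonneg (by linarith)]

theorem le_mx_left (a b : ℕ) : a ≤ mx a b := by
  unfold mx
  rcases h : Nat.ble a b with _ | _
  · simp
  · simp only [cond_true]
    exact Nat.le_of_ble_eq_true h

theorem le_mx_right (a b : ℕ) : b ≤ mx a b := by
  unfold mx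
  rcases h : Nat.ble a b with _ | _
  · simp only [cond_false]
    have : ¬ a ≤ b := fun h' => by
      rw [Nat.ble_eq_true_of_le h'] at h
      exact Bool.noConfusion h
    omega
  · simp

theorem LP_cons (m0 d0 m1 d1 a : ℕ) (l : List ℕ) : LP m0 d0 m1 d1 (a :: l) =
    mx (dr (a * d0) m0 * d1) (dr (a * d1) m1 * d0) * LP m0 d0 m1 d1 l := rfl

theorem PQ_cons (m1 d1 a : ℕ) (l : List ℕ) : PQ m1 d1 (a :: l) =
    ((a - 400) ^ 2 * d1 + m1) * PQ m1 d1 l := rfl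

theorem F1_cons (n d : ℕ) (y : ℕ × ℕ × ℕ) (L : List (ℕ × ℕ × ℕ)) : F1 n d (y :: L) =
    (d * y.1 ^ 2 + n * y.2.1 ^ 2) ^ y.2.2 * F1 n d L := rfl

theorem F1_eq (n d : ℕ) (L : List (ℕ × ℕ × ℕ)) : F1 n d L = P1 L n d := by
  induction L with
  | nil => rfl
  | cons y L ih =>
    rw [F1_cons, ih]
    unfold P1
    rw [List.map_cons, List.prod_cons]

/-- sum of the exponents -/
def SE (L : List (ℕ × ℕ × ℕ)) : ℕ := (L.map fun y => y.2.2).sum

theorem P2_eq (d : ℕ) (L : List (ℕ × ℕ × ℕ)) : P2 L d = d ^ SE L * P2 L 1 := by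
  induction L with
  | nil => simp [P2, SE]
  | cons y L ih =>
    have e1 : ∀ d : ℕ, P2 (y :: L) d = (d * y.1 ^ 2) ^ y.2.2 * P2 L d := by
      intro d
      unfold P2; rw [List.map_cons, List.prod_cons]
    have e2 : SE (y :: L) = y.2.2 + SE L := by
      unfold SE; rw [List.map_cons, List.sum_cons]
    rw [e1, e1, ih, e2, one_mul, mul_pow, pow_add]
    ring

theorem abs_max {h v0 v1 v M : ℝ} (h0 : v0 ≤ v) (h1 : v ≤ v1) (hM0 : |h - v0| ≤ M) (hM1 : |h - v1| ≤ M) :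
    |h - v| ≤ M := by
  rw [abs_le] at hM0 hM1 ⊢
  constructor <;> linarith [hM0.1, hM0.2, hM1.1, hM1.2]

theorem factorz (a : ℕ) {n0 d0 n1 d1 : ℕ} (hd0 : 0 < d0) (hd1 : 0 < d1) {v : ℝ}
    (h0 : vl (n0, d0) ≤ v) (h1 : v ≤ vl (n1, d1)) :
    |(a : ℝ) / 100000 - v| * (100000 * d0 * d1) ≤
      ((mx (dr (a * d0) (100000 * n0) * d1) (dr (a * d1) (100000 * n1) * d0) : ℕ) : ℝ) := by
  have hd0' : (0 : ℝ) < d0 := by exact_mod_cast hd0
  have hd1' : (0 : ℝ) < d1 := by exact_mod_cast hd1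
  set M : ℝ := ((mx (dr (a * d0) (100000 * n0) * d1) (dr (a * d1) (100000 * n1) * d0) : ℕ) : ℝ) with hM
  have hc : (0 : ℝ) < 100000 * d0 * d1 := by positivity
  have e0 : |(a : ℝ) / 100000 - vl (n0, d0)| * (100000 * d0 * d1) =
      ((dr (a * d0) (100000 * n0) * d1 : ℕ) : ℝ) := by
    rw [Nat.cast_mul, dr_cast]
    have : ((a * d0 : ℕ) : ℝ) - ((100000 * n0 : ℕ) : ℝ) =
        ((a : ℝ) / 100000 - vl (n0, d0)) * (100000 * d0) := by
      unfold vl; push_cast; field_simp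
    rw [this, abs_mul, abs_of_pos (by positivity : (0 : ℝ) < 100000 * d0)]
    ring
  have e1 : |(a : ℝ) / 100000 - vl (n1, d1)| * (100000 * d0 * d1) =
      ((dr (a * d1) (100000 * n1) * d0 : ℕ) : ℝ) := by
    rw [Nat.cast_mul, dr_cast]
    have : ((a * d1 : ℕ) : ℝ) - ((100000 * n1 : ℕ) : ℝ) =
        ((a : ℝ) / 100000 - vl (n1, d1)) * (100000 * d1) := by
      unfold vl; push_cast; field_simp
    rw [this, abs_mul, abs_of_pos (by positivity : (0 : ℝ) < 100000 * d1)]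
    ring
  rw [← le_div_iff₀ hc]
  apply abs_max h0 h1
  · rw [le_div_iff₀ hc, e0, hM]
    exact_mod_cast le_mx_left _ _
  · rw [le_div_iff₀ hc, e1, hM]
    exact_mod_cast le_mx_right _ _

/-- product of the distances -/
noncomputable def FA (l : List ℕ) (v : ℝ) : ℝ := (l.map fun a : ℕ => |(a : ℝ) / 100000 - v|).prod

/-- product for the real nodes -/
noncomputable def FB (l : List ℕ) (v : ℝ) : ℝ :=
  (l.map fun a : ℕ => ((a : ℝ) / 1200 - 1 / 3) ^ 2 + v).prod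

theorem FA_nonneg (l : List ℕ) (v : ℝ) : 0 ≤ FA l v := by
  unfold FA
  apply List.prod_nonneg
  intro z hz
  obtain ⟨w, _, rfl⟩ := List.mem_map.mp hz
  exact abs_nonneg _

theorem FB_nonneg (l : List ℕ) {v : ℝ} (hv : 0 ≤ v) : 0 ≤ FB l v := by
  unfold FB
  apply List.prod_nonneg
  intro z hz
  obtain ⟨w, _, rfl⟩ := List.mem_map.mp hz
  positivity

theorem LP_sound {n0 d0 n1 d1 : ℕ} (hd0 : 0 < d0) (hd1 : 0 < d1) {v : ℝ}
    (h0 : vl (n0, d0) ≤ v) (h1 : v ≤ vl (n1, d1)) (l : List ℕ) :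
    FA l v * (100000 * (d0 : ℝ) * d1) ^ l.length ≤
      ((LP (100000 * n0) d0 (100000 * n1) d1 l : ℕ) : ℝ) := by
  induction l with
  | nil => simp [FA, LP]
  | cons a l ih =>
    rw [LP_cons, Nat.cast_mul, List.length_cons, pow_succ]
    have e : FA (a :: l) v = |(a : ℝ) / 100000 - v| * FA l v := by
      unfold FA; rw [List.map_cons, List.prod_cons]
    rw [e]
    calc |(a : ℝ) / 100000 - v| * FA l v * ((100000 * (d0 : ℝ) * d1) ^ l.length * (100000 * (d0 : ℝ) * d1))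
        = (|(a : ℝ) / 100000 - v| * (100000 * (d0 : ℝ) * d1)) *
          (FA l v * (100000 * (d0 : ℝ) * d1) ^ l.length) := by ring
      _ ≤ _ := by
          apply mul_le_mul (factorz a hd0 hd1 h0 h1) ih
          · exact mul_nonneg (FA_nonneg l v) (by positivity)
          · exact Nat.cast_nonneg _

theorem PQ_sound {n1 d1 : ℕ} (hd1 : 0 < d1) {v : ℝ} (hv : 0 ≤ v) (h1 : v ≤ vl (n1, d1)) (l : List ℕ)
    (hl : ∀ a ∈ l, 400 ≤ a) :
    FB l v * (1440000 * (d1 : ℝ)) ^ l.length ≤ ((PQ (1440000 * n1) d1 l : ℕ) : ℝ) := by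
  have hd1' : (0 : ℝ) < d1 := by exact_mod_cast hd1
  induction l with
  | nil => simp [FB, PQ]
  | cons a l ih =>
    have ih' := ih fun b hb => hl b (by simp [hb])
    have ha := hl a (by simp)
    rw [PQ_cons, Nat.cast_mul, List.length_cons, pow_succ]
    have e : FB (a :: l) v = (((a : ℝ) / 1200 - 1 / 3) ^ 2 + v) * FB l v := by
      unfold FB; rw [List.map_cons, List.prod_cons]
    rw [e]
    have hf : (((a : ℝ) / 1200 - 1 / 3) ^ 2 + v) * (1440000 * (d1 : ℝ)) ≤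
        (((a - 400) ^ 2 * d1 + 1440000 * n1 : ℕ) : ℝ) := by
      have e2 : (((a - 400) ^ 2 * d1 + 1440000 * n1 : ℕ) : ℝ) =
          (((a : ℝ) / 1200 - 1 / 3) ^ 2 + vl (n1, d1)) * (1440000 * (d1 : ℝ)) := by
        unfold vl
        push_cast [Nat.cast_sub ha]
        field_simp
        ring
      rw [e2]
      apply mul_le_mul_of_nonneg_right _ (by positivity)
      linarith
    calc (((a : ℝ) / 1200 - 1 / 3) ^ 2 + v) * FB l v * ((1440000 * (d1 : ℝ)) ^ l.length * (1440000 * (d1 : ℝ)))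
        = ((((a : ℝ) / 1200 - 1 / 3) ^ 2 + v) * (1440000 * (d1 : ℝ))) *
          (FB l v * (1440000 * (d1 : ℝ)) ^ l.length) := by ring
      _ ≤ _ := by
          apply mul_le_mul hf ih'
          · exact mul_nonneg (FB_nonneg l hv) (by positivity)
          · exact Nat.cast_nonneg _

/-- the check on `[n0/d0, n1/d1]` -/
noncomputable def chkI (T E A a b : ℕ) (KK : List (ℕ × ℕ × ℕ)) (l r : List ℕ) (p q : ℕ × ℕ) : Bool :=
  Nat.ble (Nat.mul (Nat.mul (Nat.pow 2 T) (Nat.pow (LP (Nat.mul 100000 p.1) p.2 (Nat.mul 100000 q.1) q.2 l) 2))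
      (Nat.mul (PQ (Nat.mul 1440000 q.1) q.2 r) (Nat.mul (Nat.pow p.2 E) A)))
    (Nat.mul (F1 p.1 p.2 KK) (Nat.mul (Nat.pow (Nat.mul (Nat.mul 100000 p.2) q.2) a)
      (Nat.pow (Nat.mul 1440000 q.2) b)))

/-- consecutive checks -/
noncomputable def chkL (T E A a b : ℕ) (KK : List (ℕ × ℕ × ℕ)) (l r : List ℕ) (L : List (ℕ × ℕ)) :
    ℕ × ℕ → Bool :=
  List.rec (motive := fun _ => ℕ × ℕ → Bool) (fun _ => true)
    (fun q _ ih p => and (Nat.ble 1 q.2) (and (chkI T E A a b KK l r p q) (ih q))) L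

theorem chkL_cons (T E A a b : ℕ) (KK : List (ℕ × ℕ × ℕ)) (l r : List ℕ) (q : ℕ × ℕ)
    (L : List (ℕ × ℕ)) (p : ℕ × ℕ) : chkL T E A a b KK l r (q :: L) p =
    (Nat.ble 1 q.2 && (chkI T E A a b KK l r p q && chkL T E A a b KK l r L q)) := rfl

theorem intervalz {T E A a b : ℕ} {KK : List (ℕ × ℕ × ℕ)} {l r : List ℕ} (hKK : PosL KK)
    (hE : E = SE KK) (hA : A = P2 KK 1) (ha : a = 2 * l.length) (hb : b = r.length)
    (hr : ∀ x ∈ r, 400 ≤ x) {p q : ℕ × ℕ} (hp : 0 < p.2) (hq : 0 < q.2)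
    (h : chkI T E A a b KK l r p q = true) {v : ℝ} (h0 : vl p ≤ v) (h1 : v ≤ vl q) :
    2 ^ T * (FA l v ^ 2 * FB r v) ≤ Q KK v := by
  obtain ⟨n0, d0⟩ := p
  obtain ⟨n1, d1⟩ := q
  simp only at hp hq
  have hle : 2 ^ T * (LP (100000 * n0) d0 (100000 * n1) d1 l) ^ 2 *
      (PQ (1440000 * n1) d1 r * (d0 ^ E * A)) ≤
      F1 n0 d0 KK * ((100000 * d0 * d1) ^ a * (1440000 * d1) ^ b) := Nat.le_of_ble_eq_true h
  have hP2 : d0 ^ E * A = P2 KK d0 := by rw [P2_eq d0 KK, hE, hA]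
  rw [hP2, F1_eq, ha, hb] at hle
  have hd0 : (0 : ℝ) < d0 := by exact_mod_cast hp
  have hd1 : (0 : ℝ) < d1 := by exact_mod_cast hq
  have hv0 : 0 ≤ v := le_trans (by unfold vl; positivity) h0
  have s1 := LP_sound hp hq h0 h1 l
  have s2 := PQ_sound hq hv0 h1 r hr
  have s3 := Q_low KK hKK hp h0
  have s4 := P2_pos KK hKK hp
  have hle' : (2 : ℝ) ^ T * ((LP (100000 * n0) d0 (100000 * n1) d1 l : ℕ) : ℝ) ^ 2 *
      (((PQ (1440000 * n1) d1 r : ℕ) : ℝ) * ((P2 KK d0 : ℕ) : ℝ)) ≤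
      ((P1 KK n0 d0 : ℕ) : ℝ) * ((100000 * (d0 : ℝ) * d1) ^ (2 * l.length) *
        (1440000 * (d1 : ℝ)) ^ r.length) := by
    exact_mod_cast hle
  set D1 : ℝ := (100000 * (d0 : ℝ) * d1) ^ l.length with hD1
  set D2 : ℝ := (1440000 * (d1 : ℝ)) ^ r.length with hD2
  have hD1p : 0 < D1 := by positivity
  have hD2p : 0 < D2 := by positivity
  have e1 : (100000 * (d0 : ℝ) * d1) ^ (2 * l.length) = D1 ^ 2 := by rw [hD1, ← pow_mul, mul_comm 2]
  rw [e1] at hle'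
  set X : ℝ := ((LP (100000 * n0) d0 (100000 * n1) d1 l : ℕ) : ℝ) with hX
  set Y : ℝ := ((PQ (1440000 * n1) d1 r : ℕ) : ℝ) with hY
  set Z : ℝ := ((P2 KK d0 : ℕ) : ℝ) with hZ
  set W : ℝ := ((P1 KK n0 d0 : ℕ) : ℝ) with hW
  have hFA := FA_nonneg l v
  have hFB := FB_nonneg r hv0
  refine le_of_mul_le_mul_right ?_ (show 0 < D1 ^ 2 * D2 * Z by positivity)
  have k1 : (FA l v * D1) ^ 2 ≤ X ^ 2 := pow_le_pow_left₀ (mul_nonneg hFA hD1p.le) s1 2
  calc 2 ^ T * (FA l v ^ 2 * FB r v) * (D1 ^ 2 * D2 * Z)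
      = 2 ^ T * ((FA l v * D1) ^ 2 * (FB r v * D2)) * Z := by ring
    _ ≤ 2 ^ T * (X ^ 2 * Y) * Z := by
        apply mul_le_mul_of_nonneg_right _ s4.le
        apply mul_le_mul_of_nonneg_left _ (by positivity)
        exact mul_le_mul k1 s2 (mul_nonneg hFB hD2p.le) (by positivity)
    _ = 2 ^ T * X ^ 2 * (Y * Z) := by ring
    _ ≤ W * (D1 ^ 2 * D2) := hle'
    _ ≤ (Q KK v * Z) * (D1 ^ 2 * D2) := mul_le_mul_of_nonneg_right s3 (by positivity)
    _ = Q KK v * (D1 ^ 2 * D2 * Z) := by ring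

theorem chainz {T E A a b : ℕ} {KK : List (ℕ × ℕ × ℕ)} {l r : List ℕ} (hKK : PosL KK)
    (hE : E = SE KK) (hA : A = P2 KK 1) (ha : a = 2 * l.length) (hb : b = r.length)
    (hr : ∀ x ∈ r, 400 ≤ x) : ∀ (L : List (ℕ × ℕ)) (p : ℕ × ℕ), 0 < p.2 →
    chkL T E A a b KK l r L p = true →
    ∀ v : ℝ, vl p ≤ v → v < vl ((p :: L).getLast (by simp)) →
    2 ^ T * (FA l v ^ 2 * FB r v) ≤ Q KK v := by
  intro L
  induction L with
  | nil =>
    intro p _ _ v h0 h1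
    simp at h1
    linarith
  | cons q L ih =>
    intro p hp h v h0 h1
    rw [chkL_cons, Bool.and_eq_true, Bool.and_eq_true] at h
    have hq : 0 < q.2 := Nat.le_of_ble_eq_true h.1
    rcases le_or_gt v (vl q) with h2 | h2
    · exact intervalz hKK hE hA ha hb hr hp hq h.2.1 h0 h2
    · apply ih q hq h.2.2 v h2.le
      rw [List.getLast_cons (by simp)] at h1
      exact h1

/-! ### The tail -/

/-- one factor of the comparison product beyond `w ≥ c²` -/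
theorem tail_fac {c w v : ℝ} (hc : 0 < c) (hw : c ^ 2 ≤ w) (hv : w ≤ v) (e : ℕ) :
    (1 + w / c ^ 2) ^ (2 * e) * (v / w) ^ e ≤ (1 + v / c ^ 2) ^ (2 * e) := by
  have hc2 : 0 < c ^ 2 := by positivity
  have hw0 : 0 < w := lt_of_lt_of_le hc2 hw
  have hv0 : 0 < v := lt_of_lt_of_le hw0 hv
  rw [pow_mul, pow_mul, ← mul_pow]
  apply pow_le_pow_left₀ (by positivity)
  have h1 : (1 + w / c ^ 2) ^ 2 * (v / w) = (c ^ 2 + w) ^ 2 * v / ((c ^ 2) ^ 2 * w) := by
    field_simp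
  have h2 : (1 + v / c ^ 2) ^ 2 = (c ^ 2 + v) ^ 2 * w / ((c ^ 2) ^ 2 * w) := by
    field_simp
  rw [h1, h2]
  apply div_le_div_of_nonneg_right _ (by positivity)
  nlinarith [mul_nonneg (sub_nonneg.2 hv) (sub_nonneg.2 (show (c ^ 2) ^ 2 ≤ v * w by nlinarith))]

theorem Q_mono (L : List (ℕ × ℕ × ℕ)) (hL : PosL L) {w v : ℝ} (hw : 0 ≤ w) (hv : w ≤ v) : Q L w ≤ Q L v := by
  induction L with
  | nil => simp [Q]
  | cons y L ih =>
    have hL' : PosL L := fun z hz => hL z (by simp [hz])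
    have e3 : ∀ v : ℝ, Q (y :: L) v = (1 + v / ((y.1 : ℝ) / y.2.1) ^ 2) ^ y.2.2 * Q L v := by
      intro v; unfold Q; rw [List.map_cons, List.prod_cons]
    rw [e3, e3]
    have hv0 : 0 ≤ v := hw.trans hv
    apply mul_le_mul _ (ih hL') (Q_pos L hL' hw).le (by positivity)
    apply pow_le_pow_left₀ (by positivity)
    have : w / ((y.1 : ℝ) / y.2.1) ^ 2 ≤ v / ((y.1 : ℝ) / y.2.1) ^ 2 := by gcongr
    linarith

/-- the sublist used for the growth -/
def K4 : List (ℕ × ℕ × ℕ) := [(17, 6, 120), (19, 6, 120), (7, 2, 120), (23, 6, 120)]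

theorem K4_tail {w v : ℝ} (hw : 15 ≤ w) (hv : w ≤ v) : Q K4 w * (v / w) ^ 240 ≤ Q K4 v := by
  have a1 := tail_fac (c := 17 / 6) (by norm_num) (by norm_num; linarith) hv 60
  have a2 := tail_fac (c := 19 / 6) (by norm_num) (by norm_num; linarith) hv 60
  have a3 := tail_fac (c := 7 / 2) (by norm_num) (by norm_num; linarith) hv 60
  have a4 := tail_fac (c := 23 / 6) (by norm_num) (by norm_num; linarith) hv 60
  have hw0 : 0 < w := by linarith
  have hv0 : 0 < v := by linarith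
  have e : ∀ v : ℝ, Q K4 v = (1 + v / (17 / 6) ^ 2) ^ (2 * 60) * ((1 + v / (19 / 6) ^ 2) ^ (2 * 60) *
      ((1 + v / (7 / 2) ^ 2) ^ (2 * 60) * (1 + v / (23 / 6) ^ 2) ^ (2 * 60))) := by
    intro v
    unfold Q K4
    simp only [List.map_cons, List.map_nil, List.prod_cons, List.prod_nil, mul_one]
    norm_num
  rw [e, e]
  have n1 : ∀ (u c : ℝ), 0 < u → 0 ≤ (1 + u / c ^ 2) ^ (2 * 60) := fun u c hu => by positivity
  have hr : 0 ≤ (v / w) ^ 60 := by positivity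
  have e2 : (v / w) ^ 240 = (v / w) ^ 60 * ((v / w) ^ 60 * ((v / w) ^ 60 * (v / w) ^ 60)) := by
    rw [← pow_add, ← pow_add, ← pow_add]
  rw [e2]
  have w1 := n1 w (17 / 6) hw0
  have w2 := n1 w (19 / 6) hw0
  have w3 := n1 w (7 / 2) hw0
  have w4 := n1 w (23 / 6) hw0
  have v1 := n1 v (17 / 6) hv0
  have v2 := n1 v (19 / 6) hv0
  have v3 := n1 v (7 / 2) hv0
  have v4 := n1 v (23 / 6) hv0
  generalize (1 + w / (17 / 6) ^ 2) ^ (2 * 60) = A1 at *
  generalize (1 + w / (19 / 6) ^ 2) ^ (2 * 60) = A2 at *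
  generalize (1 + w / (7 / 2) ^ 2) ^ (2 * 60) = A3 at *
  generalize (1 + w / (23 / 6) ^ 2) ^ (2 * 60) = A4 at *
  generalize (1 + v / (17 / 6) ^ 2) ^ (2 * 60) = B1 at *
  generalize (1 + v / (19 / 6) ^ 2) ^ (2 * 60) = B2 at *
  generalize (1 + v / (7 / 2) ^ 2) ^ (2 * 60) = B3 at *
  generalize (1 + v / (23 / 6) ^ 2) ^ (2 * 60) = B4 at *
  generalize (v / w) ^ 60 = r at *
  calc A1 * (A2 * (A3 * A4)) * (r * (r * (r * r)))
      = (A1 * r) * ((A2 * r) * ((A3 * r) * (A4 * r))) := by ring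
    _ ≤ B1 * (B2 * (B3 * B4)) :=
        mul_le_mul a1 (mul_le_mul a2 (mul_le_mul a3 a4 (mul_nonneg w4 hr) v3)
          (mul_nonneg (mul_nonneg w3 hr) (mul_nonneg w4 hr)) v2)
          (mul_nonneg (mul_nonneg w2 hr) (mul_nonneg (mul_nonneg w3 hr) (mul_nonneg w4 hr))) v1

theorem FA_tail (l : List ℕ) (hl : ∀ a ∈ l, a ≤ 400000) {v : ℝ} (hv : 2 ≤ v) : FA l v ≤ v ^ l.length := by
  induction l with
  | nil => simp [FA]
  | cons a l ih =>
    have ih' := ih fun b hb => hl b (by simp [hb])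
    have ha : (a : ℝ) ≤ 400000 := by exact_mod_cast hl a (by simp)
    have ha0 : (0 : ℝ) ≤ a := Nat.cast_nonneg a
    have e : FA (a :: l) v = |(a : ℝ) / 100000 - v| * FA l v := by
      unfold FA; rw [List.map_cons, List.prod_cons]
    rw [e, List.length_cons, pow_succ, mul_comm]
    apply mul_le_mul ih' _ (abs_nonneg _) (by positivity)
    rw [abs_le]
    constructor <;> linarith

theorem FB_tail (r : List ℕ) {w v : ℝ} (hw : 0 < w) (hv : w ≤ v) :
    FB r v ≤ FB r w * (v / w) ^ r.length := by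
  induction r with
  | nil => simp [FB]
  | cons a r ih =>
    have e : ∀ v : ℝ, FB (a :: r) v = (((a : ℝ) / 1200 - 1 / 3) ^ 2 + v) * FB r v := by
      intro v; unfold FB; rw [List.map_cons, List.prod_cons]
    rw [e, e, List.length_cons, pow_succ]
    have hv0 : 0 < v := by linarith
    have h1 : ((a : ℝ) / 1200 - 1 / 3) ^ 2 + v ≤ (((a : ℝ) / 1200 - 1 / 3) ^ 2 + w) * (v / w) := by
      have : (((a : ℝ) / 1200 - 1 / 3) ^ 2 + w) * (v / w) = ((a : ℝ) / 1200 - 1 / 3) ^ 2 * (v / w) + v := by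
        field_simp
      rw [this]
      have h2 : 1 ≤ v / w := by rw [le_div_iff₀ hw]; linarith
      have h3 : 0 ≤ ((a : ℝ) / 1200 - 1 / 3) ^ 2 := sq_nonneg _
      nlinarith
    calc (((a : ℝ) / 1200 - 1 / 3) ^ 2 + v) * FB r v
        ≤ ((((a : ℝ) / 1200 - 1 / 3) ^ 2 + w) * (v / w)) * (FB r w * (v / w) ^ r.length) := by
          apply mul_le_mul h1 ih (FB_nonneg r hv0.le) (by positivity)
      _ = _ := by ring

/-- the check for the tail `v ≥ n/d` -/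
noncomputable def chkT (T E A a b : ℕ) (KK : List (ℕ × ℕ × ℕ)) (r : List ℕ) (p : ℕ × ℕ) : Bool :=
  and (Nat.ble 1 p.2) (and (Nat.ble (Nat.mul 15 p.2) p.1)
    (Nat.ble (Nat.mul (Nat.mul (Nat.pow 2 T) (Nat.pow p.1 a))
      (Nat.mul (PQ (Nat.mul 1440000 p.1) p.2 r) (Nat.mul (Nat.pow p.2 E) A)))
    (Nat.mul (F1 p.1 p.2 KK) (Nat.mul (Nat.pow p.2 a) (Nat.pow (Nat.mul 1440000 p.2) b)))))

theorem tailz {T E A a b : ℕ} {KK K5 : List (ℕ × ℕ × ℕ)} {l r : List ℕ} (hKK : PosL KK) (hK5 : PosL K5)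
    (h45 : KK = K4 ++ K5)
    (hE : E = SE KK) (hA : A = P2 KK 1) (ha : a = 2 * l.length) (hb : b = r.length)
    (hl : ∀ x ∈ l, x ≤ 400000) (hr : ∀ x ∈ r, 400 ≤ x) (hab : a + b ≤ 240) {p : ℕ × ℕ}
    (h : chkT T E A a b KK r p = true) {v : ℝ} (h0 : vl p ≤ v) :
    2 ^ T * (FA l v ^ 2 * FB r v) ≤ Q KK v := by
  obtain ⟨n, d⟩ := p
  unfold chkT at h
  change (Nat.ble 1 d && (Nat.ble (Nat.mul 15 d) n && _)) = true at h
  rw [Bool.and_eq_true, Bool.and_eq_true] at h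
  have hd : 0 < d := Nat.le_of_ble_eq_true h.1
  have hn : 15 * d ≤ n := Nat.le_of_ble_eq_true h.2.1
  have hle : 2 ^ T * n ^ a * (PQ (1440000 * n) d r * (d ^ E * A)) ≤
      F1 n d KK * (d ^ a * (1440000 * d) ^ b) := Nat.le_of_ble_eq_true h.2.2
  have hP2 : d ^ E * A = P2 KK d := by rw [P2_eq d KK, hE, hA]
  rw [hP2, F1_eq] at hle
  have hd' : (0 : ℝ) < d := by exact_mod_cast hd
  set w : ℝ := vl (n, d) with hw
  have hwe : w = (n : ℝ) / d := rfl
  have hw15 : 15 ≤ w := by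
    rw [hwe, le_div_iff₀ hd']
    exact_mod_cast hn
  have hw0 : 0 < w := by linarith
  have hv0 : 0 < v := by linarith
  have s2 := PQ_sound (n1 := n) hd hw0.le (le_refl w) r hr
  have s3 := Q_low KK hKK hd (le_refl w)
  have s4 := P2_pos KK hKK hd
  have hle' : (2 : ℝ) ^ T * (n : ℝ) ^ a * (((PQ (1440000 * n) d r : ℕ) : ℝ) * ((P2 KK d : ℕ) : ℝ)) ≤
      ((P1 KK n d : ℕ) : ℝ) * ((d : ℝ) ^ a * (1440000 * (d : ℝ)) ^ b) := by
    exact_mod_cast hle
  have hwn : (n : ℝ) = w * d := by rw [hwe]; field_simp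
  set D2 : ℝ := (1440000 * (d : ℝ)) ^ b with hD2
  have hD2p : 0 < D2 := by positivity
  set Y : ℝ := ((PQ (1440000 * n) d r : ℕ) : ℝ) with hY
  set Z : ℝ := ((P2 KK d : ℕ) : ℝ) with hZ
  set W : ℝ := ((P1 KK n d : ℕ) : ℝ) with hW
  rw [← hb] at s2
  -- at the point w
  have atw : 2 ^ T * (w ^ a * FB r w) ≤ Q KK w := by
    refine le_of_mul_le_mul_right ?_ (show 0 < (d : ℝ) ^ a * D2 * Z by positivity)
    calc 2 ^ T * (w ^ a * FB r w) * ((d : ℝ) ^ a * D2 * Z)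
        = 2 ^ T * (w * d) ^ a * ((FB r w * D2) * Z) := by rw [mul_pow]; ring
      _ ≤ 2 ^ T * (w * d) ^ a * (Y * Z) := by
          apply mul_le_mul_of_nonneg_left _ (by positivity)
          exact mul_le_mul_of_nonneg_right s2 s4.le
      _ ≤ W * ((d : ℝ) ^ a * D2) := by rw [← hwn]; exact hle'
      _ ≤ (Q KK w * Z) * ((d : ℝ) ^ a * D2) := mul_le_mul_of_nonneg_right s3 (by positivity)
      _ = _ := by ring
  have hq1 : Q KK w * (v / w) ^ 240 ≤ Q KK v := by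
    have pos4 : PosL K4 := by
      intro z hz
      exact hKK z (by rw [h45]; simp [hz])
    rw [h45, Q_append, Q_append]
    calc Q K4 w * Q K5 w * (v / w) ^ 240 = (Q K4 w * (v / w) ^ 240) * Q K5 w := by ring
      _ ≤ Q K4 v * Q K5 v := mul_le_mul (K4_tail hw15 h0) (Q_mono K5 hK5 hw0.le h0)
          (Q_pos K5 hK5 hw0.le).le (Q_pos K4 pos4 hv0.le).le
  have hvw : 1 ≤ v / w := by rw [le_div_iff₀ hw0]; linarith
  have hFA : FA l v ^ 2 ≤ w ^ a * (v / w) ^ a := by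
    have h1 := FA_tail l hl (v := v) (by linarith)
    calc FA l v ^ 2 ≤ (v ^ l.length) ^ 2 := pow_le_pow_left₀ (FA_nonneg l v) h1 2
      _ = v ^ a := by rw [← pow_mul, ha, mul_comm]
      _ = w ^ a * (v / w) ^ a := by rw [← mul_pow]; congr 1; field_simp
  have hFB := FB_tail r hw0 h0
  rw [← hb] at hFB
  calc 2 ^ T * (FA l v ^ 2 * FB r v)
      ≤ 2 ^ T * ((w ^ a * (v / w) ^ a) * (FB r w * (v / w) ^ b)) := by
        apply mul_le_mul_of_nonneg_left _ (by positivity)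
        exact mul_le_mul hFA hFB (FB_nonneg r hv0.le) (by positivity)
    _ = (2 ^ T * (w ^ a * FB r w)) * (v / w) ^ (a + b) := by rw [pow_add]; ring
    _ ≤ Q KK w * (v / w) ^ 240 := by
        apply mul_le_mul atw (pow_le_pow_right₀ hvw hab) (by positivity) (Q_pos KK hKK hw0.le).le
    _ ≤ Q KK v := hq1

end Pool.Agent.TH250.Z3.CL
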