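import Pool.Agent.TH250.Z3.Base
import Pool.Agent.TH250.Z3.CertLib

set_option autoImplicit false

/-!
# The numerical certificate at the poles: the check
-/

namespace Pool.Agent.TH250.Z3.CP

open Pool.Agent.TH250.Z3.CL (dr mx)

/-- `40 x₁` -/
def q1 (i : ℕ) : ℕ := Nat.div (Nat.add 96000 (Nat.sub (Nat.mul 2 i) 959)) (Nat.mul 2 (Nat.sub (Nat.mul 2 i) 959))

/-- `40 x₂` -/
def q2 (i : ℕ) : ℕ := Nat.div (Nat.add 96000 (Nat.sub (Nat.mul 2 i) 1199)) (Nat.mul 2 (Nat.sub (Nat.mul 2 i) 1199))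

/-- minimum -/
def mn (a b : ℕ) : ℕ := bif Nat.ble a b then a else b

/-- `40 x₃` -/
def q3 (i : ℕ) : ℕ := mn (Nat.div (Nat.add (Nat.mul 80 (Nat.sub (Nat.mul 2 i) 1199)) (Nat.sub 3371 (Nat.mul 2 i)))
  (Nat.mul 2 (Nat.sub 3371 (Nat.mul 2 i)))) 4000

/-- `40 x₄` -/
def q4 (i : ℕ) : ℕ := mx 1 (Nat.div (Nat.add (Nat.mul 80 (Nat.sub (Nat.mul 2 i) 1439)) (Nat.sub 3599 (Nat.mul 2 i)))
  (Nat.mul 2 (Nat.sub 3599 (Nat.mul 2 i))))

/-- exponent of `x₃⁻¹` -/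
def e3 (i : ℕ) : ℕ := bif Nat.ble 40 (q3 i) then Nat.sub i 600 else Nat.sub i 599

/-- exponent of `x₄⁻¹` -/
def e4 (i : ℕ) : ℕ := bif Nat.ble 40 (q4 i) then Nat.sub i 720 else Nat.sub i 719

/-- product over the nodes on the line; `s = 125 (i - 79)²` -/
noncomputable def LN (s : ℕ) (l : List ℕ) : ℕ :=
  List.rec (motive := fun _ => ℕ) 1 (fun a _ ih => Nat.mul (Nat.add s (Nat.mul 72 a)) ih) l

/-- product over the real nodes; `s = 5 i` -/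
noncomputable def PN (s s' : ℕ) (l : List ℕ) : ℕ :=
  List.rec (motive := fun _ => ℕ) 1 (fun a _ ih => Nat.mul (mx (dr a s) (dr a s')) ih) l

/-- numerator of the residue part -/
def AN (i : ℕ) : ℕ :=
  Nat.mul (Nat.mul (Nat.mul (Nat.pow (Nat.add 40 (q1 i)) (Nat.add i 121)) (Nat.pow 40 600))
    (Nat.mul (Nat.pow (Nat.add 40 (q2 i)) (Nat.add i 1)) (Nat.pow 40 600)))
  (Nat.mul (Nat.mul (Nat.pow (Nat.add 40 (q3 i)) 1080) (Nat.pow 40 (e3 i)))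
    (Nat.mul (Nat.pow (Nat.add 40 (q4 i)) 1080) (Nat.pow 40 (e4 i))))

/-- denominator of the residue part -/
def BN (i : ℕ) : ℕ :=
  Nat.mul (Nat.mul (Nat.mul (Nat.pow 40 (Nat.add i 121)) (Nat.pow (q1 i) 600))
    (Nat.mul (Nat.pow 40 (Nat.add i 1)) (Nat.pow (q2 i) 600)))
  (Nat.mul (Nat.mul (Nat.pow 40 1080) (Nat.pow (q3 i) (e3 i)))
    (Nat.mul (Nat.pow 40 1080) (Nat.pow (q4 i) (e4 i))))

/-- the check in the cell `i` for the stage with exponent `T`, nodes `l`, `r`; `U = UU` -/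
noncomputable def chk (U T a b : ℕ) (l r : List ℕ) (i : ℕ) : Bool :=
  Nat.ble (Nat.mul (Nat.mul (Nat.pow 2 (Nat.mul 2 T)) (AN i))
      (Nat.pow (Nat.mul (LN (Nat.mul 125 (Nat.pow (Nat.sub i 79) 2)) l)
        (PN (Nat.mul 5 i) (Nat.add (Nat.mul 5 i) 5) r)) 4))
    (Nat.mul (Nat.mul (BN i) (Nat.pow 2 (Nat.mul 2 U)))
      (Nat.mul (Nat.pow 7200000 (Nat.mul 4 a)) (Nat.pow 1200 (Nat.mul 4 b))))

/-- `f 0, …, f (n - 1)` -/
noncomputable def allN (f : ℕ → Bool) (n : ℕ) : Bool :=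
  Nat.rec (motive := fun _ => Bool) true (fun i ih => and (f i) ih) n

theorem allN_spec (f : ℕ → Bool) : ∀ (n : ℕ), allN f n = true → ∀ i < n, f i = true := by
  intro n
  induction n with
  | zero => intro _ i hi; omega
  | succ n ih =>
    intro h i hi
    have e : allN f (n + 1) = (f n && allN f n) := rfl
    rw [e, Bool.and_eq_true] at h
    rcases Nat.lt_succ_iff_lt_or_eq.1 hi with h1 | h1
    · exact ih h.2 i h1
    · rw [h1]; exact h.1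

/-- the positivity check -/
def chkq (i : ℕ) : Bool := and (Nat.ble 1 (q1 i)) (and (Nat.ble 1 (q2 i)) (and (Nat.ble 1 (q3 i)) (Nat.ble 1 (q4 i))))

theorem chkq_all : allN (fun j => chkq (Nat.add 720 j)) 961 = true := by decide +kernel

theorem q_pos {i : ℕ} (h0 : 720 ≤ i) (h1 : i ≤ 1680) : 1 ≤ q1 i ∧ 1 ≤ q2 i ∧ 1 ≤ q3 i ∧ 1 ≤ q4 i := by
  have h := allN_spec _ 961 chkq_all (i - 720) (by omega)
  have e : Nat.add 720 (i - 720) = i := by show 720 + (i - 720) = i; omega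
  rw [e] at h
  unfold chkq at h
  change (Nat.ble 1 (q1 i) && (Nat.ble 1 (q2 i) && (Nat.ble 1 (q3 i) && Nat.ble 1 (q4 i)))) = true at h
  simp only [Bool.and_eq_true] at h
  exact ⟨Nat.le_of_ble_eq_true h.1, Nat.le_of_ble_eq_true h.2.1, Nat.le_of_ble_eq_true h.2.2.1,
    Nat.le_of_ble_eq_true h.2.2.2⟩

theorem chk_spec {U T a b : ℕ} {l r : List ℕ} {i : ℕ} (h : chk U T a b l r i = true) :
    2 ^ (2 * T) * AN i * (LN (125 * (i - 79) ^ 2) l * PN (5 * i) (5 * i + 5) r) ^ 4 ≤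
      BN i * 2 ^ (2 * U) * (7200000 ^ (4 * a) * 1200 ^ (4 * b)) := Nat.le_of_ble_eq_true h

theorem LN_cons (s a : ℕ) (l : List ℕ) : LN s (a :: l) = (s + 72 * a) * LN s l := rfl

theorem PN_cons (s s' a : ℕ) (l : List ℕ) : PN s s' (a :: l) = mx (dr a s) (dr a s') * PN s s' l := rfl

end Pool.Agent.TH250.Z3.CP
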