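import Pool.Agent.TH250.Z3.CertP

set_option autoImplicit false

/-! certificates at the poles -/

namespace Pool.Agent.TH250.Z3.CP

/-- nodes on the line -/
def l0 : List ℕ :=
  []

/-- real nodes -/
def r0 : List ℕ :=
  []

/-- nodes on the line -/
def l1 : List ℕ :=
  [30, 274, 784, 1608, 2859, 4843]

/-- real nodes -/
def r1 : List ℕ :=
  []

/-- nodes on the line -/
def l2 : List ℕ :=
  [12, 106, 297, 586, 978, 1478, 2094, 2838, 3722, 4764, 5991, 7438, 9160, 11245, 13869, 17489]

/-- real nodes -/
def r2 : List ℕ :=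
  []

/-- nodes on the line -/
def l3 : List ℕ :=
  [7, 65, 181, 356, 591, 887, 1246, 1671, 2163, 2725, 3362, 4077, 4876, 5764, 6748, 7836, 9039, 10366,
   11835, 13462, 15273, 17300, 19588, 22208, 25272, 29004, 33987]

/-- real nodes -/
def r3 : List ℕ :=
  []

/-- nodes on the line -/
def l4 : List ℕ :=
  [6, 50, 139, 273, 452, 678, 950, 1270, 1639, 2058, 2529, 3054, 3635, 4273, 4972, 5734, 6562, 7461,
   8433, 9484, 10619, 11843, 13164, 14590, 16129, 17795, 19599, 21559, 23697, 26040, 28626, 31508,
   34764, 38528, 43055, 49025]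

/-- real nodes -/
def r4 : List ℕ :=
  []

/-- nodes on the line -/
def l5 : List ℕ :=
  [4, 39, 107, 210, 348, 521, 729, 973, 1253, 1571, 1926, 2320, 2754, 3228, 3743, 4302, 4904, 5552,
   6247, 6991, 7785, 8631, 9532, 10491, 11508, 12589, 13734, 14949, 16236, 17600, 19046, 20578, 22204,
   23930, 25763, 27714, 29793, 32014, 34391, 36946, 39701, 42691, 45957, 49563, 53599, 58221, 63728,
   70916]

/-- real nodes -/
def r5 : List ℕ :=
  []

/-- nodes on the line -/
def l6 : List ℕ :=
  [4, 33, 90, 177, 293, 439, 614, 819, 1055, 1321, 1618, 1947, 2308, 2702, 3130, 3591, 4088, 4620,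
   5189, 5796, 6441, 7126, 7852, 8620, 9432, 10289, 11192, 12143, 13144, 14196, 15303, 16466, 17687,
   18969, 20316, 21729, 23213, 24771, 26408, 28128, 29936, 31839, 33842, 35955, 38184, 40542, 43039,
   45691, 48514, 51531, 54769, 58264, 62063, 66236, 70885, 76182, 82460, 90610]

/-- real nodes -/
def r6 : List ℕ :=
  []

/-- nodes on the line -/
def l7 : List ℕ :=
  [3, 29, 82, 160, 265, 397, 555, 741, 953, 1193, 1461, 1757, 2082, 2436, 2820, 3233, 3678, 4154, 4661,
   5202, 5776, 6384, 7027, 7707, 8423, 9177, 9970, 10803, 11678, 12595, 13556, 14562, 15615, 16717,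
   17870, 19074, 20333, 21649, 23023, 24458, 25958, 27526, 29163, 30875, 32666, 34539, 36500, 38554,
   40708, 42969, 45344, 47844, 50479, 53262, 56208, 59337, 62671, 66240, 70082, 74249, 78813, 83885,
   89649, 96462, 105280]

/-- real nodes -/
def r7 : List ℕ :=
  [6627, 6728, 6813, 6894, 6972, 7051, 7134, 7231]

/-- nodes on the line -/
def l8 : List ℕ :=
  [3, 26, 71, 140, 232, 347, 485, 646, 831, 1040, 1273, 1531, 1812, 2119, 2451, 2809, 3193, 3603, 4040,
   4504, 4996, 5517, 6066, 6645, 7254, 7894, 8565, 9268, 10004, 10774, 11579, 12418, 13294, 14207,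
   15159, 16149, 17180, 18253, 19368, 20528, 21733, 22985, 24286, 25637, 27041, 28498, 30012, 31584,
   33217, 34914, 36677, 38509, 40413, 42394, 44455, 46601, 48837, 51167, 53599, 56138, 58794, 61574,
   64489, 67551, 70775, 74177, 77777, 81602, 85683, 90063, 94798, 99969, 105698, 112187, 119832, 129690]

/-- real nodes -/
def r8 : List ℕ :=
  [6340, 6420, 6486, 6546, 6601, 6653, 6703, 6752, 6799, 6845, 6891, 6936, 6981, 7026, 7071, 7117,
   7163, 7209, 7257, 7307, 7358, 7414, 7475, 7548]

/-- nodes on the line -/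
def l9 : List ℕ :=
  [2, 21, 60, 117, 194, 289, 405, 539, 693, 867, 1061, 1274, 1508, 1762, 2037, 2333, 2649, 2987, 3347,
   3728, 4131, 4557, 5006, 5478, 5973, 6492, 7035, 7603, 8196, 8814, 9459, 10130, 10827, 11552, 12305,
   13087, 13897, 14737, 15608, 16509, 17442, 18407, 19406, 20438, 21504, 22606, 23744, 24920, 26133,
   27386, 28679, 30013, 31389, 32809, 34274, 35785, 37344, 38952, 40611, 42322, 44088, 45910, 47790,
   49731, 51734, 53803, 55940, 58148, 60431, 62791, 65233, 67761, 70379, 73092, 75906, 78827, 81863,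
   85020, 88308, 91738, 95320, 99069, 103001, 107135, 111495, 116110, 121018, 126266, 131920, 138073,
   144866, 152531, 161528, 173077]

/-- real nodes -/
def r9 : List ℕ :=
  [6044, 6113, 6170, 6220, 6266, 6310, 6351, 6391, 6429, 6466, 6502, 6537, 6572, 6605, 6639, 6672,
   6704, 6736, 6768, 6799, 6830, 6861, 6892, 6922, 6953, 6983, 7013, 7043, 7073, 7103, 7134, 7164,
   7194, 7224, 7254, 7285, 7315, 7346, 7378, 7409, 7441, 7473, 7506, 7539, 7574, 7609, 7645, 7683,
   7723, 7766, 7814, 7872]

theorem p0_0 : allN (fun j => chk 3388 0 0 0 l0 r0 (Nat.add 720 j)) 320 = true := by decide +kernel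

theorem p0_1 : allN (fun j => chk 3388 0 0 0 l0 r0 (Nat.add 1040 j)) 320 = true := by decide +kernel

theorem p0_2 : allN (fun j => chk 3388 0 0 0 l0 r0 (Nat.add 1360 j)) 321 = true := by decide +kernel

theorem p1_0 : allN (fun j => chk 3388 85 6 0 l1 r1 (Nat.add 720 j)) 320 = true := by decide +kernel

theorem p1_1 : allN (fun j => chk 3388 85 6 0 l1 r1 (Nat.add 1040 j)) 320 = true := by decide +kernel

theorem p1_2 : allN (fun j => chk 3388 85 6 0 l1 r1 (Nat.add 1360 j)) 321 = true := by decide +kernel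

theorem p2_0 : allN (fun j => chk 3388 182 16 0 l2 r2 (Nat.add 720 j)) 320 = true := by decide +kernel

theorem p2_1 : allN (fun j => chk 3388 182 16 0 l2 r2 (Nat.add 1040 j)) 320 = true := by decide +kernel

theorem p2_2 : allN (fun j => chk 3388 182 16 0 l2 r2 (Nat.add 1360 j)) 321 = true := by decide +kernel

theorem p3_0 : allN (fun j => chk 3388 264 27 0 l3 r3 (Nat.add 720 j)) 320 = true := by decide +kernel

theorem p3_1 : allN (fun j => chk 3388 264 27 0 l3 r3 (Nat.add 1040 j)) 320 = true := by decide +kernel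

theorem p3_2 : allN (fun j => chk 3388 264 27 0 l3 r3 (Nat.add 1360 j)) 321 = true := by decide +kernel

theorem p4_0 : allN (fun j => chk 3388 319 36 0 l4 r4 (Nat.add 720 j)) 320 = true := by decide +kernel

theorem p4_1 : allN (fun j => chk 3388 319 36 0 l4 r4 (Nat.add 1040 j)) 320 = true := by decide +kernel

theorem p4_2 : allN (fun j => chk 3388 319 36 0 l4 r4 (Nat.add 1360 j)) 321 = true := by decide +kernel

theorem p5_0 : allN (fun j => chk 3388 381 48 0 l5 r5 (Nat.add 720 j)) 320 = true := by decide +kernel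

theorem p5_1 : allN (fun j => chk 3388 381 48 0 l5 r5 (Nat.add 1040 j)) 320 = true := by decide +kernel

theorem p5_2 : allN (fun j => chk 3388 381 48 0 l5 r5 (Nat.add 1360 j)) 321 = true := by decide +kernel

theorem p6_0 : allN (fun j => chk 3388 424 58 0 l6 r6 (Nat.add 720 j)) 320 = true := by decide +kernel

theorem p6_1 : allN (fun j => chk 3388 424 58 0 l6 r6 (Nat.add 1040 j)) 320 = true := by decide +kernel

theorem p6_2 : allN (fun j => chk 3388 424 58 0 l6 r6 (Nat.add 1360 j)) 321 = true := by decide +kernel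

theorem p7_0 : allN (fun j => chk 3388 411 65 8 l7 r7 (Nat.add 720 j)) 320 = true := by decide +kernel

theorem p7_1 : allN (fun j => chk 3388 411 65 8 l7 r7 (Nat.add 1040 j)) 320 = true := by decide +kernel

theorem p7_2 : allN (fun j => chk 3388 411 65 8 l7 r7 (Nat.add 1360 j)) 321 = true := by decide +kernel

theorem p8_0 : allN (fun j => chk 3388 369 76 24 l8 r8 (Nat.add 720 j)) 320 = true := by decide +kernel

theorem p8_1 : allN (fun j => chk 3388 369 76 24 l8 r8 (Nat.add 1040 j)) 320 = true := by decide +kernel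

theorem p8_2 : allN (fun j => chk 3388 369 76 24 l8 r8 (Nat.add 1360 j)) 321 = true := by decide +kernel

theorem p9_0 : allN (fun j => chk 3388 276 94 52 l9 r9 (Nat.add 720 j)) 320 = true := by decide +kernel

theorem p9_1 : allN (fun j => chk 3388 276 94 52 l9 r9 (Nat.add 1040 j)) 320 = true := by decide +kernel

theorem p9_2 : allN (fun j => chk 3388 276 94 52 l9 r9 (Nat.add 1360 j)) 321 = true := by decide +kernel

theorem cp0 {i : ℕ} (h0 : 720 ≤ i) (h1 : i ≤ 1680) : chk 3388 0 0 0 l0 r0 i = true := by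
  rcases lt_or_ge i 1040 with h | h
  · have h2 := allN_spec _ 320 p0_0 (i - 720) (by omega)
    have e : Nat.add 720 (i - 720) = i := by show 720 + (i - 720) = i; omega
    rw [e] at h2
    exact h2
  rcases lt_or_ge i 1360 with h | h
  · have h2 := allN_spec _ 320 p0_1 (i - 1040) (by omega)
    have e : Nat.add 1040 (i - 1040) = i := by show 1040 + (i - 1040) = i; omega
    rw [e] at h2
    exact h2
  have h2 := allN_spec _ 321 p0_2 (i - 1360) (by omega)
  have e : Nat.add 1360 (i - 1360) = i := by show 1360 + (i - 1360) = i; omega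
  rw [e] at h2
  exact h2

theorem cp1 {i : ℕ} (h0 : 720 ≤ i) (h1 : i ≤ 1680) : chk 3388 85 6 0 l1 r1 i = true := by
  rcases lt_or_ge i 1040 with h | h
  · have h2 := allN_spec _ 320 p1_0 (i - 720) (by omega)
    have e : Nat.add 720 (i - 720) = i := by show 720 + (i - 720) = i; omega
    rw [e] at h2
    exact h2
  rcases lt_or_ge i 1360 with h | h
  · have h2 := allN_spec _ 320 p1_1 (i - 1040) (by omega)
    have e : Nat.add 1040 (i - 1040) = i := by show 1040 + (i - 1040) = i; omega
    rw [e] at h2
    exact h2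
  have h2 := allN_spec _ 321 p1_2 (i - 1360) (by omega)
  have e : Nat.add 1360 (i - 1360) = i := by show 1360 + (i - 1360) = i; omega
  rw [e] at h2
  exact h2

theorem cp2 {i : ℕ} (h0 : 720 ≤ i) (h1 : i ≤ 1680) : chk 3388 182 16 0 l2 r2 i = true := by
  rcases lt_or_ge i 1040 with h | h
  · have h2 := allN_spec _ 320 p2_0 (i - 720) (by omega)
    have e : Nat.add 720 (i - 720) = i := by show 720 + (i - 720) = i; omega
    rw [e] at h2
    exact h2
  rcases lt_or_ge i 1360 with h | h
  · have h2 := allN_spec _ 320 p2_1 (i - 1040) (by omega)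
    have e : Nat.add 1040 (i - 1040) = i := by show 1040 + (i - 1040) = i; omega
    rw [e] at h2
    exact h2
  have h2 := allN_spec _ 321 p2_2 (i - 1360) (by omega)
  have e : Nat.add 1360 (i - 1360) = i := by show 1360 + (i - 1360) = i; omega
  rw [e] at h2
  exact h2

theorem cp3 {i : ℕ} (h0 : 720 ≤ i) (h1 : i ≤ 1680) : chk 3388 264 27 0 l3 r3 i = true := by
  rcases lt_or_ge i 1040 with h | h
  · have h2 := allN_spec _ 320 p3_0 (i - 720) (by omega)
    have e : Nat.add 720 (i - 720) = i := by show 720 + (i - 720) = i; omega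
    rw [e] at h2
    exact h2
  rcases lt_or_ge i 1360 with h | h
  · have h2 := allN_spec _ 320 p3_1 (i - 1040) (by omega)
    have e : Nat.add 1040 (i - 1040) = i := by show 1040 + (i - 1040) = i; omega
    rw [e] at h2
    exact h2
  have h2 := allN_spec _ 321 p3_2 (i - 1360) (by omega)
  have e : Nat.add 1360 (i - 1360) = i := by show 1360 + (i - 1360) = i; omega
  rw [e] at h2
  exact h2

theorem cp4 {i : ℕ} (h0 : 720 ≤ i) (h1 : i ≤ 1680) : chk 3388 319 36 0 l4 r4 i = true := by
  rcases lt_or_ge i 1040 with h | h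
  · have h2 := allN_spec _ 320 p4_0 (i - 720) (by omega)
    have e : Nat.add 720 (i - 720) = i := by show 720 + (i - 720) = i; omega
    rw [e] at h2
    exact h2
  rcases lt_or_ge i 1360 with h | h
  · have h2 := allN_spec _ 320 p4_1 (i - 1040) (by omega)
    have e : Nat.add 1040 (i - 1040) = i := by show 1040 + (i - 1040) = i; omega
    rw [e] at h2
    exact h2
  have h2 := allN_spec _ 321 p4_2 (i - 1360) (by omega)
  have e : Nat.add 1360 (i - 1360) = i := by show 1360 + (i - 1360) = i; omega
  rw [e] at h2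
  exact h2

theorem cp5 {i : ℕ} (h0 : 720 ≤ i) (h1 : i ≤ 1680) : chk 3388 381 48 0 l5 r5 i = true := by
  rcases lt_or_ge i 1040 with h | h
  · have h2 := allN_spec _ 320 p5_0 (i - 720) (by omega)
    have e : Nat.add 720 (i - 720) = i := by show 720 + (i - 720) = i; omega
    rw [e] at h2
    exact h2
  rcases lt_or_ge i 1360 with h | h
  · have h2 := allN_spec _ 320 p5_1 (i - 1040) (by omega)
    have e : Nat.add 1040 (i - 1040) = i := by show 1040 + (i - 1040) = i; omega
    rw [e] at h2
    exact h2
  have h2 := allN_spec _ 321 p5_2 (i - 1360) (by omega)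
  have e : Nat.add 1360 (i - 1360) = i := by show 1360 + (i - 1360) = i; omega
  rw [e] at h2
  exact h2

theorem cp6 {i : ℕ} (h0 : 720 ≤ i) (h1 : i ≤ 1680) : chk 3388 424 58 0 l6 r6 i = true := by
  rcases lt_or_ge i 1040 with h | h
  · have h2 := allN_spec _ 320 p6_0 (i - 720) (by omega)
    have e : Nat.add 720 (i - 720) = i := by show 720 + (i - 720) = i; omega
    rw [e] at h2
    exact h2
  rcases lt_or_ge i 1360 with h | h
  · have h2 := allN_spec _ 320 p6_1 (i - 1040) (by omega)
    have e : Nat.add 1040 (i - 1040) = i := by show 1040 + (i - 1040) = i; omega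
    rw [e] at h2
    exact h2
  have h2 := allN_spec _ 321 p6_2 (i - 1360) (by omega)
  have e : Nat.add 1360 (i - 1360) = i := by show 1360 + (i - 1360) = i; omega
  rw [e] at h2
  exact h2

theorem cp7 {i : ℕ} (h0 : 720 ≤ i) (h1 : i ≤ 1680) : chk 3388 411 65 8 l7 r7 i = true := by
  rcases lt_or_ge i 1040 with h | h
  · have h2 := allN_spec _ 320 p7_0 (i - 720) (by omega)
    have e : Nat.add 720 (i - 720) = i := by show 720 + (i - 720) = i; omega
    rw [e] at h2
    exact h2
  rcases lt_or_ge i 1360 with h | h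
  · have h2 := allN_spec _ 320 p7_1 (i - 1040) (by omega)
    have e : Nat.add 1040 (i - 1040) = i := by show 1040 + (i - 1040) = i; omega
    rw [e] at h2
    exact h2
  have h2 := allN_spec _ 321 p7_2 (i - 1360) (by omega)
  have e : Nat.add 1360 (i - 1360) = i := by show 1360 + (i - 1360) = i; omega
  rw [e] at h2
  exact h2

theorem cp8 {i : ℕ} (h0 : 720 ≤ i) (h1 : i ≤ 1680) : chk 3388 369 76 24 l8 r8 i = true := by
  rcases lt_or_ge i 1040 with h | h
  · have h2 := allN_spec _ 320 p8_0 (i - 720) (by omega)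
    have e : Nat.add 720 (i - 720) = i := by show 720 + (i - 720) = i; omega
    rw [e] at h2
    exact h2
  rcases lt_or_ge i 1360 with h | h
  · have h2 := allN_spec _ 320 p8_1 (i - 1040) (by omega)
    have e : Nat.add 1040 (i - 1040) = i := by show 1040 + (i - 1040) = i; omega
    rw [e] at h2
    exact h2
  have h2 := allN_spec _ 321 p8_2 (i - 1360) (by omega)
  have e : Nat.add 1360 (i - 1360) = i := by show 1360 + (i - 1360) = i; omega
  rw [e] at h2
  exact h2

theorem cp9 {i : ℕ} (h0 : 720 ≤ i) (h1 : i ≤ 1680) : chk 3388 276 94 52 l9 r9 i = true := by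
  rcases lt_or_ge i 1040 with h | h
  · have h2 := allN_spec _ 320 p9_0 (i - 720) (by omega)
    have e : Nat.add 720 (i - 720) = i := by show 720 + (i - 720) = i; omega
    rw [e] at h2
    exact h2
  rcases lt_or_ge i 1360 with h | h
  · have h2 := allN_spec _ 320 p9_1 (i - 1040) (by omega)
    have e : Nat.add 1040 (i - 1040) = i := by show 1040 + (i - 1040) = i; omega
    rw [e] at h2
    exact h2
  have h2 := allN_spec _ 321 p9_2 (i - 1360) (by omega)
  have e : Nat.add 1360 (i - 1360) = i := by show 1360 + (i - 1360) = i; omega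
  rw [e] at h2
  exact h2

end Pool.Agent.TH250.Z3.CP
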