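import Pool.Agent.TH250.Z3.CertL1
import Pool.Agent.TH250.Z3.CertL2
import Pool.Agent.TH250.Z3.CertL3
import Pool.Agent.TH250.Z3.CertL4
import Pool.Agent.TH250.Z3.CertL5
import Pool.Agent.TH250.Z3.CertL6
import Pool.Agent.TH250.Z3.CertL7
import Pool.Agent.TH250.Z3.CertL8
import Pool.Agent.TH250.Z3.CertL9

/-!
# The certificate on the line
-/

namespace Pool.Agent.TH250.Z3

open Pool.Agent.TH250.Z3.CL

theorem FL_eq (b : ℕ) (v : ℝ) : FL b v = FA (LT b) v ^ 2 * FB (PT b) v := rfl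

theorem FXp_one_le {v : ℝ} (hv : 0 ≤ v) : 1 ≤ FXp v := by
  unfold FXp
  generalize FXG = L
  induction L with
  | nil => simp
  | cons x L ih =>
    rw [List.map_cons, List.prod_cons]
    have h1 : (1 : ℝ) ≤ (1 + v / (x.1 : ℝ) ^ 2) ^ x.2 := by
      apply one_le_pow₀
      have : 0 ≤ v / (x.1 : ℝ) ^ 2 := by positivity
      linarith
    exact one_le_mul_of_one_le_of_one_le h1 ih

theorem G3 : StG3 := by
  intro b hb v hv
  rw [FL_eq]
  have hb' : b = 0 ∨ b = 1 ∨ b = 2 ∨ b = 3 ∨ b = 4 ∨ b = 5 ∨ b = 6 ∨ b = 7 ∨ b = 8 ∨ b = 9 := by omega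
  rcases hb' with rfl | rfl | rfl | rfl | rfl | rfl | rfl | rfl | rfl | rfl
  · have e : (2 : ℝ) ^ tG 0 * (FA (LT 0) v ^ 2 * FB (PT 0) v) = 1 := by
      simp [tG, LT, PT, FA, FB]
    rw [e]
    exact FXp_one_le hv
  · exact cert1 hv
  · exact cert2 hv
  · exact cert3 hv
  · exact cert4 hv
  · exact cert5 hv
  · exact cert6 hv
  · exact cert7 hv
  · exact cert8 hv
  · exact cert9 hv

end Pool.Agent.TH250.Z3
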