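import Pool.Agent.TH250.Z3.LineR
import Pool.Agent.W790.Z3.G1m

set_option autoImplicit false

/-!
# Comparison with the product `FXp`
-/

open Polynomial Pool.Agent.H337R2 Filter Topology

namespace Pool.Agent.TH250.Z3

noncomputable section

lemma block_WW (A L : ℕ) (y : ℝ) (hL : 1 ≤ L) :
    (1 + y ^ 2 / ((A : ℝ) + L / 2) ^ 2) ^ L ≤ WW y A (A + L) :=
  Pool.Agent.W790.Z3.block A L (y ^ 2) (sq_nonneg y) hL

lemma one_le_WW (y : ℝ) (a b : ℕ) : 1 ≤ WW y a b := Pool.Agent.W790.Z3.one_le_PF1 y a b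

/-- a shift of the centre costs a constant -/
lemma slack {X A Y : ℝ} {L : ℕ} (hX : 1000 ≤ X) (hA : 0 ≤ A) (hL : 1 ≤ L) (h : A + L / 2 ≤ X + 1000)
    (hY : 0 ≤ Y) : (1 + Y / X ^ 2) ^ L ≤ Real.exp 8000 * (1 + Y / (A + L / 2) ^ 2) ^ L := by
  have hX0 : 0 < X := by linarith
  have hL1 : (1 : ℝ) ≤ L := by exact_mod_cast hL
  have hB0 : 0 < A + (L : ℝ) / 2 := by linarith
  have h1 : 1 + Y / X ^ 2 ≤ (1 + 1000 / X) ^ 2 * (1 + Y / (A + L / 2) ^ 2) := by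
    have e1 : (1 + 1000 / X) ^ 2 * (1 + Y / (X + 1000) ^ 2) = ((X + 1000) ^ 2 + Y) / X ^ 2 := by
      field_simp
    have e2 : 1 + Y / X ^ 2 = (X ^ 2 + Y) / X ^ 2 := by field_simp
    have h2 : 1 + Y / X ^ 2 ≤ (1 + 1000 / X) ^ 2 * (1 + Y / (X + 1000) ^ 2) := by
      rw [e1, e2]
      apply div_le_div_of_nonneg_right _ (by positivity)
      nlinarith
    refine h2.trans ?_
    apply mul_le_mul_of_nonneg_left _ (by positivity)
    have : Y / (X + 1000) ^ 2 ≤ Y / (A + L / 2) ^ 2 := by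
      apply div_le_div_of_nonneg_left hY (by positivity)
      exact pow_le_pow_left₀ hB0.le h 2
    linarith
  have h3 : (1 + 1000 / X) ^ 2 ≤ Real.exp (2000 / X) := by
    have h4 : 1 + 1000 / X ≤ Real.exp (1000 / X) := by
      have := Real.add_one_le_exp (1000 / X)
      linarith
    calc (1 + 1000 / X) ^ 2 ≤ Real.exp (1000 / X) ^ 2 := pow_le_pow_left₀ (by positivity) h4 2
      _ = Real.exp (2000 / X) := by
        rw [← Real.exp_nat_mul]; congr 1; push_cast; ring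
  have h5 : Real.exp (2000 / X) ^ L ≤ Real.exp 8000 := by
    rw [← Real.exp_nat_mul]
    apply Real.exp_le_exp.2
    have h6 : (L : ℝ) ≤ 4 * X := by linarith
    have h7 : (L : ℝ) * (2000 / X) = 2000 * (L / X) := by ring
    have h8 : (L : ℝ) / X ≤ 4 := by rw [div_le_iff₀ hX0]; exact h6
    rw [h7]; linarith
  calc (1 + Y / X ^ 2) ^ L ≤ ((1 + 1000 / X) ^ 2 * (1 + Y / (A + L / 2) ^ 2)) ^ L :=
        pow_le_pow_left₀ (by positivity) h1 L
    _ = ((1 + 1000 / X) ^ 2) ^ L * (1 + Y / (A + L / 2) ^ 2) ^ L := mul_pow _ _ _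
    _ ≤ Real.exp 8000 * (1 + Y / (A + L / 2) ^ 2) ^ L := by
        apply mul_le_mul_of_nonneg_right _ (by positivity)
        exact (pow_le_pow_left₀ (by positivity) h3 L).trans h5

/-- admissible chains of blocks `(A, L, c)` -/
def good (N : ℕ) (b : ℕ) : ℕ → List (ℕ × ℕ × ℚ) → Prop
  | a, [] => a ≤ b
  | a, x :: t => a ≤ x.1 ∧ 1 ≤ x.2.1 ∧ (1000 : ℝ) ≤ (x.2.2 : ℝ) * (120 * N) ∧
      (x.1 : ℝ) + x.2.1 / 2 ≤ (x.2.2 : ℝ) * (120 * N) + 1000 ∧ good N b (x.1 + x.2.1) t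

lemma good_le (N b : ℕ) (l : List (ℕ × ℕ × ℚ)) : ∀ a, good N b a l → a ≤ b := by
  induction l with
  | nil => intro a h; exact h
  | cons x t ih =>
    intro a h
    obtain ⟨h1, h2, h3, h4, h5⟩ := h
    have := ih _ h5
    omega

/-- lower bound of a chain -/
def cpr (g : ℚ → ℝ) (l : List (ℕ × ℕ × ℚ)) : ℝ := (l.map fun x => g x.2.2 ^ x.2.1).prod

lemma cpr_nonneg (g : ℚ → ℝ) (hg : ∀ q, 0 ≤ g q) (l : List (ℕ × ℕ × ℚ)) : 0 ≤ cpr g l := by
  unfold cpr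
  apply List.prod_nonneg
  intro z hz
  obtain ⟨w, _, rfl⟩ := List.mem_map.mp hz
  exact pow_nonneg (hg _) _

lemma chain (N : ℕ) (hN : 1 ≤ N) (y : ℝ) (g : ℚ → ℝ)
    (hg : ∀ q : ℚ, g q = 1 + (y / (120 * N)) ^ 2 / (q : ℝ) ^ 2)
    (b : ℕ) (l : List (ℕ × ℕ × ℚ)) : ∀ a, good N b a l →
    cpr g l ≤ Real.exp 8000 ^ l.length * WW y a b := by
  have hg0 : ∀ q, 0 ≤ g q := fun q => by rw [hg]; positivity
  have hE : (1 : ℝ) ≤ Real.exp 8000 := Real.one_le_exp (by norm_num)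
  induction l with
  | nil => intro a h; simpa [cpr] using one_le_WW y a b
  | cons x t ih =>
    intro a h
    obtain ⟨h1, h2, h3, h4, h5⟩ := h
    have h6 := good_le _ _ _ _ h5
    have hN' : (0 : ℝ) < N := by exact_mod_cast hN
    have hcons : cpr g (x :: t) = g x.2.2 ^ x.2.1 * cpr g t := by
      simp [cpr]
    have hq : 0 < (x.2.2 : ℝ) := by
      by_contra hq
      have : (x.2.2 : ℝ) * (120 * N) ≤ 0 := mul_nonpos_of_nonpos_of_nonneg (not_lt.1 hq) (by positivity)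
      linarith
    rw [hcons, List.length_cons, pow_succ, ← WW_cons y (h1.trans (Nat.le_add_right x.1 x.2.1)) h6,
      ← WW_cons y h1 (Nat.le_add_right _ _)]
    have hA : g x.2.2 ^ x.2.1 ≤ Real.exp 8000 * WW y x.1 (x.1 + x.2.1) := by
      have s1 := slack h3 (Nat.cast_nonneg x.1) h2 h4 (sq_nonneg y)
      have e : g x.2.2 = 1 + y ^ 2 / ((x.2.2 : ℝ) * (120 * N)) ^ 2 := by
        rw [hg]
        have : (y / (120 * N)) ^ 2 / (x.2.2 : ℝ) ^ 2 = y ^ 2 / ((x.2.2 : ℝ) * (120 * N)) ^ 2 := by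
          field_simp
        rw [this]
      rw [e]
      refine s1.trans ?_
      exact mul_le_mul_of_nonneg_left (block_WW x.1 x.2.1 y h2) (Real.exp_pos _).le
    have hB := ih _ h5
    have hC : 0 ≤ cpr g t := cpr_nonneg g hg0 t
    have hD := one_le_WW y a x.1
    have hE1 := one_le_WW y x.1 (x.1 + x.2.1)
    have hE2 := one_le_WW y (x.1 + x.2.1) b
    set E := Real.exp 8000 with hEdef
    set P := E ^ t.length with hP
    have hP0 : 0 ≤ P := by positivity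
    calc g x.2.2 ^ x.2.1 * cpr g t
        ≤ (E * WW y x.1 (x.1 + x.2.1)) * (P * WW y (x.1 + x.2.1) b) :=
          mul_le_mul hA hB hC (by positivity)
      _ = (P * E) * (1 * WW y x.1 (x.1 + x.2.1) * WW y (x.1 + x.2.1) b) := by ring
      _ ≤ (P * E) * (WW y a x.1 * WW y x.1 (x.1 + x.2.1) * WW y (x.1 + x.2.1) b) := by
          apply mul_le_mul_of_nonneg_left _ (by positivity)
          apply mul_le_mul_of_nonneg_right _ (by linarith)
          exact mul_le_mul_of_nonneg_right hD (by linarith)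

/-- chain 1 -/
def ch1 (c N : ℕ) : List (ℕ × ℕ × ℚ) :=
  [(c, 10 * N, 3 / 8), (c + 10 * N, 10 * N, 11 / 24), (c + 20 * N, 10 * N, 13 / 24),
   (c + 30 * N, 10 * N, 5 / 8), (c + 40 * N, 10 * N, 17 / 24), (c + 50 * N, 10 * N, 19 / 24)]

/-- chain 2 -/
def ch2 (c N : ℕ) : List (ℕ × ℕ × ℚ) :=
  [(c, 20 * N, 11 / 12), (c + 20 * N, 20 * N, 13 / 12), (c + 40 * N, 20 * N, 5 / 4),
   (c + 60 * N, 20 * N, 17 / 12), (c + 80 * N, 20 * N, 19 / 12)]

/-- chain 3 -/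
def ch3 (c N : ℕ) : List (ℕ × ℕ × ℚ) :=
  [(c, 20 * N, 7 / 4), (c + 20 * N, 20 * N, 23 / 12), (c + 40 * N, 20 * N, 25 / 12)]

/-- chain 4 -/
def ch4 (c N : ℕ) : List (ℕ × ℕ × ℚ) :=
  [(c, 20 * N, 9 / 4), (c + 20 * N, 20 * N, 29 / 12), (c + 40 * N, 20 * N, 31 / 12)]

/-- chain 5 -/
def ch5 (c N : ℕ) : List (ℕ × ℕ × ℚ) :=
  [(c, 40 * N, 17 / 6), (c + 40 * N, 40 * N, 19 / 6), (c + 80 * N, 40 * N, 7 / 2),
   (c + 120 * N, 40 * N, 23 / 6), (c + 160 * N, 40 * N, 25 / 6), (c + 200 * N, 40 * N, 9 / 2),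
   (c + 240 * N, 60 * N, 59 / 12), (c + 300 * N, 60 * N, 65 / 12), (c + 360 * N, 60 * N, 71 / 12),
   (c + 420 * N, 60 * N, 77 / 12)]

/-- chain 6 -/
def ch6 (c N : ℕ) : List (ℕ × ℕ × ℚ) :=
  [(c, 60 * N, 83 / 12)]

/-- chain 7 -/
def ch7 (c N : ℕ) : List (ℕ × ℕ × ℚ) :=
  [(c, 100 * N, 91 / 12), (c + 100 * N, 120 * N, 17 / 2), (c + 220 * N, 120 * N, 19 / 2),
   (c + 340 * N, 160 * N, 32 / 3), (c + 500 * N, 200 * N, 73 / 6), (c + 700 * N, 240 * N, 14),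
   (c + 940 * N, 300 * N, 65 / 4), (c + 1240 * N, 360 * N, 19), (c + 1600 * N, 480 * N, 90 / 4),
   (c + 2080 * N, 600 * N, 54 / 2), (c + 2680 * N, 800 * N, 66 / 2), (c + 3480 * N, 1200 * N, 412 / 10),
   (c + 4680 * N, 1600 * N, 212 / 4), (c + 6280 * N, 2400 * N, 696 / 10), (c + 8680 * N, 3600 * N, 190 / 2),
   (c + 12280 * N, 6000 * N, 270 / 2), (c + 18280 * N, 10000 * N, 2020 / 10), (c + 28280 * N, 18000 * N, 1590 / 5),
   (c + 46280 * N, 36000 * N, 5460 / 10), (c + 82280 * N, 72000 * N, 9960 / 10), (c + 154280 * N, 144000 * N, 9480 / 5),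
   (c + 298280 * N, 125, 2500)]

lemma good1 {c d N : ℕ} (hN : 1000 ≤ N) (h2 : c ≤ 40 * N + 1000) (h3 : c + 60 * N ≤ d) : good N d c (ch1 c N) := by
  have h2' : (c : ℝ) ≤ 40 * N + 1000 := by exact_mod_cast h2
  have h1 : (1000 : ℝ) ≤ N := by exact_mod_cast hN
  simp only [ch1, good]
  repeat' apply And.intro
  all_goals first
    | omega
    | (push_cast; linarith)

lemma good2 {c d N : ℕ} (hN : 1000 ≤ N) (h2 : c ≤ 100 * N + 1000) (h3 : c + 100 * N ≤ d) : good N d c (ch2 c N) := by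
  have h2' : (c : ℝ) ≤ 100 * N + 1000 := by exact_mod_cast h2
  have h1 : (1000 : ℝ) ≤ N := by exact_mod_cast hN
  simp only [ch2, good]
  repeat' apply And.intro
  all_goals first
    | omega
    | (push_cast; linarith)

lemma good3 {c d N : ℕ} (hN : 1000 ≤ N) (h2 : c ≤ 200 * N + 1000) (h3 : c + 60 * N ≤ d) : good N d c (ch3 c N) := by
  have h2' : (c : ℝ) ≤ 200 * N + 1000 := by exact_mod_cast h2
  have h1 : (1000 : ℝ) ≤ N := by exact_mod_cast hN
  simp only [ch3, good]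
  repeat' apply And.intro
  all_goals first
    | omega
    | (push_cast; linarith)

lemma good4 {c d N : ℕ} (hN : 1000 ≤ N) (h2 : c ≤ 260 * N + 1000) (h3 : c + 60 * N ≤ d) : good N d c (ch4 c N) := by
  have h2' : (c : ℝ) ≤ 260 * N + 1000 := by exact_mod_cast h2
  have h1 : (1000 : ℝ) ≤ N := by exact_mod_cast hN
  simp only [ch4, good]
  repeat' apply And.intro
  all_goals first
    | omega
    | (push_cast; linarith)

lemma good5 {c d N : ℕ} (hN : 1000 ≤ N) (h2 : c ≤ 320 * N + 1000) (h3 : c + 480 * N ≤ d) : good N d c (ch5 c N) := by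
  have h2' : (c : ℝ) ≤ 320 * N + 1000 := by exact_mod_cast h2
  have h1 : (1000 : ℝ) ≤ N := by exact_mod_cast hN
  simp only [ch5, good]
  repeat' apply And.intro
  all_goals first
    | omega
    | (push_cast; linarith)

lemma good6 {c d N : ℕ} (hN : 1000 ≤ N) (h2 : c ≤ 800 * N + 1000) (h3 : c + 60 * N ≤ d) : good N d c (ch6 c N) := by
  have h2' : (c : ℝ) ≤ 800 * N + 1000 := by exact_mod_cast h2
  have h1 : (1000 : ℝ) ≤ N := by exact_mod_cast hN
  simp only [ch6, good]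
  repeat' apply And.intro
  all_goals first
    | omega
    | (push_cast; linarith)

lemma good7 {c N : ℕ} (hN : 1000 ≤ N) (h2 : c ≤ 860 * N + 1000)  : good N (c + 298280 * N + 125) c (ch7 c N) := by
  have h2' : (c : ℝ) ≤ 860 * N + 1000 := by exact_mod_cast h2
  have h1 : (1000 : ℝ) ≤ N := by exact_mod_cast hN
  simp only [ch7, good]
  repeat' apply And.intro
  all_goals first
    | omega
    | (push_cast; linarith)

lemma key_prod (g : ℚ → ℝ) (a1 a2 a3 a4 a5 a6 a7 N : ℕ) :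
    cpr g (ch1 a1 N) * cpr g (ch2 a2 N) ^ 2 * cpr g (ch3 a3 N) ^ 3 * cpr g (ch4 a4 N) ^ 5 *
      cpr g (ch5 a5 N) ^ 6 * cpr g (ch6 a6 N) ^ 5 * cpr g (ch7 a7 N) ^ 4 =
    ((FXG.map fun x => g x.1 ^ x.2).prod ^ N) ^ 2 * g 2500 ^ 500 := by
  simp only [cpr, ch1, ch2, ch3, ch4, ch5, ch6, ch7, FXG, List.map_cons, List.map_nil, List.prod_cons,
    List.prod_nil]
  ring

end

end Pool.Agent.TH250.Z3
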