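import Pool.Agent.TH250.Z3.Base
import Pool.Agent.H337R2.Cx4
import Pool.Agent.H337R2.Stir

set_option autoImplicit false

/-!
# Comparison of `R` on the line with the product over all half integers
-/

open Polynomial Pool.Agent.H337R2 Filter Topology

namespace Pool.Agent.TH250.Z3

noncomputable section

/-- the weights -/
def w (y : ℝ) (m : ℕ) : ℝ := 1 + y ^ 2 / ((m : ℝ) - 1 / 2) ^ 2

lemma w_pos (y : ℝ) (m : ℕ) : 0 < w y m := by unfold w; positivity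

lemma norm_w (y : ℝ) (m : ℕ) : ‖zl y + m‖ ^ 2 = ‖zl 0 + m‖ ^ 2 * w y m := by
  have hm := half_ne m
  rw [zl_add, zl_add, norm_lf, norm_lf, Real.sq_sqrt (by positivity), Real.sq_sqrt (by positivity)]
  unfold w
  have h2 : ((m : ℝ) - 1 / 2) ^ 2 ≠ 0 := pow_ne_zero 2 hm
  rw [zero_pow two_ne_zero, add_zero, mul_add, mul_one, mul_div_cancel₀ _ h2]

/-- the products of the weights -/
def WW (y : ℝ) (a b : ℕ) : ℝ := ∏ m ∈ Finset.Ioc a b, w y m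

lemma GG_sq (y : ℝ) (a b : ℕ) : GG y a b ^ 2 = GG 0 a b ^ 2 * WW y a b := by
  unfold GG WW
  rw [← Finset.prod_pow, ← Finset.prod_pow, ← Finset.prod_mul_distrib]
  exact Finset.prod_congr rfl fun m _ => norm_w y m

lemma GG_pos (y : ℝ) (a b : ℕ) : 0 < GG y a b :=
  Finset.prod_pos fun m _ => norm_pos_iff.2 (zl_ne y m)

lemma WW_pos (y : ℝ) (a b : ℕ) : 0 < WW y a b := Finset.prod_pos fun m _ => w_pos y m

lemma GG_cons (y : ℝ) {a b c : ℕ} (h1 : a ≤ b) (h2 : b ≤ c) : GG y a b * GG y b c = GG y a c :=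
  Finset.prod_Ioc_consecutive _ h1 h2

lemma WW_cons (y : ℝ) {a b c : ℕ} (h1 : a ≤ b) (h2 : b ≤ c) : WW y a b * WW y b c = WW y a c :=
  Finset.prod_Ioc_consecutive _ h1 h2

lemma HM_w (y : ℝ) (M : ℕ) : HM y M = WW y 0 M := by
  unfold HM WW
  refine Finset.prod_nbij' (fun m => m + 1) (fun m => m - 1) ?_ ?_ ?_ ?_ ?_
  · intro m hm; rw [Finset.mem_range] at hm; rw [Finset.mem_Ioc]; omega
  · intro m hm; rw [Finset.mem_Ioc] at hm; rw [Finset.mem_range]; omega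
  · intro m hm; simp
  · intro m hm; rw [Finset.mem_Ioc] at hm; omega
  · intro m _
    unfold w
    push_cast
    have : ((m : ℝ) + 1 - 1 / 2) = m + 1 / 2 := by ring
    rw [this]

/-- the constant -/
def cc (n : ℕ) : ℝ :=
  (((9 * n / 2).factorial : ℕ) : ℝ) ^ 2 / (((5 * n / 2).factorial : ℕ) : ℝ) ^ 2

lemma NG_nonneg (n : ℕ) (y : ℝ) : 0 ≤ NG n y := by
  unfold NG
  have h1 := (GG_pos y 0 (LL n - n / 2)).le
  have h2 := (GG_pos y 0 (3 * n - LL n)).le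
  have h3 := (GG_pos y 0 (LL n - n)).le
  have h4 := (GG_pos y 0 (7 * n / 2 - LL n)).le
  have h5 := (GG_pos y (7 * n / 2 - LL n) (8 * n - LL n)).le
  have h6 := (GG_pos y (4 * n - LL n) (17 * n / 2 - LL n)).le
  positivity

/-- algebra: from the squares -/
lemma comb {c g1 g2 g3 g4 g5 g6 g7 k1 k2 k3 k4 k5 k6 k7 W1 W2 W3 W4 W5 W6 W7 : ℝ}
    (h1 : g1 ^ 2 = k1 ^ 2 * W1) (h2 : g2 ^ 2 = k2 ^ 2 * W2) (h3 : g3 ^ 2 = k3 ^ 2 * W3)
    (h4 : g4 ^ 2 = k4 ^ 2 * W4) (h5 : g5 ^ 2 = k5 ^ 2 * W5) (h6 : g6 ^ 2 = k6 ^ 2 * W6)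
    (h7 : g7 ^ 2 = k7 ^ 2 * W7) :
    (c * (g1 ^ 4 * g2 ^ 3 * g3 ^ 2 * g4) / (g5 * g6 ^ 2 * g7)) ^ 2 =
      (c * (k1 ^ 4 * k2 ^ 3 * k3 ^ 2 * k4) / (k5 * k6 ^ 2 * k7)) ^ 2 *
        (W1 ^ 4 * W2 ^ 3 * W3 ^ 2 * W4 / (W5 * W6 ^ 2 * W7)) := by
  have e1 : (c * (g1 ^ 4 * g2 ^ 3 * g3 ^ 2 * g4)) ^ 2 = (c * (k1 ^ 4 * k2 ^ 3 * k3 ^ 2 * k4)) ^ 2 *
      (W1 ^ 4 * W2 ^ 3 * W3 ^ 2 * W4) := by
    calc (c * (g1 ^ 4 * g2 ^ 3 * g3 ^ 2 * g4)) ^ 2
        = c ^ 2 * ((g1 ^ 2) ^ 4 * (g2 ^ 2) ^ 3 * (g3 ^ 2) ^ 2 * g4 ^ 2) := by ring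
      _ = _ := by rw [h1, h2, h3, h4]; ring
  have e2 : (g5 * g6 ^ 2 * g7) ^ 2 = (k5 * k6 ^ 2 * k7) ^ 2 * (W5 * W6 ^ 2 * W7) := by
    calc (g5 * g6 ^ 2 * g7) ^ 2 = g5 ^ 2 * (g6 ^ 2) ^ 2 * g7 ^ 2 := by ring
      _ = _ := by rw [h5, h6, h7]; ring
  rw [div_pow, div_pow, e1, e2, mul_div_mul_comm]

/-- comparison of `R` on the line with the product over all half integers -/
theorem G1r {n : ℕ} (hn : 120 ≤ n) (y : ℝ) (M : ℕ) (hM : 17 * n / 2 - LL n ≤ M) :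
    (NG n y * Real.exp (-(2 * Real.pi * |y|))) ^ 2 *
    (WW y (LL n - n) (LL n - n / 2) * WW y (LL n - n / 2) (3 * n - LL n) ^ 2 *
      WW y (3 * n - LL n) (7 * n / 2 - LL n) ^ 3 * WW y (7 * n / 2 - LL n) (4 * n - LL n) ^ 5 *
      WW y (4 * n - LL n) (8 * n - LL n) ^ 6 * WW y (8 * n - LL n) (17 * n / 2 - LL n) ^ 5 *
      WW y (17 * n / 2 - LL n) M ^ 4) ≤ NG n 0 ^ 2 := by
  have hLL : LL n = n + 40 * (n / 120) := rfl
  have b12 : LL n - n ≤ LL n - n / 2 := by omega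
  have b23 : LL n - n / 2 ≤ 3 * n - LL n := by omega
  have b34 : 3 * n - LL n ≤ 7 * n / 2 - LL n := by omega
  have b45 : 7 * n / 2 - LL n ≤ 4 * n - LL n := by omega
  have b56 : 4 * n - LL n ≤ 8 * n - LL n := by omega
  have b67 : 8 * n - LL n ≤ 17 * n / 2 - LL n := by omega
  have hNG : ∀ x : ℝ, NG n x = cc n * ((GG x 0 (LL n - n / 2) * GG x 0 (3 * n - LL n)) *
      (GG x 0 (LL n - n) * GG x 0 (7 * n / 2 - LL n))) /
      (GG x (7 * n / 2 - LL n) (8 * n - LL n) * GG x (4 * n - LL n) (17 * n / 2 - LL n)) := fun x => rfl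
  generalize LL n - n = c1 at *
  generalize LL n - n / 2 = c2 at *
  generalize 3 * n - LL n = c3 at *
  generalize 7 * n / 2 - LL n = c4 at *
  generalize 4 * n - LL n = c5 at *
  generalize 8 * n - LL n = c6 at *
  generalize 17 * n / 2 - LL n = c7 at *
  have hHM : HM y M = WW y 0 c1 * WW y c1 c2 * WW y c2 c3 * WW y c3 c4 * WW y c4 c5 * WW y c5 c6 *
      WW y c6 c7 * WW y c7 M := by
    rw [HM_w, WW_cons y (by omega) (by omega), WW_cons y (by omega) (by omega),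
      WW_cons y (by omega) (by omega), WW_cons y (by omega) (by omega),
      WW_cons y (by omega) (by omega), WW_cons y (by omega) (by omega),
      WW_cons y (by omega) (by omega)]
  have hsq : ∀ (x : ℝ), NG n x = cc n * (GG x 0 c1 ^ 4 * GG x c1 c2 ^ 3 * GG x c2 c3 ^ 2 * GG x c3 c4) /
      (GG x c4 c5 * GG x c5 c6 ^ 2 * GG x c6 c7) := by
    intro x
    have a2 : GG x 0 c2 = GG x 0 c1 * GG x c1 c2 := (GG_cons x (by omega) (by omega)).symm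
    have a3 : GG x 0 c3 = GG x 0 c1 * GG x c1 c2 * GG x c2 c3 := by
      rw [GG_cons x (by omega) (by omega), GG_cons x (by omega) (by omega)]
    have a4 : GG x 0 c4 = GG x 0 c1 * GG x c1 c2 * GG x c2 c3 * GG x c3 c4 := by
      rw [GG_cons x (by omega) (by omega), GG_cons x (by omega) (by omega),
        GG_cons x (by omega) (by omega)]
    have a5 : GG x c4 c6 = GG x c4 c5 * GG x c5 c6 := (GG_cons x (by omega) (by omega)).symm
    have a6 : GG x c5 c7 = GG x c5 c6 * GG x c6 c7 := (GG_cons x (by omega) (by omega)).symm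
    rw [hNG, a2, a3, a4, a5, a6]
    congr 1
    · ring
    · ring
  have hN : NG n y ^ 2 = NG n 0 ^ 2 * (WW y 0 c1 ^ 4 * WW y c1 c2 ^ 3 * WW y c2 c3 ^ 2 * WW y c3 c4 /
      (WW y c4 c5 * WW y c5 c6 ^ 2 * WW y c6 c7)) := by
    rw [hsq y, hsq 0]
    exact comb (GG_sq y _ _) (GG_sq y _ _) (GG_sq y _ _) (GG_sq y _ _) (GG_sq y _ _) (GG_sq y _ _)
      (GG_sq y _ _)
  have p0 : 0 < WW y 0 c1 := WW_pos _ _ _
  have p1 : 0 < WW y c1 c2 := WW_pos _ _ _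
  have p2 : 0 < WW y c2 c3 := WW_pos _ _ _
  have p3 : 0 < WW y c3 c4 := WW_pos _ _ _
  have p4 : 0 < WW y c4 c5 := WW_pos _ _ _
  have p5 : 0 < WW y c5 c6 := WW_pos _ _ _
  have p6 : 0 < WW y c6 c7 := WW_pos _ _ _
  have p7 : 0 < WW y c7 M := WW_pos _ _ _
  generalize WW y 0 c1 = W0 at *
  generalize WW y c1 c2 = W1 at *
  generalize WW y c2 c3 = W2 at *
  generalize WW y c3 c4 = W3 at *
  generalize WW y c4 c5 = W4 at *
  generalize WW y c5 c6 = W5 at *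
  generalize WW y c6 c7 = W6 at *
  generalize WW y c7 M = W7 at *
  have hE : Real.exp (-(2 * Real.pi * |y|)) ^ 2 * (W0 * W1 * W2 * W3 * W4 * W5 * W6 * W7) ^ 4 ≤ 1 := by
    have h1 := HM_le y M
    rw [hHM] at h1
    have h2 : 0 ≤ W0 * W1 * W2 * W3 * W4 * W5 * W6 * W7 := by positivity
    have h3 : (W0 * W1 * W2 * W3 * W4 * W5 * W6 * W7) ^ 4 ≤ Real.exp (Real.pi * |y|) ^ 4 :=
      pow_le_pow_left₀ h2 h1 4
    calc Real.exp (-(2 * Real.pi * |y|)) ^ 2 * (W0 * W1 * W2 * W3 * W4 * W5 * W6 * W7) ^ 4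
        ≤ Real.exp (-(2 * Real.pi * |y|)) ^ 2 * Real.exp (Real.pi * |y|) ^ 4 :=
          mul_le_mul_of_nonneg_left h3 (by positivity)
      _ = 1 := by
          rw [← Real.exp_nat_mul, ← Real.exp_nat_mul, ← Real.exp_add]
          have : ((2 : ℕ) : ℝ) * -(2 * Real.pi * |y|) + ((4 : ℕ) : ℝ) * (Real.pi * |y|) = 0 := by
            push_cast; ring
          rw [this, Real.exp_zero]
  rw [mul_pow, hN]
  generalize Real.exp (-(2 * Real.pi * |y|)) = e at *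
  generalize NG n 0 = g at *
  calc g ^ 2 * (W0 ^ 4 * W1 ^ 3 * W2 ^ 2 * W3 / (W4 * W5 ^ 2 * W6)) * e ^ 2 *
        (W1 * W2 ^ 2 * W3 ^ 3 * W4 ^ 5 * W5 ^ 6 * W6 ^ 5 * W7 ^ 4)
      = g ^ 2 * (e ^ 2 * (W0 * W1 * W2 * W3 * W4 * W5 * W6 * W7) ^ 4) := by
        field_simp
    _ ≤ g ^ 2 * 1 := mul_le_mul_of_nonneg_left hE (by positivity)
    _ = _ := by ring

end

end Pool.Agent.TH250.Z3
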