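import Pool.Agent.TH250.Z3.PoleA
import Pool.Agent.TH250.Z3.Stm

set_option autoImplicit false

/-!
# The corner bounds at the poles
-/

open Polynomial Pool.Agent.H337R2 Filter Topology
open Pool.Agent.TH817.Z3 Pool.Agent.TH250.Z3.CP

namespace Pool.Agent.TH250.Z3

theorem evL (n a : ℕ) (k : ℕ) : ((((QL n a).eval (-(k : ℚ)) : ℚ)) : ℝ) =
    (-(k : ℝ) + ((LL n : ℝ) + 1 / 2)) ^ 2 + (a : ℝ) / 100000 * (120 * (n / 120 : ℕ)) ^ 2 := by
  unfold QL Lin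
  simp only [eval_add, eval_pow, eval_X, eval_C]
  push_cast
  ring

theorem evP (n a : ℕ) (k : ℕ) : ((((QP n a).eval (-(k : ℚ)) : ℚ)) : ℝ) =
    -(k : ℝ) + (120 + (a : ℝ) / 10) * (n / 120 : ℕ) := by
  unfold QP
  simp only [eval_add, eval_X, eval_C]
  push_cast
  ring

theorem nodeL {n k N i : ℕ} (hn : n / 120 = N) (hi : 79 ≤ i)
    (hhi : 2 * k ≤ (i + 241) * N) (hk : 4 * n < k) (a : ℕ) :
    |((((QL n a).eval (-(k : ℚ)) : ℚ)) : ℝ)| ≤
      (120 * (N : ℝ)) ^ 2 * ((((i : ℝ) - 79) / 240) ^ 2 + (a : ℝ) / 100000) := by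
  have hLL : LL n = n + 40 * N := by unfold LL; rw [hn]
  have h1 : LL n + 1 ≤ k := by rw [hLL]; omega
  have h2 : 160 * N ≤ LL n := by rw [hLL]; omega
  rw [evL, hn]
  have h1' : (LL n : ℝ) + 1 ≤ k := by exact_mod_cast h1
  have h2' : 160 * (N : ℝ) ≤ (LL n : ℝ) := by exact_mod_cast h2
  have h3' : 2 * (k : ℝ) ≤ ((i : ℝ) + 241) * N := by exact_mod_cast hhi
  have hi' : (79 : ℝ) ≤ i := by exact_mod_cast hi
  have h4 : (k : ℝ) - ((LL n : ℝ) + 1 / 2) ≤ 120 * (N : ℝ) * (((i : ℝ) - 79) / 240) := by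
    have : 120 * (N : ℝ) * (((i : ℝ) - 79) / 240) = ((i : ℝ) + 241) * N / 2 - 160 * N := by ring
    rw [this]; linarith
  have h5 : 0 ≤ (k : ℝ) - ((LL n : ℝ) + 1 / 2) := by linarith
  have h6 : (-(k : ℝ) + ((LL n : ℝ) + 1 / 2)) ^ 2 ≤ (120 * (N : ℝ) * (((i : ℝ) - 79) / 240)) ^ 2 := by
    have : (-(k : ℝ) + ((LL n : ℝ) + 1 / 2)) ^ 2 = ((k : ℝ) - ((LL n : ℝ) + 1 / 2)) ^ 2 := by ring
    rw [this]
    exact pow_le_pow_left₀ h5 h4 2
  rw [abs_of_nonneg (by positivity)]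
  calc _ ≤ (120 * (N : ℝ) * (((i : ℝ) - 79) / 240)) ^ 2 + (a : ℝ) / 100000 * (120 * (N : ℝ)) ^ 2 := by
        linarith
    _ = _ := by ring

theorem nodeP {n k N i : ℕ} (hn : n / 120 = N)
    (hlo : (i + 240) * N < 2 * k) (hhi : 2 * k ≤ (i + 241) * N) (a : ℕ) :
    |((((QP n a).eval (-(k : ℚ)) : ℚ)) : ℝ)| ≤
      120 * (N : ℝ) * (max |(a : ℝ) - 5 * i| |(a : ℝ) - (5 * i + 5)| / 1200) := by
  rw [evP, hn]
  have h1 : ((i : ℝ) + 240) * N ≤ 2 * k := by exact_mod_cast hlo.le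
  have h2 : 2 * (k : ℝ) ≤ ((i : ℝ) + 241) * N := by exact_mod_cast hhi
  have hN : (0 : ℝ) ≤ N := Nat.cast_nonneg _
  have e : 120 * (N : ℝ) * (max |(a : ℝ) - 5 * i| |(a : ℝ) - (5 * i + 5)| / 1200) =
      (N : ℝ) / 10 * max |(a : ℝ) - 5 * i| |(a : ℝ) - (5 * i + 5)| := by ring
  rw [e, abs_le]
  constructor
  · have h3 : -(max |(a : ℝ) - 5 * i| |(a : ℝ) - (5 * i + 5)|) ≤ (a : ℝ) - (5 * i + 5) := by
      have := neg_abs_le ((a : ℝ) - (5 * i + 5))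
      have := le_max_right |(a : ℝ) - 5 * i| |(a : ℝ) - (5 * i + 5)|
      linarith
    have h4 := mul_le_mul_of_nonneg_left h3 (show (0 : ℝ) ≤ (N : ℝ) / 10 by positivity)
    have e2 : (N : ℝ) / 10 * ((a : ℝ) - (5 * i + 5)) = (a : ℝ) * N / 10 - ((i : ℝ) + 241) * N / 2 + 120 * N := by
      ring
    rw [e2] at h4
    linarith
  · have h3 : (a : ℝ) - 5 * i ≤ (max |(a : ℝ) - 5 * i| |(a : ℝ) - (5 * i + 5)|) := by
      have := le_abs_self ((a : ℝ) - 5 * i)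
      have := le_max_left |(a : ℝ) - 5 * i| |(a : ℝ) - (5 * i + 5)|
      linarith
    have h4 := mul_le_mul_of_nonneg_left h3 (show (0 : ℝ) ≤ (N : ℝ) / 10 by positivity)
    have e2 : (N : ℝ) / 10 * ((a : ℝ) - 5 * i) = (a : ℝ) * N / 10 - ((i : ℝ) + 240) * N / 2 + 120 * N := by
      ring
    rw [e2] at h4
    linarith

theorem prodL {n k N i : ℕ} (hn : n / 120 = N) (hi : 79 ≤ i)
    (hhi : 2 * k ≤ (i + 241) * N) (hk : 4 * n < k) (l : List ℕ) :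
    |((((l.map (QL n)).prod.eval (-(k : ℚ)) : ℚ)) : ℝ)| ≤
      ((120 * (N : ℝ)) ^ 2) ^ l.length * FLr i l := by
  induction l with
  | nil => simp [FLr]
  | cons a l ih =>
    have e : FLr i (a :: l) = ((((i : ℝ) - 79) / 240) ^ 2 + (a : ℝ) / 100000) * FLr i l := by
      unfold FLr; rw [List.map_cons, List.prod_cons]
    rw [List.map_cons, List.prod_cons, eval_mul, Rat.cast_mul, abs_mul, e, List.length_cons, pow_succ]
    refine (mul_le_mul (nodeL hn hi hhi hk a) ih (abs_nonneg _) (by positivity)).trans (le_of_eq ?_)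
    ring

theorem prodP {n k N i : ℕ} (hn : n / 120 = N)
    (hlo : (i + 240) * N < 2 * k) (hhi : 2 * k ≤ (i + 241) * N) (l : List ℕ) :
    |((((l.map (QP n)).prod.eval (-(k : ℚ)) : ℚ)) : ℝ)| ≤
      (120 * (N : ℝ)) ^ l.length * FPr i l := by
  induction l with
  | nil => simp [FPr]
  | cons a l ih =>
    have e : FPr i (a :: l) = (max |(a : ℝ) - 5 * i| |(a : ℝ) - (5 * i + 5)| / 1200) * FPr i l := by
      unfold FPr; rw [List.map_cons, List.prod_cons]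
    rw [List.map_cons, List.prod_cons, eval_mul, Rat.cast_mul, abs_mul, e, List.length_cons, pow_succ]
    refine (mul_le_mul (nodeP hn hlo hhi a) ih (abs_nonneg _) (by positivity)).trans (le_of_eq ?_)
    ring

theorem ho_len {b : ℕ} (hb : b ≤ 9) : 2 * (LT b).length + (PT b).length = 2 * ho b := by
  have hb' : b = 0 ∨ b = 1 ∨ b = 2 ∨ b = 3 ∨ b = 4 ∨ b = 5 ∨ b = 6 ∨ b = 7 ∨ b = 8 ∨ b = 9 := by omega
  rcases hb' with rfl | rfl | rfl | rfl | rfl | rfl | rfl | rfl | rfl | rfl <;> rfl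

theorem SB_le {n k N i b : ℕ} (hn : n / 120 = N) (hi : 79 ≤ i) (hb : b ≤ 9)
    (hlo : (i + 240) * N < 2 * k) (hhi : 2 * k ≤ (i + 241) * N) (hk : 4 * n < k) :
    |((((SB n b).eval (-(k : ℚ)) : ℚ)) : ℝ)| ≤
      (120 * (N : ℝ)) ^ (2 * ho b) * (FLr i (LT b) * FPr i (PT b)) := by
  unfold SB
  rw [eval_mul, Rat.cast_mul, abs_mul, ← ho_len hb, pow_add, pow_mul]
  have h1 := prodL hn hi hhi hk (LT b)
  have h2 := prodP hn hlo hhi (PT b)
  refine (mul_le_mul h1 h2 (abs_nonneg _) ?_).trans (le_of_eq ?_)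
  · exact mul_nonneg (by positivity) (FLr_nonneg _ _)
  · ring

/-- the certificate in all cells and at all stages -/
theorem cert_pole {i b : ℕ} (h0 : 720 ≤ i) (h1 : i ≤ 1680) (hb : b ≤ 9) :
    2 ^ (2 * tG b) * RR i * (FLr i (LT b) * FPr i (PT b)) ^ 4 ≤ 2 ^ (2 * UU) := by
  have hb' : b = 0 ∨ b = 1 ∨ b = 2 ∨ b = 3 ∨ b = 4 ∨ b = 5 ∨ b = 6 ∨ b = 7 ∨ b = 8 ∨ b = 9 := by omega
  rcases hb' with rfl | rfl | rfl | rfl | rfl | rfl | rfl | rfl | rfl | rfl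
  · exact chk_real h0 h1 rfl rfl (cp0 h0 h1)
  · exact chk_real h0 h1 rfl rfl (cp1 h0 h1)
  · exact chk_real h0 h1 rfl rfl (cp2 h0 h1)
  · exact chk_real h0 h1 rfl rfl (cp3 h0 h1)
  · exact chk_real h0 h1 rfl rfl (cp4 h0 h1)
  · exact chk_real h0 h1 rfl rfl (cp5 h0 h1)
  · exact chk_real h0 h1 rfl rfl (cp6 h0 h1)
  · exact chk_real h0 h1 rfl rfl (cp7 h0 h1)
  · exact chk_real h0 h1 rfl rfl (cp8 h0 h1)
  · exact chk_real h0 h1 rfl rfl (cp9 h0 h1)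

/-- the constant -/
noncomputable def cmx : ℝ := 1 + ∑ i ∈ Finset.Icc 720 1680, CP.cst i

theorem cmx_ge {i : ℕ} (h0 : 720 ≤ i) (h1 : i ≤ 1680) : CP.cst i ≤ cmx := by
  unfold cmx
  have h2 := Finset.single_le_sum (f := fun i => CP.cst i) (s := Finset.Icc 720 1680)
    (fun i hi => by
      rw [Finset.mem_Icc] at hi
      exact (cst_pos hi.1 hi.2).le) (Finset.mem_Icc.2 ⟨h0, h1⟩)

  linarith

theorem cmx_one : 1 ≤ cmx := by
  unfold cmx
  have : 0 ≤ ∑ i ∈ Finset.Icc 720 1680, CP.cst i := Finset.sum_nonneg fun i hi => by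
    rw [Finset.mem_Icc] at hi
    exact (cst_pos hi.1 hi.2).le
  linarith

theorem RR_nonneg {i : ℕ} (h0 : 720 ≤ i) (h1 : i ≤ 1680) : 0 ≤ RR i := by
  obtain ⟨hx1, hx2, hx3, hx4⟩ := x_pos h0 h1
  have hg : ∀ {x : ℝ} (_ : 0 < x) (a c : ℕ), 0 ≤ ((1 + x) ^ a * x⁻¹ ^ c) := by
    intro x hx a c
    exact mul_nonneg (pow_nonneg (by linarith) _) (pow_nonneg (inv_nonneg.2 hx.le) _)
  unfold RR
  exact mul_nonneg (mul_nonneg (hg hx1 _ _) (hg hx2 _ _)) (mul_nonneg (hg hx3 _ _) (hg hx4 _ _))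

/-- the cell of a pole -/
theorem cell {n k N : ℕ} (hn : n / 120 = N) (hN : 1920 ≤ N) (hk : 4 * n < k) (hk8 : k ≤ 8 * n) :
    ∃ i, 720 ≤ i ∧ i ≤ 1680 ∧ (i + 240) * N < 2 * k ∧ 2 * k ≤ (i + 241) * N := by
  obtain ⟨r, hr, hnr⟩ : ∃ r, r < 120 ∧ n = 120 * N + r := ⟨n % 120, Nat.mod_lt _ (by norm_num), by omega⟩
  refine ⟨(2 * k - 1) / N - 240, ?_⟩
  have h1 : (2 * k - 1) / N * N ≤ 2 * k - 1 := Nat.div_mul_le_self _ _
  have h2 : 2 * k - 1 < ((2 * k - 1) / N + 1) * N := by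
    have := Nat.lt_div_mul_add (a := 2 * k - 1) (show 0 < N by omega)
    rw [add_mul, one_mul]; omega
  set q := (2 * k - 1) / N with hq
  have h3 : 960 ≤ q := by
    rw [hq, Nat.le_div_iff_mul_le (by omega)]
    omega
  have h4 : q < 1921 := by
    rw [hq, Nat.div_lt_iff_lt_mul (by omega)]
    omega
  refine ⟨by omega, by omega, ?_, ?_⟩
  · rw [Nat.sub_add_cancel (by omega)]; omega
  · have e : q - 240 + 241 = q + 1 := by omega
    rw [e]; omega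

/-- corner bound at the poles -/
theorem pole_corner {n k b : ℕ} (hR2 : StR2) (hn : 300000 ≤ n) (hb : b ≤ 9) (hk : k ∈ Finset.Icc (4 * n + 1) (8 * n)) :
    ((RK n k : ℚ) : ℝ) * (|((((SB n b).eval (-(k : ℚ)) : ℚ)) : ℝ)| ^ 2) ^ (n / 120) * 2 ^ (tG b * (n / 120)) ≤
      75 * cmx * (n : ℝ) ^ 3 * (n : ℝ) ^ (4 * ho b * (n / 120)) * 2 ^ (UU * (n / 120)) := by
  obtain ⟨N, hNdef⟩ : ∃ N : ℕ, n / 120 = N := ⟨_, rfl⟩
  have hk' := Finset.mem_Icc.1 hk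
  obtain ⟨i, h0, h1, hlo, hhi⟩ := cell hNdef (by omega) (by omega) hk'.2
  have hR := (hR2 (n := n) (k := k) (by omega) hk).2
  have hR' : ((RK n k : ℚ) : ℝ) ≤ 75 * (n : ℝ) ^ 3 *
      ((((k - n / 2 - 1).choose (3 * n - n / 2) : ℕ) : ℝ) * (((k - n - 1).choose (7 * n / 2 - n) : ℕ) : ℝ) *
      ((((8 * n - 7 * n / 2 - 1).choose (k - 7 * n / 2 - 1) : ℕ) : ℝ) *
        (((17 * n / 2 - 4 * n - 1).choose (k - 4 * n - 1) : ℕ) : ℝ))) := by
    exact_mod_cast hR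
  have hf := four h0 h1 hNdef (by omega) hlo hhi (by omega) hk'.2
  set B : ℝ := ((((k - n / 2 - 1).choose (3 * n - n / 2) : ℕ) : ℝ) * (((k - n - 1).choose (7 * n / 2 - n) : ℕ) : ℝ) *
      ((((8 * n - 7 * n / 2 - 1).choose (k - 7 * n / 2 - 1) : ℕ) : ℝ) *
        (((17 * n / 2 - 4 * n - 1).choose (k - 4 * n - 1) : ℕ) : ℝ))) with hB
  have hB0 : 0 ≤ B := by rw [hB]; positivity
  have hS := SB_le hNdef (by omega : 79 ≤ i) hb hlo hhi (by omega)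
  set S : ℝ := |((((SB n b).eval (-(k : ℚ)) : ℚ)) : ℝ)| with hSdef
  have hS0 : 0 ≤ S := abs_nonneg _
  set F : ℝ := FLr i (LT b) * FPr i (PT b) with hF
  have hF0 : 0 ≤ F := mul_nonneg (FLr_nonneg _ _) (FPr_nonneg _ _)
  have hc := cert_pole h0 h1 hb
  rw [← hF] at hc
  have hRR := RR_nonneg h0 h1
  rw [hNdef]
  clear_value B S F
  have hn120 : 120 * (N : ℝ) ≤ n := by exact_mod_cast (by omega : 120 * N ≤ n)
  -- the main inequality
  have hmain : B * (F ^ 2) ^ N * 2 ^ (tG b * N) ≤ cmx * 2 ^ (UU * N) := by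
    have h2 : (B * (F ^ 2) ^ N * 2 ^ (tG b * N)) ^ 2 ≤ (cmx * 2 ^ (UU * N)) ^ 2 := by
      calc (B * (F ^ 2) ^ N * 2 ^ (tG b * N)) ^ 2
          = B ^ 2 * (F ^ 4) ^ N * (2 ^ (2 * tG b)) ^ N := by
            have e1 : ((F ^ 2) ^ N) ^ 2 = (F ^ 4) ^ N := by
              rw [← pow_mul, ← pow_mul, ← pow_mul]; congr 1; ring
            have e2 : ((2 : ℝ) ^ (tG b * N)) ^ 2 = (2 ^ (2 * tG b)) ^ N := by
              rw [← pow_mul, ← pow_mul]; congr 1; ring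
            rw [mul_pow, mul_pow, e1, e2]
        _ ≤ (RR i ^ N * CP.cst i) * (F ^ 4) ^ N * (2 ^ (2 * tG b)) ^ N := by gcongr
        _ = (2 ^ (2 * tG b) * RR i * F ^ 4) ^ N * CP.cst i := by rw [mul_pow, mul_pow]; ring
        _ ≤ (2 ^ (2 * UU)) ^ N * CP.cst i := by
            refine mul_le_mul_of_nonneg_right ?_ (cst_pos h0 h1).le
            exact pow_le_pow_left₀ (mul_nonneg (mul_nonneg (pow_nonneg (by norm_num) _) hRR)
              (pow_nonneg hF0 _)) hc N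
        _ ≤ (2 ^ (2 * UU)) ^ N * cmx ^ 2 := by
            refine mul_le_mul_of_nonneg_left ?_ (pow_nonneg (pow_nonneg (by norm_num) _) _)
            have h3 := cmx_ge h0 h1
            have h4 := cmx_one
            nlinarith
        _ = (cmx * 2 ^ (UU * N)) ^ 2 := by
            rw [mul_pow, ← pow_mul, ← pow_mul, mul_comm]
            congr 2
            ring
    have hp : 0 ≤ cmx * 2 ^ (UU * N) := mul_nonneg (by linarith [cmx_one]) (pow_nonneg (by norm_num) _)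
    exact le_of_sq_le_sq h2 hp
  have hSn : (S ^ 2) ^ N ≤ (n : ℝ) ^ (4 * ho b * N) * (F ^ 2) ^ N := by
    calc (S ^ 2) ^ N ≤ (((120 * (N : ℝ)) ^ (2 * ho b) * F) ^ 2) ^ N :=
          pow_le_pow_left₀ (by positivity) (pow_le_pow_left₀ hS0 hS 2) N
      _ = (120 * (N : ℝ)) ^ (4 * ho b * N) * (F ^ 2) ^ N := by
          rw [mul_pow, mul_pow, ← pow_mul, ← pow_mul]
          congr 2
          ring
      _ ≤ (n : ℝ) ^ (4 * ho b * N) * (F ^ 2) ^ N := by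
          refine mul_le_mul_of_nonneg_right ?_ (by positivity)
          exact pow_le_pow_left₀ (by positivity) hn120 _
  calc ((RK n k : ℚ) : ℝ) * (S ^ 2) ^ N * 2 ^ (tG b * N)
      ≤ (75 * (n : ℝ) ^ 3 * B) * ((n : ℝ) ^ (4 * ho b * N) * (F ^ 2) ^ N) * 2 ^ (tG b * N) := by
        refine mul_le_mul_of_nonneg_right ?_ (by positivity)
        refine (mul_le_mul_of_nonneg_right hR' (by positivity)).trans ?_
        exact mul_le_mul_of_nonneg_left hSn (by positivity)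
    _ = 75 * (n : ℝ) ^ 3 * (n : ℝ) ^ (4 * ho b * N) * (B * (F ^ 2) ^ N * 2 ^ (tG b * N)) := by ring
    _ ≤ 75 * (n : ℝ) ^ 3 * (n : ℝ) ^ (4 * ho b * N) * (cmx * 2 ^ (UU * N)) :=
        mul_le_mul_of_nonneg_left hmain (by positivity)
    _ = _ := by ring

end Pool.Agent.TH250.Z3
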