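import Pool.Agent.TH250.Z3.CertPP

set_option autoImplicit false

/-!
# The numerical certificate at the poles: real form
-/

namespace Pool.Agent.TH250.Z3.CP

open Pool.Agent.TH250.Z3.CL (dr mx dr_cast le_mx_left le_mx_right)

noncomputable def x1 (i : ℕ) : ℝ := (q1 i : ℝ) / 40
noncomputable def x2 (i : ℕ) : ℝ := (q2 i : ℝ) / 40
noncomputable def x3 (i : ℕ) : ℝ := (q3 i : ℝ) / 40
noncomputable def x4 (i : ℕ) : ℝ := (q4 i : ℝ) / 40

theorem x_pos {i : ℕ} (h0 : 720 ≤ i) (h1 : i ≤ 1680) : 0 < x1 i ∧ 0 < x2 i ∧ 0 < x3 i ∧ 0 < x4 i := by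
  obtain ⟨h1, h2, h3, h4⟩ := q_pos h0 h1
  have e1 : (0 : ℝ) < (q1 i : ℝ) := by exact_mod_cast h1
  have e2 : (0 : ℝ) < (q2 i : ℝ) := by exact_mod_cast h2
  have e3 : (0 : ℝ) < (q3 i : ℝ) := by exact_mod_cast h3
  have e4 : (0 : ℝ) < (q4 i : ℝ) := by exact_mod_cast h4
  have h40 : (0 : ℝ) < 40 := by norm_num
  exact ⟨div_pos e1 h40, div_pos e2 h40, div_pos e3 h40, div_pos e4 h40⟩

/-- the nodes on the line at the pole -/
noncomputable def FLr (i : ℕ) (l : List ℕ) : ℝ :=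
  (l.map fun a : ℕ => (((i : ℝ) - 79) / 240) ^ 2 + (a : ℝ) / 100000).prod

/-- the real nodes at the pole -/
noncomputable def FPr (i : ℕ) (r : List ℕ) : ℝ :=
  (r.map fun a : ℕ => max |(a : ℝ) - 5 * i| |(a : ℝ) - (5 * i + 5)| / 1200).prod

theorem FLr_eq {i : ℕ} (hi : 79 ≤ i) (l : List ℕ) :
    FLr i l * 7200000 ^ l.length = ((LN (125 * (i - 79) ^ 2) l : ℕ) : ℝ) := by
  induction l with
  | nil => simp [FLr, LN]
  | cons a l ih =>
    have e : FLr i (a :: l) = ((((i : ℝ) - 79) / 240) ^ 2 + (a : ℝ) / 100000) * FLr i l := by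
      unfold FLr; rw [List.map_cons, List.prod_cons]
    rw [LN_cons, Nat.cast_mul, ← ih, e, List.length_cons, pow_succ]
    push_cast [Nat.cast_sub hi]
    ring

theorem mx_cast (a b : ℕ) : ((mx a b : ℕ) : ℝ) = max (a : ℝ) b := by
  unfold mx
  rcases h : Nat.ble a b with _ | _
  · simp only [cond_false]
    have : ¬ a ≤ b := fun h' => by
      rw [Nat.ble_eq_true_of_le h'] at h
      exact Bool.noConfusion h
    rw [max_eq_left]
    exact_mod_cast (by omega : b ≤ a)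
  · simp only [cond_true]
    rw [max_eq_right]
    exact_mod_cast Nat.le_of_ble_eq_true h

theorem FPr_eq (i : ℕ) (r : List ℕ) :
    FPr i r * 1200 ^ r.length = ((PN (5 * i) (5 * i + 5) r : ℕ) : ℝ) := by
  induction r with
  | nil => simp [FPr, PN]
  | cons a r ih =>
    have e : FPr i (a :: r) = (max |(a : ℝ) - 5 * i| |(a : ℝ) - (5 * i + 5)| / 1200) * FPr i r := by
      unfold FPr; rw [List.map_cons, List.prod_cons]
    rw [PN_cons, Nat.cast_mul, ← ih, e, List.length_cons, pow_succ, mx_cast, dr_cast, dr_cast]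
    push_cast
    ring

theorem FLr_nonneg (i : ℕ) (l : List ℕ) : 0 ≤ FLr i l := by
  unfold FLr
  apply List.prod_nonneg
  intro z hz
  obtain ⟨w, _, rfl⟩ := List.mem_map.mp hz
  positivity

theorem FPr_nonneg (i : ℕ) (l : List ℕ) : 0 ≤ FPr i l := by
  unfold FPr
  apply List.prod_nonneg
  intro z hz
  obtain ⟨w, _, rfl⟩ := List.mem_map.mp hz
  positivity

/-- the residue part -/
noncomputable def RR (i : ℕ) : ℝ := ((1 + x1 i) ^ (i + 121) * (x1 i)⁻¹ ^ 600) *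
  ((1 + x2 i) ^ (i + 1) * (x2 i)⁻¹ ^ 600) * (((1 + x3 i) ^ 1080 * (x3 i)⁻¹ ^ (e3 i)) *
  ((1 + x4 i) ^ 1080 * (x4 i)⁻¹ ^ (e4 i)))

theorem fr (q a c : ℕ) : (1 + (q : ℝ) / 40) ^ a * ((q : ℝ) / 40)⁻¹ ^ c =
    (((40 + q) ^ a * 40 ^ c : ℕ) : ℝ) / ((40 ^ a * q ^ c : ℕ) : ℝ) := by
  have h1 : 1 + (q : ℝ) / 40 = ((40 + q : ℕ) : ℝ) / 40 := by push_cast; ring
  rw [h1, inv_div, div_pow, div_pow, div_mul_div_comm]
  push_cast
  rfl

theorem RR_eq (i : ℕ) : RR i = (AN i : ℝ) / (BN i : ℝ) := by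
  have eA : AN i = (((40 + q1 i) ^ (i + 121) * 40 ^ 600) * ((40 + q2 i) ^ (i + 1) * 40 ^ 600)) *
    (((40 + q3 i) ^ 1080 * 40 ^ (e3 i)) * ((40 + q4 i) ^ 1080 * 40 ^ (e4 i))) := rfl
  have eB : BN i = ((40 ^ (i + 121) * q1 i ^ 600) * (40 ^ (i + 1) * q2 i ^ 600)) *
    ((40 ^ 1080 * q3 i ^ (e3 i)) * (40 ^ 1080 * q4 i ^ (e4 i))) := rfl
  rw [eA, eB]
  unfold RR x1 x2 x3 x4
  rw [fr, fr, fr, fr]
  generalize (40 + q1 i) ^ (i + 121) * 40 ^ 600 = a1
  generalize 40 ^ (i + 121) * q1 i ^ 600 = b1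
  generalize (40 + q2 i) ^ (i + 1) * 40 ^ 600 = a2
  generalize 40 ^ (i + 1) * q2 i ^ 600 = b2
  generalize (40 + q3 i) ^ 1080 * 40 ^ (e3 i) = a3
  generalize 40 ^ 1080 * q3 i ^ (e3 i) = b3
  generalize (40 + q4 i) ^ 1080 * 40 ^ (e4 i) = a4
  generalize 40 ^ 1080 * q4 i ^ (e4 i) = b4
  push_cast
  rw [div_mul_div_comm, div_mul_div_comm, div_mul_div_comm]

theorem BN_pos {i : ℕ} (h0 : 720 ≤ i) (h1 : i ≤ 1680) : 0 < BN i := by
  obtain ⟨h1, h2, h3, h4⟩ := q_pos h0 h1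
  have eB : BN i = ((40 ^ (i + 121) * q1 i ^ 600) * (40 ^ (i + 1) * q2 i ^ 600)) *
    ((40 ^ 1080 * q3 i ^ (e3 i)) * (40 ^ 1080 * q4 i ^ (e4 i))) := rfl
  rw [eB]
  exact Nat.mul_pos (Nat.mul_pos (Nat.mul_pos (Nat.pow_pos (by norm_num)) (Nat.pow_pos h1))
    (Nat.mul_pos (Nat.pow_pos (by norm_num)) (Nat.pow_pos h2)))
    (Nat.mul_pos (Nat.mul_pos (Nat.pow_pos (by norm_num)) (Nat.pow_pos h3))
    (Nat.mul_pos (Nat.pow_pos (by norm_num)) (Nat.pow_pos h4)))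

theorem chk_alg {T2 U2 A B X Y p q : ℝ} (hB : 0 < B) (hp : 0 < p) (hq : 0 < q)
    (h : T2 * A * (X * p * (Y * q)) ^ 4 ≤ B * U2 * (p ^ 4 * q ^ 4)) :
    T2 * (A / B) * (X * Y) ^ 4 ≤ U2 := by
  refine le_of_mul_le_mul_right ?_ (show 0 < B * (p ^ 4 * q ^ 4) by positivity)
  calc T2 * (A / B) * (X * Y) ^ 4 * (B * (p ^ 4 * q ^ 4))
      = T2 * A * (X * p * (Y * q)) ^ 4 := by field_simp
    _ ≤ B * U2 * (p ^ 4 * q ^ 4) := h
    _ = _ := by ring

/-- real form of the check -/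
theorem chk_real {U T a b : ℕ} {l r : List ℕ} {i : ℕ} (h0 : 720 ≤ i) (h1 : i ≤ 1680)
    (ha : a = l.length) (hb : b = r.length) (h : chk U T a b l r i = true) :
    2 ^ (2 * T) * RR i * (FLr i l * FPr i r) ^ 4 ≤ 2 ^ (2 * U) := by
  have hle := chk_spec h
  have hB := BN_pos h0 h1
  have hB' : (0 : ℝ) < BN i := by exact_mod_cast hB
  have hle' : (2 : ℝ) ^ (2 * T) * (AN i : ℝ) * (((LN (125 * (i - 79) ^ 2) l : ℕ) : ℝ) *
      ((PN (5 * i) (5 * i + 5) r : ℕ) : ℝ)) ^ 4 ≤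
      (BN i : ℝ) * 2 ^ (2 * U) * (7200000 ^ (4 * a) * 1200 ^ (4 * b)) := by
    exact_mod_cast hle
  rw [← FLr_eq (by omega : 79 ≤ i), ← FPr_eq, ha, hb] at hle'
  rw [RR_eq]
  set X := FLr i l with hX
  set Y := FPr i r with hY
  have e1 : (7200000 : ℝ) ^ (4 * l.length) = (7200000 ^ l.length) ^ 4 := by rw [← pow_mul, mul_comm 4]
  have e2 : (1200 : ℝ) ^ (4 * r.length) = (1200 ^ r.length) ^ 4 := by rw [← pow_mul, mul_comm 4]
  rw [e1, e2] at hle'
  have hp0 : (0 : ℝ) < 7200000 ^ l.length := pow_pos (by norm_num) _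
  have hq0 : (0 : ℝ) < 1200 ^ r.length := pow_pos (by norm_num) _
  exact chk_alg hB' hp0 hq0 hle'

/-! ### Powers -/

noncomputable def DD (y : ℝ) : ℝ := 1 + y + y⁻¹

theorem DD_pos {y : ℝ} (hy : 0 < y) : 0 < DD y := by
  unfold DD
  have := inv_pos.2 hy
  linarith

theorem powA {y : ℝ} (hy : 1 ≤ y) {e M N R : ℕ} (h : e ≤ M * N + R) :
    y ^ e ≤ (y ^ M) ^ N * DD y ^ R := by
  have hy0 : 0 < y := by linarith
  have hD : y ≤ DD y := by
    unfold DD
    have := inv_pos.2 hy0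
    linarith
  calc y ^ e ≤ y ^ (M * N + R) := pow_le_pow_right₀ hy h
    _ = (y ^ M) ^ N * y ^ R := by rw [pow_add, pow_mul]
    _ ≤ (y ^ M) ^ N * DD y ^ R := by
        refine mul_le_mul_of_nonneg_left ?_ (by positivity)
        exact pow_le_pow_left₀ hy0.le hD R

theorem powB {y : ℝ} (hy0 : 0 < y) (hy : y ≤ 1) {e M N R : ℕ} (h : M * N ≤ e + R) :
    y ^ e ≤ (y ^ M) ^ N * DD y ^ R := by
  have hD : y⁻¹ ≤ DD y := by
    unfold DD
    linarith
  have hyi : 0 < y⁻¹ := inv_pos.2 hy0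
  calc y ^ e = y ^ (e + R) * y⁻¹ ^ R := by
        rw [pow_add, mul_assoc, ← mul_pow, mul_inv_cancel₀ hy0.ne', one_pow, mul_one]
    _ ≤ y ^ (M * N) * y⁻¹ ^ R := by
        refine mul_le_mul_of_nonneg_right ?_ (by positivity)
        exact pow_le_pow_of_le_one hy0.le hy h
    _ = (y ^ M) ^ N * y⁻¹ ^ R := by rw [pow_mul]
    _ ≤ (y ^ M) ^ N * DD y ^ R := by
        refine mul_le_mul_of_nonneg_left ?_ (by positivity)
        exact pow_le_pow_left₀ hyi.le hD R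

theorem powC {y : ℝ} (hy0 : 0 < y) {e M N R : ℕ} (h : e ≤ M * N + R) (h' : M * N ≤ e + R) :
    y ^ e ≤ (y ^ M) ^ N * DD y ^ R := by
  rcases le_total 1 y with hy | hy
  · exact powA hy h
  · exact powB hy0 hy h'

theorem choose_le {x : ℝ} (hx : 0 < x) (m j : ℕ) :
    ((m.choose j : ℕ) : ℝ) ≤ (1 + x) ^ m * x⁻¹ ^ j := by
  rw [inv_pow, ← div_eq_mul_inv, le_div_iff₀ (by positivity)]
  rcases lt_or_ge m j with h | h
  · rw [Nat.choose_eq_zero_of_lt h]
    simp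
    positivity
  · rw [add_comm, add_pow]
    have h1 := Finset.single_le_sum (f := fun i => x ^ i * 1 ^ (m - i) * ((m.choose i : ℕ) : ℝ))
      (s := Finset.range (m + 1)) (fun i _ => by positivity) (Finset.mem_range.2 (by omega : j < m + 1))
    simp only [one_pow, mul_one] at h1 ⊢
    rw [mul_comm]
    exact h1

/-- the constant of a binomial coefficient -/
noncomputable def dc (x : ℝ) : ℝ := DD (1 + x) ^ 2000 * DD x⁻¹ ^ 2000

theorem dc_pos {x : ℝ} (hx : 0 < x) : 0 < dc x := by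
  unfold dc
  have a1 := DD_pos (show 0 < 1 + x by linarith)
  have b1 := DD_pos (inv_pos.2 hx)
  positivity

theorem choose_sq {x : ℝ} (hx : 0 < x) {m j A c N : ℕ} (hm : 2 * m ≤ A * N + 2000)
    (hj : x⁻¹ ^ (2 * j) ≤ (x⁻¹ ^ c) ^ N * DD x⁻¹ ^ 2000) :
    ((m.choose j : ℕ) : ℝ) ^ 2 ≤ ((1 + x) ^ A * x⁻¹ ^ c) ^ N * dc x := by
  have h := choose_le hx m j
  have hxi := inv_pos.2 hx
  have h2 : (1 + x) ^ (2 * m) ≤ ((1 + x) ^ A) ^ N * DD (1 + x) ^ 2000 := powA (by linarith) hm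
  have hD := DD_pos (show 0 < 1 + x by linarith)
  calc ((m.choose j : ℕ) : ℝ) ^ 2 ≤ ((1 + x) ^ m * x⁻¹ ^ j) ^ 2 :=
        pow_le_pow_left₀ (by positivity) h 2
    _ = (1 + x) ^ (2 * m) * x⁻¹ ^ (2 * j) := by
        rw [mul_pow, ← pow_mul, ← pow_mul, mul_comm m 2, mul_comm j 2]
    _ ≤ (((1 + x) ^ A) ^ N * DD (1 + x) ^ 2000) * ((x⁻¹ ^ c) ^ N * DD x⁻¹ ^ 2000) :=
        mul_le_mul h2 hj (by positivity) (by positivity)
    _ = _ := by unfold dc; rw [mul_pow]; ring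

/-- the total constant in the cell `i` -/
noncomputable def cst (i : ℕ) : ℝ := dc (x1 i) * dc (x2 i) * (dc (x3 i) * dc (x4 i))

theorem cst_pos {i : ℕ} (h0 : 720 ≤ i) (h1 : i ≤ 1680) : 0 < cst i := by
  obtain ⟨h1, h2, h3, h4⟩ := x_pos h0 h1
  have a1 := dc_pos h1
  have a2 := dc_pos h2
  have a3 := dc_pos h3
  have a4 := dc_pos h4
  exact mul_pos (mul_pos a1 a2) (mul_pos a3 a4)

/-- the product of the four binomial coefficients in the cell `i` -/
theorem four {n k N i : ℕ} (h0 : 720 ≤ i) (h1 : i ≤ 1680) (hn : n / 120 = N) (hN : 1 ≤ N)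
    (hlo : (i + 240) * N < 2 * k) (hhi : 2 * k ≤ (i + 241) * N) (hk : 4 * n < k) (hk8 : k ≤ 8 * n) :
    ((((k - n / 2 - 1).choose (3 * n - n / 2) : ℕ) : ℝ) * (((k - n - 1).choose (7 * n / 2 - n) : ℕ) : ℝ) *
      ((((8 * n - 7 * n / 2 - 1).choose (k - 7 * n / 2 - 1) : ℕ) : ℝ) *
        (((17 * n / 2 - 4 * n - 1).choose (k - 4 * n - 1) : ℕ) : ℝ))) ^ 2 ≤ RR i ^ N * cst i := by
  obtain ⟨hx1, hx2, hx3, hx4⟩ := x_pos h0 h1
  obtain ⟨r, hr, hnr⟩ : ∃ r, r < 120 ∧ n = 120 * N + r := ⟨n % 120, Nat.mod_lt _ (by norm_num), by omega⟩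
  have e0 : (i + 240) * N = i * N + 240 * N := by ring
  have e1 : (i + 241) * N = i * N + 241 * N := by ring
  have e2 : (i + 121) * N = i * N + 121 * N := by ring
  have e5 : (i + 1) * N = i * N + N := by ring
  rw [e0] at hlo
  rw [e1] at hhi
  have b1 := choose_sq hx1 (m := k - n / 2 - 1) (j := 3 * n - n / 2) (A := i + 121) (c := 600) (N := N)
    (by rw [e2]; omega) (powC (inv_pos.2 hx1) (by omega) (by omega))
  have b2 := choose_sq hx2 (m := k - n - 1) (j := 7 * n / 2 - n) (A := i + 1) (c := 600) (N := N)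
    (by rw [e5]; omega) (powC (inv_pos.2 hx2) (by omega) (by omega))
  have b3 := choose_sq hx3 (m := 8 * n - 7 * n / 2 - 1) (j := k - 7 * n / 2 - 1) (A := 1080) (c := e3 i) (N := N)
    (by omega) (by
      unfold e3
      rcases h : Nat.ble 40 (q3 i) with _ | _
      · simp only [cond_false]
        have h' : q3 i < 40 := by
          by_contra hc
          rw [Nat.ble_eq_true_of_le (not_lt.1 hc)] at h
          exact Bool.noConfusion h
        have hx : x3 i ≤ 1 := by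
          unfold x3
          have : (q3 i : ℝ) < 40 := by exact_mod_cast h'
          rw [div_le_one (by norm_num)]
          exact this.le
        refine powA ((one_le_inv₀ hx3).2 hx) ?_
        have e6 : Nat.sub i 599 * N + 599 * N = i * N := by
          rw [← add_mul]; congr 1; exact Nat.sub_add_cancel (by omega)
        omega
      · simp only [cond_true]
        have h' : 40 ≤ q3 i := Nat.le_of_ble_eq_true h
        have hx : 1 ≤ x3 i := by
          unfold x3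
          have : (40 : ℝ) ≤ q3 i := by exact_mod_cast h'
          rw [one_le_div (by norm_num)]
          exact this
        refine powB (inv_pos.2 hx3) (inv_le_one_of_one_le₀ hx) ?_
        have e6 : Nat.sub i 600 * N + 600 * N = i * N := by
          rw [← add_mul]; congr 1; exact Nat.sub_add_cancel (by omega)
        omega)
  have b4 := choose_sq hx4 (m := 17 * n / 2 - 4 * n - 1) (j := k - 4 * n - 1) (A := 1080) (c := e4 i) (N := N)
    (by omega) (by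
      unfold e4
      rcases h : Nat.ble 40 (q4 i) with _ | _
      · simp only [cond_false]
        have h' : q4 i < 40 := by
          by_contra hc
          rw [Nat.ble_eq_true_of_le (not_lt.1 hc)] at h
          exact Bool.noConfusion h
        have hx : x4 i ≤ 1 := by
          unfold x4
          have : (q4 i : ℝ) < 40 := by exact_mod_cast h'
          rw [div_le_one (by norm_num)]
          exact this.le
        refine powA ((one_le_inv₀ hx4).2 hx) ?_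
        have e6 : Nat.sub i 719 * N + 719 * N = i * N := by
          rw [← add_mul]; congr 1; exact Nat.sub_add_cancel (by omega)
        omega
      · simp only [cond_true]
        have h' : 40 ≤ q4 i := Nat.le_of_ble_eq_true h
        have hx : 1 ≤ x4 i := by
          unfold x4
          have : (40 : ℝ) ≤ q4 i := by exact_mod_cast h'
          rw [one_le_div (by norm_num)]
          exact this
        refine powB (inv_pos.2 hx4) (inv_le_one_of_one_le₀ hx) ?_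
        have e6 : Nat.sub i 720 * N + 720 * N = i * N := by
          rw [← add_mul]; congr 1; exact Nat.sub_add_cancel (by omega)
        omega)
  have d1 := (dc_pos hx1).le
  have d2 := (dc_pos hx2).le
  have d3 := (dc_pos hx3).le
  have d4 := (dc_pos hx4).le
  have i1 := inv_pos.2 hx1
  have i2 := inv_pos.2 hx2
  have i3 := inv_pos.2 hx3
  have i4 := inv_pos.2 hx4
  have er : RR i ^ N * cst i = ((((1 + x1 i) ^ (i + 121) * (x1 i)⁻¹ ^ 600) ^ N * dc (x1 i)) *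
      (((1 + x2 i) ^ (i + 1) * (x2 i)⁻¹ ^ 600) ^ N * dc (x2 i))) *
      ((((1 + x3 i) ^ 1080 * (x3 i)⁻¹ ^ (e3 i)) ^ N * dc (x3 i)) *
      (((1 + x4 i) ^ 1080 * (x4 i)⁻¹ ^ (e4 i)) ^ N * dc (x4 i))) := by
    unfold RR cst
    generalize (1 + x1 i) ^ (i + 121) * (x1 i)⁻¹ ^ 600 = u1
    generalize (1 + x2 i) ^ (i + 1) * (x2 i)⁻¹ ^ 600 = u2
    generalize (1 + x3 i) ^ 1080 * (x3 i)⁻¹ ^ (e3 i) = u3
    generalize (1 + x4 i) ^ 1080 * (x4 i)⁻¹ ^ (e4 i) = u4
    rw [mul_pow, mul_pow, mul_pow]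
    ring
  rw [er, mul_pow, mul_pow, mul_pow]
  have hg : ∀ {x : ℝ} (_ : 0 < x) (a c : ℕ), 0 ≤ ((1 + x) ^ a * x⁻¹ ^ c) ^ N * dc x := by
    intro x hx a c
    exact mul_nonneg (pow_nonneg (mul_nonneg (pow_nonneg (by linarith) _)
      (pow_nonneg (inv_nonneg.2 hx.le) _)) _) (dc_pos hx).le
  have g1 := hg hx1 (i + 121) 600
  have g2 := hg hx2 (i + 1) 600
  have g3 := hg hx3 1080 (e3 i)
  exact mul_le_mul (mul_le_mul b1 b2 (sq_nonneg _) g1) (mul_le_mul b3 b4 (sq_nonneg _) g3)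
    (mul_nonneg (sq_nonneg _) (sq_nonneg _)) (mul_nonneg g1 g2)

end Pool.Agent.TH250.Z3.CP
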